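import Pool.Agent.Work.MP_ead3fc_ag.S.Tasks

/-!
# MP_ead3fc_ag, smooth stage: smoothness of form valued maps and of parametric integrals
-/

set_option autoImplicit false

open MeasureTheory Set Filter Topology
open scoped ENNReal ContDiff

namespace L2P

section alt

variable {V W U : Type*} [NormedAddCommGroup V] [NormedSpace ℝ V] [NormedAddCommGroup W]
  [NormedSpace ℝ W] [NormedAddCommGroup U] [NormedSpace ℝ U] {p : ℕ}

/-- Evaluation on tuples of basis vectors, as an injective linear map. -/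
theorem exists_leftInv (W : Type*) [NormedAddCommGroup W] [NormedSpace ℝ W]
    [FiniteDimensional ℝ W] (p : ℕ) :
    ∃ (ι : Type) (_ : Fintype ι) (e : ι → Fin p → W) (M : (ι → ℂ) →ₗ[ℝ] (W [⋀^Fin p]→L[ℝ] ℂ)),
      ∀ w : W [⋀^Fin p]→L[ℝ] ℂ, M (fun i => w (e i)) = w := by
  classical
  let b := Module.finBasis ℝ W
  let L : (W [⋀^Fin p]→L[ℝ] ℂ) →ₗ[ℝ] ((Fin p → Fin (Module.finrank ℝ W)) → ℂ) :=
    { toFun := fun f i => f (fun k => b (i k))
      map_add' := fun f g => rfl
      map_smul' := fun r f => rfl }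
  have hL : Function.Injective L := by
    intro f g hfg
    apply ContinuousAlternatingMap.toAlternatingMap_injective
    refine Module.Basis.ext_alternating b fun i _ => ?_
    exact congrFun hfg i
  obtain ⟨M, hM⟩ := LinearMap.exists_leftInverse_of_injective L (LinearMap.ker_eq_bot.2 hL)
  exact ⟨_, inferInstance, fun i k => b (i k), M, fun w => LinearMap.congr_fun hM w⟩

instance finiteDimensional_alt [FiniteDimensional ℝ W] :
    FiniteDimensional ℝ (W [⋀^Fin p]→L[ℝ] ℂ) := by
  obtain ⟨ι, _, e, M, hM⟩ := exists_leftInv W p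
  exact Module.Finite.of_surjective M fun w => ⟨_, hM w⟩

/-- a map with values in alternating forms is smooth if all its evaluations are. -/
theorem contDiffAt_alt [FiniteDimensional ℝ W] {F : V → W [⋀^Fin p]→L[ℝ] ℂ} {y : V}
    {m : WithTop ℕ∞} (h : ∀ v, ContDiffAt ℝ m (fun z => F z v) y) : ContDiffAt ℝ m F y := by
  obtain ⟨ι, _, e, M, hM⟩ := exists_leftInv W p
  have h1 : F = fun z => LinearMap.toContinuousLinearMap M (fun i => F z (e i)) := by
    funext z
    exact (hM (F z)).symm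
  rw [h1]
  refine (LinearMap.toContinuousLinearMap M).contDiff.contDiffAt.comp y ?_
  exact contDiffAt_pi.2 fun i => h _

theorem contDiffAt_alt_apply {F : V → W [⋀^Fin p]→L[ℝ] ℂ} {y : V}
    {m : WithTop ℕ∞} (hF : ContDiffAt ℝ m F y) (v : Fin p → W) :
    ContDiffAt ℝ m (fun z => F z v) y :=
  (ContinuousAlternatingMap.apply ℝ W ℂ v).contDiff.contDiffAt.comp y hF

theorem contDiffAt_altComp [FiniteDimensional ℝ U] {F : V → W [⋀^Fin p]→L[ℝ] ℂ}
    {A : V → U →L[ℝ] W} {y : V} {m : WithTop ℕ∞}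
    (hF : ContDiffAt ℝ m F y) (hA : ContDiffAt ℝ m A y) :
    ContDiffAt ℝ m (fun z => (F z).compContinuousLinearMap (A z)) y := by
  apply contDiffAt_alt
  intro v
  have h1 : ContDiffAt ℝ m (fun z => (F z).toContinuousMultilinearMap) y :=
    (ContinuousAlternatingMap.toContinuousMultilinearMapCLM ℝ (E := W) (F := ℂ)
      (ι := Fin p) (𝕜 := ℝ)).contDiff.contDiffAt.comp y hF
  have h2 : ContDiffAt ℝ m (fun z =>
      ContinuousMultilinearMap.compContinuousLinearMapContinuousMultilinear ℝ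
        (fun _ : Fin p => U) (fun _ : Fin p => W) ℂ (fun _ : Fin p => A z)) y :=
    (ContinuousMultilinearMap.contDiff _).contDiffAt.comp y (contDiffAt_pi.2 fun _ => hA)
  have h3 := (h2.clm_apply h1)
  exact (ContinuousMultilinearMap.apply ℝ (fun _ : Fin p => U) ℂ v).contDiff.contDiffAt.comp y h3

/-- The value of a smooth form on smooth vector fields is smooth. -/
theorem contDiffAt_alt_apply' {F : V → W [⋀^Fin p]→L[ℝ] ℂ}
    {v : V → Fin p → W} {y : V} {m : WithTop ℕ∞}
    (hF : ContDiffAt ℝ m F y) (hv : ∀ i, ContDiffAt ℝ m (fun z => v z i) y) :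
    ContDiffAt ℝ m (fun z => F z (v z)) y := by
  let A : V → (Fin p → ℝ) →L[ℝ] W := fun z =>
    ∑ i, (ContinuousLinearMap.proj (R := ℝ) (φ := fun _ : Fin p => ℝ) i).smulRight (v z i)
  have hA : ContDiffAt ℝ m A y := by
    refine ContDiffAt.sum fun i _ => ?_
    exact ((ContinuousLinearMap.smulRightL ℝ (Fin p → ℝ) W
      (ContinuousLinearMap.proj (R := ℝ) (φ := fun _ : Fin p => ℝ) i)).contDiff.contDiffAt).comp y
      (hv i)
  have h1 := contDiffAt_alt_apply (contDiffAt_altComp hF hA) (fun i => Pi.single i 1)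
  refine h1.congr_of_eventuallyEq (Filter.Eventually.of_forall fun z => ?_)
  simp only [ContinuousAlternatingMap.compContinuousLinearMap_apply]
  congr 1
  funext i
  simp [A, Pi.single_apply]

end alt

/-- Smoothness of parametric integrals. -/
theorem contDiffOn_par {X P V₁ V₂ V₃ : Type*} [NormedAddCommGroup X] [NormedSpace ℝ X]
    [NormedAddCommGroup P] [NormedSpace ℝ P] [MeasurableSpace P] [BorelSpace P]
    [NormedAddCommGroup V₁] [NormedSpace ℝ V₁] [NormedAddCommGroup V₂] [NormedSpace ℝ V₂]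
    [NormedAddCommGroup V₃] [NormedSpace ℝ V₃]
    {μ : Measure P} {f : P → V₁} {g : X → P → V₂} (L : V₁ →L[ℝ] V₂ →L[ℝ] V₃) {s : Set X}
    {k : Set P} (hs : IsOpen s) (hk : IsCompact k) (hgs : ∀ x ∈ s, ∀ p, p ∉ k → g x p = 0)
    (hf : LocallyIntegrable f μ) (hg : ContDiffOn ℝ ∞ (Function.uncurry g) (s ×ˢ univ)) :
    ContDiffOn ℝ ∞ (fun x => ∫ p, L (f p) (g x p) ∂μ) s := by
  have h1 : ContDiffOn ℝ ∞ (Function.uncurry fun (x : X) (z : P) => g x (-z)) (s ×ˢ univ) := by
    have h2 : ContDiff ℝ ∞ fun q : X × P => (q.1, -q.2) := contDiff_fst.prodMk contDiff_snd.neg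
    exact hg.comp h2.contDiffOn fun q hq => ⟨hq.1, mem_univ _⟩
  have h3 := contDiffOn_convolution_right_with_param (n := ⊤) L
    (g := fun (x : X) (z : P) => g x (-z)) (k := -k) hs hk.neg
    (fun x z hx hz => hgs x hx (-z) fun h => hz (by simpa using h)) hf h1
  have h4 : ContDiff ℝ ∞ fun x : X => (x, (0 : P)) := contDiff_id.prodMk contDiff_const
  have h5 := h3.comp (s := s) h4.contDiffOn fun x hx => ⟨hx, mem_univ _⟩
  refine h5.congr fun x hx => ?_
  simp only [Function.comp_apply, convolution_def, zero_sub, neg_neg]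

/-- Smoothness of integrals with a smooth operator valued kernel. -/
theorem contDiffOn_kernel {X P V V' : Type*} [NormedAddCommGroup X] [NormedSpace ℝ X]
    [NormedAddCommGroup P] [NormedSpace ℝ P] [MeasurableSpace P] [BorelSpace P]
    [NormedAddCommGroup V] [NormedSpace ℝ V] [NormedAddCommGroup V'] [NormedSpace ℝ V']
    {μ : Measure P} {w : P → V} {κ : X → P → V →L[ℝ] V'} {B : Set X} {K : Set P}
    (hB : IsOpen B) (hK : IsCompact K) (hw : IntegrableOn w K μ)
    (h0 : ∀ x ∈ B, ∀ y, y ∉ K → κ x y = 0)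
    (hκ : ContDiffOn ℝ ∞ (Function.uncurry κ) (B ×ˢ univ)) :
    ContDiffOn ℝ ∞ (fun x => ∫ y, κ x y (w y) ∂μ) B := by
  have hint : Integrable (K.indicator w) μ := hw.integrable_indicator hK.measurableSet
  have h1 := contDiffOn_par (μ := μ) (ContinuousLinearMap.apply ℝ V' : V →L[ℝ] _ →L[ℝ] V')
    hB hK h0 hint.locallyIntegrable hκ
  refine h1.congr fun x hx => integral_congr_ae (Filter.Eventually.of_forall fun y => ?_)
  simp only [ContinuousLinearMap.apply_apply]
  by_cases hy : y ∈ K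
  · rw [indicator_of_mem hy]
  · rw [h0 x hx y hy]
    simp

end L2P
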