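import Pool.Agent.Work.MP_ead3fc_ag.S.Homo

/-!
# MP_ead3fc_ag, smooth stage: the regularisation commutes with `d` on globally smooth forms
-/

set_option autoImplicit false

open MeasureTheory Set Filter Topology
open scoped ENNReal ContDiff

namespace L2P

variable {n k : ℕ}

/-- For globally smooth forms `R` is smooth and `d R = R d`. -/
theorem comm_smooth {m ε : (Fin n → ℂ) → ℝ} (hm : IsMol m) (hε : ContDiff ℝ ∞ ε)
    {η : Form n k} (hη : ContDiff ℝ ∞ η) :
    ContDiff ℝ ∞ (Rg m ε η) ∧ ∀ x, extDeriv (Rg m ε η) x = Rg m ε (extDeriv η) x := by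
  let g : (Fin n → ℂ) → (Fin n → ℂ) → (Fin n → ℂ) [⋀^Fin k]→L[ℝ] ℂ := fun x u =>
    m u • (η (x + ε x • u)).compContinuousLinearMap (dPhi ε 1 u x)
  have hg0 : ∀ x ∈ (univ : Set (Fin n → ℂ)), ∀ u, u ∉ Metric.closedBall (0 : Fin n → ℂ) 1 →
      g x u = 0 := by
    intro x _ u hu
    show m u • (η (x + ε x • u)).compContinuousLinearMap (dPhi ε 1 u x) = 0
    rw [hm.supp u (by rw [mem_closedBall_zero_iff, not_le] at hu; exact hu.le)]
    exact ContinuousAlternatingMap.ext fun v => zero_smul ℝ _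
  have hg : ContDiffOn ℝ ∞ (Function.uncurry g) (univ ×ˢ univ) := by
    rintro ⟨x, u⟩ -
    apply ContDiffAt.contDiffWithinAt
    have e1 : ContDiffAt ℝ ∞ (fun q : (Fin n → ℂ) × (Fin n → ℂ) => q.1) (x, u) :=
      contDiffAt_fst
    have e2 : ContDiffAt ℝ ∞ (fun q : (Fin n → ℂ) × (Fin n → ℂ) => q.2) (x, u) :=
      contDiffAt_snd
    have e4 : ContDiffAt ℝ ∞ (fun q : (Fin n → ℂ) × (Fin n → ℂ) => ε q.1) (x, u) :=
      hε.contDiffAt.comp _ e1
    have e5 : ContDiffAt ℝ ∞ (fun q : (Fin n → ℂ) × (Fin n → ℂ) => m q.2) (x, u) :=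
      hm.smooth.contDiffAt.comp _ e2
    have e8 : ContDiffAt ℝ ∞ (fun q : (Fin n → ℂ) × (Fin n → ℂ) =>
        η (q.1 + ε q.1 • q.2)) (x, u) := hη.contDiffAt.comp (x, u) (e1.add (e4.smul e2))
    exact e5.smul (contDiffAt_altComp e8 (contDiff_dPhi hε 1 e2 e1))
  obtain ⟨h1, h2⟩ := extDeriv_par (μ := (volume : Measure (Fin n → ℂ))) MeasurableSet.univ
    isOpen_univ (isCompact_closedBall (0 : Fin n → ℂ) 1) hg0 hg
  have hR : Rg m ε η = fun x => ∫ u in univ, g x u := by
    funext x
    rw [Measure.restrict_univ]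
    rfl
  rw [hR]
  refine ⟨contDiffOn_univ.1 h1, fun x => ?_⟩
  obtain ⟨h3, h4⟩ := h2 x (mem_univ x)
  have hms : minSmoothness ℝ 2 ≤ (∞ : WithTop ℕ∞) := by
    rw [minSmoothness_of_isRCLikeNormedField]
    exact WithTop.coe_le_coe.2 (le_top : (2 : ℕ∞) ≤ ⊤)
  have hext : ∀ u, extDeriv (fun y => g y u) x =
      m u • (extDeriv η (x + ε x • u)).compContinuousLinearMap (dPhi ε 1 u x) := by
    intro u
    have hP : ∀ y, HasFDerivAt (fun y : Fin n → ℂ => y + ε y • u) (dPhi ε 1 u y) y := by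
      intro y
      have := bnd_hasFDerivAt hε 1 u y
      simpa only [one_mul] using this
    have hPc : ContDiff ℝ ∞ (fun y : Fin n → ℂ => y + ε y • u) :=
      contDiff_id.add (hε.smul contDiff_const)
    have h5 := extDeriv_pullback (x := x) (hη.contDiffAt.differentiableAt (by simp))
      hPc.contDiffAt hms
    have h6 : (fun y => (η (y + ε y • u)).compContinuousLinearMap
        (fderiv ℝ (fun y : Fin n → ℂ => y + ε y • u) y)) =
        fun y => (η (y + ε y • u)).compContinuousLinearMap (dPhi ε 1 u y) := by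
      funext y
      rw [(hP y).fderiv]
    rw [h6, (hP x).fderiv] at h5
    rw [← h5, ← extDeriv_smul]
    rfl
  have hη' : ContDiff ℝ ∞ (extDeriv η) := by
    have h5 : ContDiff ℝ ∞ (fderiv ℝ η) := hη.fderiv_right (by simp)
    exact (ContinuousAlternatingMap.alternatizeUncurryFinCLM ℝ (Fin n → ℂ) ℂ
      (n := k)).contDiff.comp h5
  have hcont : Continuous fun u : Fin n → ℂ =>
      m u • (extDeriv η (x + ε x • u)).compContinuousLinearMap (dPhi ε 1 u x) := by
    rw [continuous_iff_continuousAt]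
    intro u
    have h10 : ContDiffAt ℝ ∞ (fun u : Fin n → ℂ => extDeriv η (x + ε x • u)) u :=
      ContDiffAt.comp (g := extDeriv η) (f := fun u : Fin n → ℂ => x + ε x • u) u
        hη'.contDiffAt (contDiffAt_const.add (contDiffAt_id.const_smul (ε x)))
    have h11 : ContDiffAt ℝ ∞ (fun u : Fin n → ℂ => dPhi ε 1 u x) u :=
      contDiff_dPhi hε 1 contDiffAt_id contDiffAt_const
    exact (hm.smooth.contDiffAt.smul (contDiffAt_altComp h10 h11)).continuousAt
  have hI : Integrable fun u : Fin n → ℂ =>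
      m u • (extDeriv η (x + ε x • u)).compContinuousLinearMap (dPhi ε 1 u x) := by
    refine hcont.integrable_of_hasCompactSupport
      (HasCompactSupport.intro (isCompact_closedBall (0 : Fin n → ℂ) 1) fun u hu => ?_)
    rw [hm.supp u (by rw [mem_closedBall_zero_iff, not_le] at hu; exact hu.le)]
    exact ContinuousAlternatingMap.ext fun v => zero_smul ℝ _
  ext v
  rw [(h4 v).2.2, Measure.restrict_univ]
  have h11 := (ContinuousAlternatingMap.apply ℝ (Fin n → ℂ) ℂ v).integral_comp_comm hI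
  refine Eq.trans ?_ h11
  refine integral_congr_ae (Filter.Eventually.of_forall fun u => ?_)
  show extDeriv (fun y => g y u) x v = _
  rw [hext u]
  rfl

end L2P
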