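import Pool.Agent.Work.MP_ead3fc_ag.S.Tasks

/-!
# MP_ead3fc_ag, smooth stage, module BND: bounds in `L²` for the regularisation and the homotopy
-/

set_option autoImplicit false

open MeasureTheory Set Filter Topology
open scoped ENNReal ContDiff

namespace L2P

/-! ### A general bound for averages over families of maps -/

/-- Cauchy-Schwarz for a probability density. -/
theorem bnd_cs {T : Type*} [MeasurableSpace T] (τ : Measure T) (d g : T → ℝ≥0∞)
    (hd : Measurable d) (hg : Measurable g) (hd1 : ∫⁻ t, d t ∂τ = 1) :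
    (∫⁻ t, d t * g t ∂τ) ^ 2 ≤ ∫⁻ t, d t * g t ^ 2 ∂τ := by
  have h1 : ∀ f : T → ℝ≥0∞, Measurable f → ∫⁻ t, d t * f t ∂τ = ∫⁻ t, f t ∂(τ.withDensity d) := by
    intro f hf
    rw [lintegral_withDensity_eq_lintegral_mul τ hd hf]
    rfl
  rw [h1 g hg, h1 (fun t => g t ^ 2) (hg.pow_const 2)]
  have h2 := ENNReal.lintegral_mul_le_Lp_mul_Lq (τ.withDensity d) Real.HolderConjugate.two_two
    (f := g) (g := fun _ => 1) hg.aemeasurable aemeasurable_const
  have h3 : ∫⁻ _, (1 : ℝ≥0∞) ^ (2 : ℝ) ∂(τ.withDensity d) = 1 := by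
    rw [ENNReal.one_rpow, lintegral_const, one_mul, withDensity_apply _ MeasurableSet.univ,
      Measure.restrict_univ, hd1]
  rw [h3, ENNReal.one_rpow, mul_one] at h2
  simp only [Pi.mul_apply, mul_one] at h2
  calc (∫⁻ t, g t ∂(τ.withDensity d)) ^ 2
      ≤ ((∫⁻ t, g t ^ (2 : ℝ) ∂(τ.withDensity d)) ^ (1 / 2 : ℝ)) ^ 2 := by gcongr
    _ = ∫⁻ t, g t ^ 2 ∂(τ.withDensity d) := by
        rw [← ENNReal.rpow_natCast, ← ENNReal.rpow_mul]
        norm_num

theorem bnd_gen {V : Type*} [NormedAddCommGroup V] [NormedSpace ℝ V] [FiniteDimensional ℝ V]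
    [MeasurableSpace V] [BorelSpace V] (μ : Measure V) [μ.IsAddHaarMeasure]
    {T : Type*} [MeasurableSpace T] (τ : Measure T) [SFinite τ] (d : T → ℝ≥0∞)
    (hd : Measurable d) (hd1 : ∫⁻ t, d t ∂τ = 1) {Ω : Set V} (hΩ : MeasurableSet Ω)
    (ψ : T → V → V) (hψ : Measurable fun p : V × T => ψ p.2 p.1) (ψ' : T → V → V →L[ℝ] V)
    (hder : ∀ t, d t ≠ 0 → ∀ x ∈ Ω, HasFDerivWithinAt (ψ t) (ψ' t x) Ω x)
    (hinj : ∀ t, d t ≠ 0 → InjOn (ψ t) Ω) (hmap : ∀ t, d t ≠ 0 → ∀ x ∈ Ω, ψ t x ∈ Ω)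
    (hdet : ∀ t, d t ≠ 0 → ∀ x ∈ Ω, 1 / 2 ≤ |(ψ' t x).det|)
    (ρ : V → ℝ≥0∞) (hρ : Measurable ρ) (C : ℝ≥0∞)
    (hC : ∀ t, d t ≠ 0 → ∀ x ∈ Ω, ρ x ≤ C * ρ (ψ t x)) (G : V → ℝ≥0∞) (hG : Measurable G) :
    ∫⁻ x in Ω, (∫⁻ t, d t * G (ψ t x) ∂τ) ^ 2 * ρ x ∂μ ≤
      C * (2 * ∫⁻ x in Ω, G x ^ 2 * ρ x ∂μ) := by
  have hGψ : ∀ x, Measurable fun t => G (ψ t x) := fun x =>
    hG.comp (hψ.comp measurable_prodMk_left)
  have hmeas : Measurable fun p : V × T => d p.2 * G (ψ p.2 p.1) ^ 2 * ρ p.1 :=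
    ((hd.comp measurable_snd).mul ((hG.comp hψ).pow_const 2)).mul (hρ.comp measurable_fst)
  calc ∫⁻ x in Ω, (∫⁻ t, d t * G (ψ t x) ∂τ) ^ 2 * ρ x ∂μ
      ≤ ∫⁻ x in Ω, (∫⁻ t, d t * G (ψ t x) ^ 2 ∂τ) * ρ x ∂μ := by
        apply lintegral_mono
        intro x
        exact mul_le_mul_left (bnd_cs τ d _ hd (hGψ x) hd1) _
    _ = ∫⁻ x in Ω, ∫⁻ t, d t * G (ψ t x) ^ 2 * ρ x ∂τ ∂μ := by
        apply lintegral_congr
        intro x
        exact (lintegral_mul_const (ρ x) (hd.mul ((hGψ x).pow_const 2))).symm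
    _ = ∫⁻ t, ∫⁻ x in Ω, d t * G (ψ t x) ^ 2 * ρ x ∂μ ∂τ :=
        lintegral_lintegral_swap hmeas.aemeasurable
    _ ≤ ∫⁻ t, d t * (C * (2 * ∫⁻ x in Ω, G x ^ 2 * ρ x ∂μ)) ∂τ := by
        apply lintegral_mono
        intro t
        show ∫⁻ x in Ω, d t * G (ψ t x) ^ 2 * ρ x ∂μ ≤
          d t * (C * (2 * ∫⁻ x in Ω, G x ^ 2 * ρ x ∂μ))
        by_cases ht : d t = 0
        · simp [ht]
        · have hψt : Measurable (ψ t) := hψ.comp measurable_prodMk_right
          have hH : Measurable fun x => G (ψ t x) ^ 2 * ρ (ψ t x) :=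
            ((hG.comp hψt).pow_const 2).mul (hρ.comp hψt)
          calc ∫⁻ x in Ω, d t * G (ψ t x) ^ 2 * ρ x ∂μ
              ≤ ∫⁻ x in Ω, d t * (C * (G (ψ t x) ^ 2 * ρ (ψ t x))) ∂μ := by
                apply setLIntegral_mono' hΩ
                intro x hx
                calc d t * G (ψ t x) ^ 2 * ρ x ≤ d t * G (ψ t x) ^ 2 * (C * ρ (ψ t x)) := by
                      gcongr
                      exact hC t ht x hx
                  _ = _ := by ring
            _ = d t * (C * ∫⁻ x in Ω, G (ψ t x) ^ 2 * ρ (ψ t x) ∂μ) := by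
                rw [lintegral_const_mul _ (hH.const_mul C), lintegral_const_mul _ hH]
            _ ≤ d t * (C * (2 * ∫⁻ x in Ω, G x ^ 2 * ρ x ∂μ)) := by
                gcongr
                calc ∫⁻ x in Ω, G (ψ t x) ^ 2 * ρ (ψ t x) ∂μ
                    ≤ ∫⁻ x in Ω, 2 * (ENNReal.ofReal |(ψ' t x).det| *
                        (G (ψ t x) ^ 2 * ρ (ψ t x))) ∂μ := by
                      apply setLIntegral_mono' hΩ
                      intro x hx
                      have h1 : (1 : ℝ≥0∞) ≤ 2 * ENNReal.ofReal |(ψ' t x).det| := by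
                        have h2 : ENNReal.ofReal (1 / 2) ≤ ENNReal.ofReal |(ψ' t x).det| :=
                          ENNReal.ofReal_le_ofReal (hdet t ht x hx)
                        calc (1 : ℝ≥0∞) = 2 * ENNReal.ofReal (1 / 2) := by
                              rw [← ENNReal.ofReal_ofNat, ← ENNReal.ofReal_mul (by norm_num)]
                              norm_num
                          _ ≤ _ := by gcongr
                      calc G (ψ t x) ^ 2 * ρ (ψ t x) = 1 * (G (ψ t x) ^ 2 * ρ (ψ t x)) :=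
                            (one_mul _).symm
                        _ ≤ 2 * ENNReal.ofReal |(ψ' t x).det| * (G (ψ t x) ^ 2 * ρ (ψ t x)) := by
                            gcongr
                        _ = _ := by ring
                  _ = 2 * ∫⁻ x in Ω, ENNReal.ofReal |(ψ' t x).det| *
                        (G (ψ t x) ^ 2 * ρ (ψ t x)) ∂μ :=
                      lintegral_const_mul' _ _ (by norm_num)
                  _ = 2 * ∫⁻ y in ψ t '' Ω, G y ^ 2 * ρ y ∂μ := by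
                      rw [lintegral_image_eq_lintegral_abs_det_fderiv_mul μ hΩ (hder t ht)
                        (hinj t ht) fun y => G y ^ 2 * ρ y]
                  _ ≤ 2 * ∫⁻ y in Ω, G y ^ 2 * ρ y ∂μ := by
                      gcongr
                      rintro _ ⟨x, hx, rfl⟩
                      exact hmap t ht x hx
    _ = C * (2 * ∫⁻ x in Ω, G x ^ 2 * ρ x ∂μ) := by
        rw [lintegral_mul_const _ hd, hd1, one_mul]

/-! ### The maps -/

variable {n N k : ℕ}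

theorem bnd_mapsTo {Ω : Set (Fin n → ℂ)} {ε : (Fin n → ℂ) → ℝ} (hε : IsRad Ω ε)
    {t : ℝ} (ht0 : 0 ≤ t) (ht1 : t ≤ 1) {u : Fin n → ℂ} (hu : ‖u‖ ≤ 1) {x : Fin n → ℂ}
    (hx : x ∈ Ω) : x + (t * ε x) • u ∈ Ω := by
  apply hε.ball x hx
  have h0 := hε.pos x hx
  rw [Metric.mem_ball, dist_eq_norm, add_sub_cancel_left, norm_smul, Real.norm_eq_abs,
    abs_of_nonneg (by positivity)]
  calc t * ε x * ‖u‖ ≤ 1 * ε x * 1 := by gcongr
    _ < 2 * ε x := by linarith

theorem bnd_hasFDerivAt {ε : (Fin n → ℂ) → ℝ} (hε : ContDiff ℝ ∞ ε) (t : ℝ) (u x : Fin n → ℂ) :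
    HasFDerivAt (fun x => x + (t * ε x) • u) (dPhi ε t u x) x := by
  have h1 : HasFDerivAt ε (fderiv ℝ ε x) x :=
    (hε.differentiable (by simp)).differentiableAt.hasFDerivAt
  have h2 := (hasFDerivAt_id (𝕜 := ℝ) x).add ((h1.const_mul t).smul_const u)
  have h3 : dPhi ε t u x = ContinuousLinearMap.id ℝ (Fin n → ℂ) +
      (t • fderiv ℝ ε x).smulRight u := by
    ext v i
    simp [dPhi, mul_assoc]
  rw [h3]
  exact h2

theorem bnd_dPhi_apply (ε : (Fin n → ℂ) → ℝ) (t : ℝ) (u x v : Fin n → ℂ) :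
    dPhi ε t u x v = v + (t * fderiv ℝ ε x v) • u := by
  simp [dPhi, smul_smul]

theorem bnd_abs_le {ε : (Fin n → ℂ) → ℝ} {x : Fin n → ℂ} (hs : ‖fderiv ℝ ε x‖ ≤ 1 / 2)
    {t : ℝ} (ht0 : 0 ≤ t) (ht1 : t ≤ 1) {u : Fin n → ℂ} (hu : ‖u‖ ≤ 1) :
    |t * fderiv ℝ ε x u| ≤ 1 / 2 := by
  have h1 : ‖fderiv ℝ ε x u‖ ≤ ‖fderiv ℝ ε x‖ * ‖u‖ := ContinuousLinearMap.le_opNorm _ _
  rw [Real.norm_eq_abs] at h1
  rw [abs_mul, abs_of_nonneg ht0]
  calc t * |fderiv ℝ ε x u| ≤ 1 * (‖fderiv ℝ ε x‖ * ‖u‖) := by gcongr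
    _ ≤ 1 * ((1 / 2) * 1) := by gcongr
    _ = 1 / 2 := by norm_num

theorem bnd_det {ε : (Fin n → ℂ) → ℝ} {x : Fin n → ℂ} (hs : ‖fderiv ℝ ε x‖ ≤ 1 / 2)
    {t : ℝ} (ht0 : 0 ≤ t) (ht1 : t ≤ 1) {u : Fin n → ℂ} (hu : ‖u‖ ≤ 1) :
    1 / 2 ≤ |(dPhi ε t u x).det| := by
  have h1 : ((dPhi ε t u x : (Fin n → ℂ) →L[ℝ] (Fin n → ℂ)) : (Fin n → ℂ) →ₗ[ℝ] (Fin n → ℂ)) =
      LinearMap.transvection (t • (fderiv ℝ ε x : (Fin n → ℂ) →ₗ[ℝ] ℝ)) u := by
    exact LinearMap.ext fun v => bnd_dPhi_apply ε t u x v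
  have h2 : (dPhi ε t u x).det = 1 + t * fderiv ℝ ε x u := by
    rw [ContinuousLinearMap.det, h1, LinearMap.transvection.det]
    rfl
  have h3 := abs_le.1 (bnd_abs_le hs ht0 ht1 hu)
  rw [h2]
  refine le_trans ?_ (le_abs_self _)
  linarith [h3.1]

theorem bnd_inj {Ω : Set (Fin n → ℂ)} {ε : (Fin n → ℂ) → ℝ} (hε : IsRad Ω ε)
    {t : ℝ} (ht0 : 0 ≤ t) (ht1 : t ≤ 1) {u : Fin n → ℂ} (hu : ‖u‖ ≤ 1) :
    InjOn (fun x => x + (t * ε x) • u) Ω := by
  intro x _ y _ hxy
  have hlip : LipschitzWith (1 / 2) ε := by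
    apply lipschitzWith_of_nnnorm_fderiv_le (hε.smooth.differentiable (by simp))
    intro x
    have := hε.slope x
    rw [← NNReal.coe_le_coe]
    simpa using this
  have h1 : x - y = (t * (ε y - ε x)) • u := by
    have h2 : x + (t * ε x) • u = y + (t * ε y) • u := hxy
    have h3 : x - y = (t * ε y) • u - (t * ε x) • u := by
      rw [sub_eq_sub_iff_add_eq_add, h2, add_comm]
    rw [h3, ← sub_smul]
    congr 1
    ring
  have h2 : ‖x - y‖ ≤ 1 / 2 * ‖x - y‖ := by
    have h3 : |ε y - ε x| ≤ 1 / 2 * ‖x - y‖ := by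
      have h4 := hlip.dist_le_mul y x
      rw [Real.dist_eq, dist_eq_norm, norm_sub_rev] at h4
      simpa using h4
    calc ‖x - y‖ = ‖(t * (ε y - ε x)) • u‖ := by rw [h1]
      _ = t * |ε y - ε x| * ‖u‖ := by
          rw [norm_smul, Real.norm_eq_abs, abs_mul, abs_of_nonneg ht0]
      _ ≤ 1 * |ε y - ε x| * 1 := by gcongr
      _ ≤ 1 / 2 * ‖x - y‖ := by linarith
  have h3 : ‖x - y‖ = 0 := by
    have := norm_nonneg (x - y)
    linarith
  exact sub_eq_zero.1 (norm_eq_zero.1 h3)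

/-! ### Pointwise bounds -/

/-- evaluation of an integral of alternating forms -/
theorem bnd_eval {T : Type*} [MeasurableSpace T] (τ : Measure T)
    (f : T → (Fin n → ℂ) [⋀^Fin k]→L[ℝ] ℂ) (v : Fin k → Fin n → ℂ) :
    ‖(∫ t, f t ∂τ) v‖ₑ ≤ ∫⁻ t, ‖f t v‖ₑ ∂τ := by
  by_cases hf : Integrable f τ
  · have h1 : (∫ t, f t ∂τ) v = ∫ t, f t v ∂τ := by
      have := (ContinuousAlternatingMap.apply ℝ (Fin n → ℂ) ℂ v).integral_comp_comm hf
      exact this.symm
    rw [h1]
    exact enorm_integral_le_lintegral_enorm _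
  · rw [integral_undef hf]
    simp

theorem bnd_scale (F : (Fin n → ℂ) → EuclideanSpace ℂ (Fin N)) (y : Fin n → ℂ)
    (w : (Fin n → ℂ) [⋀^Fin k]→L[ℝ] ℂ) {c : ℝ} (hc : 0 < c) (z : Fin k → Fin n → ℂ)
    (hz : ∀ i, ‖fderiv ℂ F y (z i)‖ ≤ c) :
    ‖w z‖ₑ ≤ ENNReal.ofReal c ^ k * normAt F y w := by
  have h1 : z = fun i => c • (c⁻¹ • z i) := by
    funext i
    rw [smul_smul, mul_inv_cancel₀ hc.ne', one_smul]
  have h2 : w z = (∏ _i : Fin k, c) • w (fun i => c⁻¹ • z i) := by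
    conv_lhs => rw [h1]
    exact w.map_smul_univ (fun _ => c) fun i => c⁻¹ • z i
  rw [h2, Finset.prod_const, Finset.card_univ, Fintype.card_fin, enorm_smul]
  have h3 : ‖c ^ k‖ₑ = ENNReal.ofReal c ^ k := by
    rw [enorm_pow, Real.enorm_of_nonneg hc.le]
  rw [h3]
  gcongr
  refine le_iSup_of_le (⟨fun i => c⁻¹ • z i, fun i => ?_⟩ :
    {v : Fin k → Fin n → ℂ // ∀ i, ‖fderiv ℂ F y (v i)‖ ≤ 1}) le_rfl
  have h4 : c⁻¹ • z i = ((c⁻¹ : ℝ) : ℂ) • z i := by
    ext j
    simp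
  show ‖fderiv ℂ F y (c⁻¹ • z i)‖ ≤ 1
  rw [h4, map_smul, norm_smul, Complex.norm_real, Real.norm_eq_abs,
    abs_of_pos (inv_pos.2 hc)]
  calc c⁻¹ * ‖fderiv ℂ F y (z i)‖ ≤ c⁻¹ * c := by
        gcongr
        exact hz i
    _ = 1 := inv_mul_cancel₀ hc.ne'

/-- adding multiples of the first vector does not change an alternating form -/
theorem bnd_alt (w : (Fin n → ℂ) [⋀^Fin (k + 1)]→L[ℝ] ℂ) (u : Fin n → ℂ)
    (v : Fin k → Fin n → ℂ) (c : Fin k → ℝ) :
    w (Matrix.vecCons u fun i => v i + c i • u) = w (Matrix.vecCons u v) := by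
  classical
  have key : ∀ S : Finset (Fin k),
      w (Matrix.vecCons u fun i => if i ∈ S then v i + c i • u else v i) =
        w (Matrix.vecCons u v) := by
    intro S
    induction S using Finset.induction_on with
    | empty => simp
    | insert j S hj ih =>
        rw [← ih]
        set z : Fin k → Fin n → ℂ := fun i => if i ∈ S then v i + c i • u else v i with hz
        have e1 : (fun i => if i ∈ insert j S then v i + c i • u else v i) =
            Function.update z j (v j + c j • u) := by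
          funext i
          by_cases hi : i = j
          · subst hi
            rw [Function.update_self, if_pos (Finset.mem_insert_self _ _)]
          · rw [Function.update_of_ne hi, hz]
            simp only [Finset.mem_insert, hi, false_or]
        have e2 : z = Function.update z j (v j) := by
          have : z j = v j := by rw [hz]; exact if_neg hj
          rw [← this, Function.update_eq_self]
        have e3 : ∀ y : Fin n → ℂ, Matrix.vecCons u (Function.update z j y) =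
            Function.update (Matrix.vecCons u z) j.succ y := by
          intro y
          exact (Fin.cons_update (α := fun _ => Fin n → ℂ) u z j y)
        rw [e1, e3, w.map_update_add, w.map_update_smul]
        have e4 : w (Function.update (Matrix.vecCons u z) j.succ u) = 0 := by
          apply w.map_eq_zero_of_eq _ (i := 0) (j := j.succ) _ (Fin.succ_ne_zero j).symm
          rw [Function.update_self, Function.update_of_ne (Fin.succ_ne_zero j).symm]
          rfl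
        rw [e4, smul_zero, add_zero, ← e3, ← e2]
  have := key Finset.univ
  simpa using this

theorem bnd_R {Ω : Set (Fin n → ℂ)} {F : (Fin n → ℂ) → EuclideanSpace ℂ (Fin N)}
    {m ε : (Fin n → ℂ) → ℝ} {C : ℝ} (hm : IsMol m) (_hε : IsRad Ω ε) (hC : 0 < C)
    (hF : IsTame F Ω ε C) (w : Form n k) (G : (Fin n → ℂ) → ℝ≥0∞)
    (hG : ∀ y, normAt F y (w y) ≤ G y) {x : Fin n → ℂ} (hx : x ∈ Ω) :
    normAt F x (Rg m ε w x) ≤
      ENNReal.ofReal C ^ k * ∫⁻ u, ENNReal.ofReal (m u) * G (x + ((1 : ℝ) * ε x) • u) := by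
  apply iSup_le
  rintro ⟨v, hv⟩
  refine (bnd_eval _ _ v).trans ?_
  rw [← lintegral_const_mul' _ _ (by finiteness)]
  apply lintegral_mono
  intro u
  show ‖m u • (w (x + ε x • u)) (fun i => dPhi ε 1 u x (v i))‖ₑ ≤
    ENNReal.ofReal C ^ k * (ENNReal.ofReal (m u) * G (x + ((1 : ℝ) * ε x) • u))
  rw [one_mul, enorm_smul, Real.enorm_of_nonneg (hm.nonneg u)]
  by_cases hmu : m u = 0
  · simp [hmu]
  · have hu : ‖u‖ ≤ 1 := by
      by_contra hcon
      exact hmu (hm.supp u (not_le.1 hcon).le)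
    have h1 := bnd_scale F (x + ε x • u) (w (x + ε x • u)) hC
      (fun i => dPhi ε 1 u x (v i)) fun i => by
        have h2 := hF.push x hx u hu 1 zero_le_one le_rfl (v i)
        rw [one_mul] at h2
        calc ‖fderiv ℂ F (x + ε x • u) (dPhi ε 1 u x (v i))‖ ≤ C * ‖fderiv ℂ F x (v i)‖ := h2
          _ ≤ C * 1 := by
              gcongr
              exact hv i
          _ = C := mul_one _
    calc ENNReal.ofReal (m u) * ‖(w (x + ε x • u)) (fun i => dPhi ε 1 u x (v i))‖ₑ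
        ≤ ENNReal.ofReal (m u) * (ENNReal.ofReal C ^ k * G (x + ε x • u)) := by
          gcongr
          refine h1.trans ?_
          gcongr
          exact hG _
      _ = _ := by ring

theorem bnd_A {Ω : Set (Fin n → ℂ)} {F : (Fin n → ℂ) → EuclideanSpace ℂ (Fin N)}
    {m ε : (Fin n → ℂ) → ℝ} {C : ℝ} (hm : IsMol m) (hε : IsRad Ω ε) (hC : 0 < C)
    (hF : IsTame F Ω ε C) (w : Form n (k + 1)) (G : (Fin n → ℂ) → ℝ≥0∞)
    (hG : ∀ y, normAt F y (w y) ≤ G y) {x : Fin n → ℂ} (hx : x ∈ Ω) :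
    normAt F x (Ag m ε w x) ≤
      ENNReal.ofReal C ^ (k + 1) * ∫⁻ p : (Fin n → ℂ) × ℝ,
        (univ ×ˢ Icc (0 : ℝ) 1).indicator (fun p => ENNReal.ofReal (m p.1)) p *
          G (x + (p.2 * ε x) • p.1) := by
  apply iSup_le
  rintro ⟨v, hv⟩
  refine (bnd_eval _ _ v).trans ?_
  rw [← lintegral_const_mul' _ _ (by finiteness)]
  have hS : MeasurableSet ((univ : Set (Fin n → ℂ)) ×ˢ Icc (0 : ℝ) 1) :=
    MeasurableSet.univ.prod measurableSet_Icc
  rw [← lintegral_indicator hS]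
  apply lintegral_mono
  rintro ⟨u, s⟩
  by_cases hus : (u, s) ∈ (univ : Set (Fin n → ℂ)) ×ˢ Icc (0 : ℝ) 1
  · have hs : 0 ≤ s ∧ s ≤ 1 := hus.2
    simp only [indicator_of_mem hus]
    show ‖(m u * ε x) • (w (x + (s * ε x) • u)) (Matrix.vecCons u v)‖ₑ ≤
      ENNReal.ofReal C ^ (k + 1) * (ENNReal.ofReal (m u) * G (x + (s * ε x) • u))
    have hε0 := hε.pos x hx
    rw [enorm_smul, Real.enorm_of_nonneg (mul_nonneg (hm.nonneg u) hε0.le)]
    by_cases hmu : m u = 0
    · simp [hmu]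
    · have hu : ‖u‖ ≤ 1 := by
        by_contra hcon
        exact hmu (hm.supp u (not_le.1 hcon).le)
      have hy := bnd_mapsTo hε hs.1 hs.2 hu hx
      have e1 : (w (x + (s * ε x) • u)) (Matrix.vecCons u v) =
          (w (x + (s * ε x) • u)) (Matrix.vecCons u fun i => dPhi ε s u x (v i)) := by
        simp only [bnd_dPhi_apply]
        exact (bnd_alt _ u v fun i => s * fderiv ℝ ε x (v i)).symm
      have h1 := bnd_scale F (x + (s * ε x) • u) (w (x + (s * ε x) • u)) hC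
        (Matrix.vecCons u fun i => dPhi ε s u x (v i)) (by
          intro i
          refine Fin.cases ?_ (fun i => ?_) i
          · exact hF.vec _ hy u hu
          · calc ‖fderiv ℂ F (x + (s * ε x) • u) (dPhi ε s u x (v i))‖
                ≤ C * ‖fderiv ℂ F x (v i)‖ := hF.push x hx u hu s hs.1 hs.2 (v i)
              _ ≤ C * 1 := by
                  gcongr
                  exact hv i
              _ = C := mul_one _)
      rw [e1]
      calc ENNReal.ofReal (m u * ε x) *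
            ‖(w (x + (s * ε x) • u)) (Matrix.vecCons u fun i => dPhi ε s u x (v i))‖ₑ
          ≤ ENNReal.ofReal (m u) * (ENNReal.ofReal C ^ (k + 1) * G (x + (s * ε x) • u)) := by
            gcongr
            · exact mul_le_of_le_one_right (hm.nonneg u) (hε.le_one x)
            · refine h1.trans ?_
              gcongr
              exact hG _
        _ = _ := by ring
  · simp only [indicator_of_notMem hus]
    exact zero_le

/-! ### Assembly -/

theorem bnd_tame_mono {Ω : Set (Fin n → ℂ)} {F : (Fin n → ℂ) → EuclideanSpace ℂ (Fin N)}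
    {ε : (Fin n → ℂ) → ℝ} {C C' : ℝ} (h : IsTame F Ω ε C) (hC : C ≤ C') : IsTame F Ω ε C' where
  inj := h.inj
  cont := h.cont
  vec x hx u hu := (h.vec x hx u hu).trans hC
  push x hx u hu t h0 h1 v := (h.push x hx u hu t h0 h1 v).trans (by gcongr)
  gram x hx u hu t h0 h1 := (h.gram x hx u hu t h0 h1).trans (by gcongr)

theorem bnd_gram_cont {Ω : Set (Fin n → ℂ)} {F : (Fin n → ℂ) → EuclideanSpace ℂ (Fin N)}
    (h : ContinuousOn (fderiv ℂ F) Ω) : ContinuousOn (fun x => ‖gramDet F x‖ₑ) Ω := by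
  have h1 : Continuous fun L : (Fin n → ℂ) →L[ℂ] EuclideanSpace ℂ (Fin N) =>
      ‖(Matrix.of fun i j : Fin n => inner ℂ (L (Pi.single i 1)) (L (Pi.single j 1))).det‖ₑ := by
    apply Continuous.enorm
    apply Continuous.matrix_det
    apply continuous_matrix
    intro i j
    exact ((ContinuousLinearMap.apply ℂ _ _).continuous).inner
      ((ContinuousLinearMap.apply ℂ _ _).continuous)
  exact h1.comp_continuousOn h

/-- a measurable majorant -/
theorem bnd_major {V : Type*} [MeasurableSpace V] (μ : Measure V) (f : V → ℝ≥0∞)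
    (hf : AEMeasurable f μ) : ∃ G : V → ℝ≥0∞, Measurable G ∧ (∀ x, f x ≤ G x) ∧ G =ᵐ[μ] f := by
  classical
  set B : Set V := toMeasurable μ {x | f x ≠ hf.mk f x} with hB
  have hB0 : μ B = 0 := by
    rw [hB, measure_toMeasurable]
    exact hf.ae_eq_mk
  have hBm : MeasurableSet B := measurableSet_toMeasurable _ _
  refine ⟨B.piecewise (fun _ => ⊤) (hf.mk f), Measurable.piecewise hBm measurable_const
    hf.measurable_mk, fun x => ?_, ?_⟩
  · by_cases hx : x ∈ B
    · rw [piecewise_eq_of_mem _ _ _ hx]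
      exact le_top
    · rw [piecewise_eq_of_notMem _ _ _ hx]
      have : ¬ (f x ≠ hf.mk f x) := fun h => hx (subset_toMeasurable _ _ h)
      rw [not_not] at this
      exact this.le
  · have h1 : ∀ᵐ x ∂μ, x ∉ B := by
      rw [ae_iff]
      simpa using hB0
    filter_upwards [h1, hf.ae_eq_mk] with x hx hx2
    rw [piecewise_eq_of_notMem _ _ _ hx, hx2]

theorem bnd_fin {Ω : Set (Fin n → ℂ)} {F : (Fin n → ℂ) → EuclideanSpace ℂ (Fin N)}
    {ε : (Fin n → ℂ) → ℝ} {C : ℝ} (hΩ : IsOpen Ω) (hε : IsRad Ω ε) (hC : 0 < C)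
    (hF : IsTame F Ω ε C) {k' : ℕ} (w : Form n k') (w' : Form n k)
    (hw : ∫⁻ x in Ω, normAt F x (w x) ^ 2 * ‖gramDet F x‖ₑ < ⊤)
    (G : (Fin n → ℂ) → ℝ≥0∞) (hG : Measurable G)
    (hGw : G =ᵐ[volume.restrict Ω] fun x => normAt F x (w x))
    {T : Type*} [MeasurableSpace T] (τ : Measure T) [SFinite τ] (d : T → ℝ≥0∞)
    (hd : Measurable d) (hd1 : ∫⁻ t, d t ∂τ = 1) (a : T → ℝ) (b : T → Fin n → ℂ)
    (ha : Measurable a) (hb : Measurable b)
    (hab : ∀ t, d t ≠ 0 → 0 ≤ a t ∧ a t ≤ 1 ∧ ‖b t‖ ≤ 1) (K : ℝ≥0∞) (hK : K ≠ ⊤)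
    (hbd : ∀ x ∈ Ω, normAt F x (w' x) ≤ K * ∫⁻ t, d t * G (x + (a t * ε x) • b t) ∂τ) :
    ∫⁻ x in Ω, normAt F x (w' x) ^ 2 * ‖gramDet F x‖ₑ < ⊤ := by
  classical
  set ρ : (Fin n → ℂ) → ℝ≥0∞ := Ω.piecewise (fun x => ‖gramDet F x‖ₑ) (fun _ => 0) with hρ
  have hρm : Measurable ρ :=
    (bnd_gram_cont hF.cont).measurable_piecewise continuousOn_const hΩ.measurableSet
  have hρx : ∀ x ∈ Ω, ρ x = ‖gramDet F x‖ₑ := fun x hx => piecewise_eq_of_mem _ _ _ hx
  have hgen := bnd_gen (volume : Measure (Fin n → ℂ)) τ d hd hd1 hΩ.measurableSet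
    (fun t x => x + (a t * ε x) • b t) (by
      have h1 : Measurable ε := hε.smooth.continuous.measurable
      exact measurable_fst.add (((ha.comp measurable_snd).mul (h1.comp measurable_fst)).smul
        (hb.comp measurable_snd)))
    (fun t x => dPhi ε (a t) (b t) x)
    (fun t _ x _ => (bnd_hasFDerivAt hε.smooth (a t) (b t) x).hasFDerivWithinAt)
    (fun t ht => bnd_inj hε (hab t ht).1 (hab t ht).2.1 (hab t ht).2.2)
    (fun t ht x hx => bnd_mapsTo hε (hab t ht).1 (hab t ht).2.1 (hab t ht).2.2 hx)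
    (fun t ht x _ => bnd_det (hε.slope x) (hab t ht).1 (hab t ht).2.1 (hab t ht).2.2)
    ρ hρm (ENNReal.ofReal C) (fun t ht x hx => by
      have hy := bnd_mapsTo hε (hab t ht).1 (hab t ht).2.1 (hab t ht).2.2 hx
      rw [hρx x hx, hρx _ hy, ← ofReal_norm, ← ofReal_norm,
        ← ENNReal.ofReal_mul hC.le]
      exact ENNReal.ofReal_le_ofReal
        (hF.gram x hx (b t) (hab t ht).2.2 (a t) (hab t ht).1 (hab t ht).2.1)) G hG
  calc ∫⁻ x in Ω, normAt F x (w' x) ^ 2 * ‖gramDet F x‖ₑ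
      ≤ ∫⁻ x in Ω, K ^ 2 * ((∫⁻ t, d t * G (x + (a t * ε x) • b t) ∂τ) ^ 2 * ρ x) := by
        apply setLIntegral_mono' hΩ.measurableSet
        intro x hx
        rw [hρx x hx, ← mul_assoc, ← mul_pow]
        gcongr
        exact hbd x hx
    _ = K ^ 2 * ∫⁻ x in Ω, (∫⁻ t, d t * G (x + (a t * ε x) • b t) ∂τ) ^ 2 * ρ x :=
        lintegral_const_mul' _ _ (by finiteness)
    _ ≤ K ^ 2 * (ENNReal.ofReal C * (2 * ∫⁻ x in Ω, G x ^ 2 * ρ x)) := by
        gcongr
    _ = K ^ 2 * (ENNReal.ofReal C * (2 *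
          ∫⁻ x in Ω, normAt F x (w x) ^ 2 * ‖gramDet F x‖ₑ)) := by
        congr 3
        apply lintegral_congr_ae
        filter_upwards [hGw, ae_restrict_mem hΩ.measurableSet] with x hx hx2
        rw [hx, hρx x hx2]
    _ < ⊤ := by
        have := hw.ne
        finiteness

theorem bnd (hM : S_MEAS) : S_BND := by
  intro n N k Ω F m ε C hΩ hm hε hF₀
  have hC : 0 < max C 1 := lt_max_of_lt_right one_pos
  have hF := bnd_tame_mono hF₀ (le_max_left C 1)
  have hmc : Measurable m := hm.smooth.continuous.measurable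
  have hint : ∫⁻ u, ENNReal.ofReal (m u) = 1 := by
    have h1 : Integrable m := by
      by_contra hcon
      have := hm.int
      rw [integral_undef hcon] at this
      exact zero_ne_one this
    rw [← ofReal_integral_eq_lintegral_ofReal h1 (Eventually.of_forall hm.nonneg), hm.int,
      ENNReal.ofReal_one]
  have hsupp : ∀ u, ENNReal.ofReal (m u) ≠ 0 → ‖u‖ ≤ 1 := by
    intro u hu
    by_contra hcon
    exact hu (by rw [hm.supp u (not_le.1 hcon).le, ENNReal.ofReal_zero])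
  constructor
  · intro w hw hcont
    obtain ⟨G, hG1, hG2, hG3⟩ := bnd_major _ _ (hM n N k Ω F w hΩ hF.inj hF.cont hw.meas)
    refine ⟨hcont.aestronglyMeasurable hΩ.measurableSet, ?_⟩
    exact bnd_fin hΩ hε hC hF w _ hw.fin G hG1 hG3 volume (fun u => ENNReal.ofReal (m u))
      hmc.ennreal_ofReal hint (fun _ => 1) id measurable_const measurable_id
      (fun u hu => ⟨zero_le_one, le_rfl, hsupp u hu⟩) _ (by finiteness)
      fun x hx => bnd_R hm hε hC hF w G hG2 hx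
  · intro w hw hcont
    obtain ⟨G, hG1, hG2, hG3⟩ := bnd_major _ _ (hM n N (k + 1) Ω F w hΩ hF.inj hF.cont hw.meas)
    refine ⟨hcont.aestronglyMeasurable hΩ.measurableSet, ?_⟩
    have hS : MeasurableSet ((univ : Set (Fin n → ℂ)) ×ˢ Icc (0 : ℝ) 1) :=
      MeasurableSet.univ.prod measurableSet_Icc
    refine bnd_fin hΩ hε hC hF w _ hw.fin G hG1 hG3 (volume : Measure ((Fin n → ℂ) × ℝ))
      ((univ ×ˢ Icc (0 : ℝ) 1).indicator (fun p => ENNReal.ofReal (m p.1)))
      ((hmc.comp measurable_fst).ennreal_ofReal.indicator hS) ?_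
      (fun p => p.2) (fun p => p.1) measurable_snd measurable_fst ?_ _ ?_
      fun x hx => bnd_A hm hε hC hF w G hG2 hx
    · rw [lintegral_indicator hS, Measure.volume_eq_prod, ← Measure.prod_restrict,
        lintegral_prod (fun a : (Fin n → ℂ) × ℝ => ENNReal.ofReal (m a.1))
          (hmc.comp measurable_fst).ennreal_ofReal.aemeasurable]
      simp [hint]
    · intro p hp
      have hpS : p ∈ (univ : Set (Fin n → ℂ)) ×ˢ Icc (0 : ℝ) 1 := by
        by_contra hcon
        exact hp (indicator_of_notMem hcon _)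
      rw [indicator_of_mem hpS] at hp
      exact ⟨hpS.2.1, hpS.2.2, hsupp p.1 hp⟩
    · finiteness

end L2P
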