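import Pool.Agent.Work.MP_ead3fc_ag.S.Ker
import Pool.Agent.Work.MP_ead3fc_ag.S.Bnd

/-!
# MP_ead3fc_ag, smooth stage: the homotopy formula

Proof of `S_HOMO`.
-/

set_option autoImplicit false

open MeasureTheory Set Filter Topology
open scoped ENNReal ContDiff

namespace L2P

section param

/-- Differentiation under the integral sign. -/
theorem hasFDerivAt_par {X P W : Type*} [NormedAddCommGroup X] [NormedSpace ℝ X]
    [FiniteDimensional ℝ X] [NormedAddCommGroup P] [NormedSpace ℝ P]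
    [SecondCountableTopology P] [MeasurableSpace P] [BorelSpace P]
    [NormedAddCommGroup W] [NormedSpace ℝ W]
    {μ : Measure P} [IsLocallyFiniteMeasure μ] {g : X → P → W} {s : Set X} {K : Set P}
    (S : Set P) (hs : IsOpen s) (hK : IsCompact K) (h0 : ∀ x ∈ s, ∀ p, p ∉ K → g x p = 0)
    (hg : ContDiffOn ℝ ∞ (Function.uncurry g) (s ×ˢ univ)) {x : X} (hx : x ∈ s) :
    HasFDerivAt (fun y => ∫ p in S, g y p ∂μ) (∫ p in S, fderiv ℝ (fun y => g y p) x ∂μ) x ∧
      (Continuous fun p => fderiv ℝ (fun y => g y p) x) ∧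
      (∀ p, p ∉ K → fderiv ℝ (fun y => g y p) x = 0) ∧
      Integrable (fun p => fderiv ℝ (fun y => g y p) x) μ ∧
      ∀ p, DifferentiableAt ℝ (fun y => g y p) x := by
  have hso : IsOpen (s ×ˢ (univ : Set P)) := hs.prod isOpen_univ
  have h1 : ContinuousOn (fderiv ℝ (Function.uncurry g)) (s ×ˢ univ) :=
    hg.continuousOn_fderiv_of_isOpen hso (by simp)
  have h2 : ∀ y ∈ s, ∀ p, HasFDerivAt (fun z => g z p)
      ((fderiv ℝ (Function.uncurry g) (y, p)).comp (ContinuousLinearMap.inl ℝ X P)) y := by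
    intro y hy p
    have h3 : HasFDerivAt (Function.uncurry g) (fderiv ℝ (Function.uncurry g) (y, p)) (y, p) :=
      ((hg.contDiffAt (hso.mem_nhds (mk_mem_prod hy (mem_univ p)))).differentiableAt
        (by simp)).hasFDerivAt
    have h4 : HasFDerivAt (fun z : X => ((z, p) : X × P)) (ContinuousLinearMap.inl ℝ X P) y :=
      (hasFDerivAt_id y).prodMk (hasFDerivAt_const p y)
    exact HasFDerivAt.comp y h3 h4
  have h2' : ∀ y ∈ s, ∀ p, fderiv ℝ (fun z => g z p) y =
      (fderiv ℝ (Function.uncurry g) (y, p)).comp (ContinuousLinearMap.inl ℝ X P) :=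
    fun y hy p => (h2 y hy p).fderiv
  have h3 : ∀ y ∈ s, ∀ p, p ∉ K → fderiv ℝ (fun z => g z p) y = 0 := by
    intro y hy p hp
    have h4 : (fun z => g z p) =ᶠ[𝓝 y] fun _ => 0 := by
      filter_upwards [hs.mem_nhds hy] with z hz
      exact h0 z hz p hp
    rw [h4.fderiv_eq]
    simp
  have hcont : ∀ y ∈ s, Continuous fun p => fderiv ℝ (fun z => g z p) y := by
    intro y hy
    have h4 : Continuous fun p : P => fderiv ℝ (Function.uncurry g) (y, p) := by
      rw [← continuousOn_univ]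
      exact h1.comp (continuous_const.prodMk continuous_id).continuousOn
        fun p _ => mk_mem_prod hy (mem_univ p)
    have h5 : (fun p => fderiv ℝ (fun z => g z p) y) = fun p =>
        (fderiv ℝ (Function.uncurry g) (y, p)).comp (ContinuousLinearMap.inl ℝ X P) :=
      funext fun p => h2' y hy p
    rw [h5]
    exact h4.clm_comp continuous_const
  have hcont0 : ∀ y ∈ s, Continuous (g y) := by
    intro y hy
    rw [← continuousOn_univ]
    exact hg.continuousOn.comp (continuous_const.prodMk continuous_id).continuousOn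
      fun p _ => mk_mem_prod hy (mem_univ p)
  have hint : Integrable (fun p => fderiv ℝ (fun y => g y p) x) μ :=
    (hcont x hx).integrable_of_hasCompactSupport
      (HasCompactSupport.intro hK fun p hp => h3 x hx p hp)
  obtain ⟨r, hr, hball⟩ := Metric.nhds_basis_closedBall.mem_iff.1 (hs.mem_nhds hx)
  have hC : IsCompact (Metric.closedBall x r ×ˢ K) := by
    have := FiniteDimensional.proper_real X
    exact (isCompact_closedBall x r).prod hK
  have h6 : ContinuousOn (fun q : X × P => fderiv ℝ (Function.uncurry g) q)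
      (Metric.closedBall x r ×ˢ K) := h1.mono (prod_mono hball (subset_univ _))
  have h7 : ContinuousOn (fun q : X × P => (fderiv ℝ (Function.uncurry g) q).comp
      (ContinuousLinearMap.inl ℝ X P)) (Metric.closedBall x r ×ˢ K) :=
    h6.clm_comp continuousOn_const
  obtain ⟨M, hM⟩ := hC.exists_bound_of_continuousOn h7
  refine ⟨?_, hcont x hx, h3 x hx, hint, fun p => (h2 x hx p).differentiableAt⟩
  refine hasFDerivAt_integral_of_dominated_of_fderiv_le (F := g)
    (F' := fun y p => fderiv ℝ (fun z => g z p) y)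
    (bound := K.indicator fun _ => |M|) (s := Metric.closedBall x r)
    (Metric.closedBall_mem_nhds x hr) ?_ ?_ ?_ ?_ ?_ ?_
  · filter_upwards [hs.mem_nhds hx] with y hy
    exact (hcont0 y hy).aestronglyMeasurable
  · exact ((hcont0 x hx).integrable_of_hasCompactSupport
      (HasCompactSupport.intro hK fun p hp => h0 x hx p hp)).restrict
  · exact (hcont x hx).aestronglyMeasurable
  · refine Filter.Eventually.of_forall fun p y hy => ?_
    by_cases hp : p ∈ K
    · rw [indicator_of_mem hp, h2' y (hball hy) p]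
      exact (hM (y, p) (mk_mem_prod hy hp)).trans (le_abs_self M)
    · rw [indicator_of_notMem hp, h3 y (hball hy) p hp, norm_zero]
  · refine Integrable.restrict ?_
    exact (integrable_indicator_iff hK.measurableSet).2
      (integrableOn_const hK.measure_lt_top.ne)
  · exact Filter.Eventually.of_forall fun p y hy =>
      (h2 y (hball hy) p).differentiableAt.hasFDerivAt

/-- Exterior derivative of a parametric integral. -/
theorem extDeriv_par {V P : Type*} [NormedAddCommGroup V] [NormedSpace ℝ V]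
    [FiniteDimensional ℝ V] [NormedAddCommGroup P] [NormedSpace ℝ P]
    [SecondCountableTopology P] [MeasurableSpace P] [BorelSpace P] {k : ℕ}
    {μ : Measure P} [IsLocallyFiniteMeasure μ] {g : V → P → V [⋀^Fin k]→L[ℝ] ℂ} {s : Set V}
    {K : Set P} {S : Set P} (hS : MeasurableSet S) (hs : IsOpen s) (hK : IsCompact K)
    (h0 : ∀ x ∈ s, ∀ p, p ∉ K → g x p = 0)
    (hg : ContDiffOn ℝ ∞ (Function.uncurry g) (s ×ˢ univ)) :
    ContDiffOn ℝ ∞ (fun y => ∫ p in S, g y p ∂μ) s ∧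
    ∀ x ∈ s, (∀ p, DifferentiableAt ℝ (fun y => g y p) x) ∧ ∀ v : Fin (k + 1) → V,
      (Continuous fun p => extDeriv (fun y => g y p) x v) ∧
      (∀ p, p ∉ K → extDeriv (fun y => g y p) x v = 0) ∧
      extDeriv (fun y => ∫ p in S, g y p ∂μ) x v =
        ∫ p in S, extDeriv (fun y => g y p) x v ∂μ := by
  refine ⟨?_, fun x hx => ?_⟩
  · have h1 : LocallyIntegrable (S.indicator fun _ => (1 : ℝ)) μ := by
      intro x
      obtain ⟨U, hU, hU2⟩ := μ.finiteAt_nhds x
      refine ⟨U, hU, ?_⟩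
      exact (integrableOn_const hU2.ne).indicator hS
    have h2 := contDiffOn_par (μ := μ) (ContinuousLinearMap.lsmul ℝ ℝ :
      ℝ →L[ℝ] (V [⋀^Fin k]→L[ℝ] ℂ) →L[ℝ] (V [⋀^Fin k]→L[ℝ] ℂ)) hs hK h0 h1 hg
    refine h2.congr fun y _ => ?_
    rw [← integral_indicator hS]
    refine integral_congr_ae (Filter.Eventually.of_forall fun p => ?_)
    by_cases hp : p ∈ S
    · simp [hp]
    · simp [hp]
  · obtain ⟨h1, h2, h3, h4, h5⟩ := hasFDerivAt_par (μ := μ) S hs hK h0 hg hx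
    refine ⟨h5, fun v => ?_⟩
    let T : (V →L[ℝ] V [⋀^Fin k]→L[ℝ] ℂ) →L[ℝ] ℂ :=
      (ContinuousAlternatingMap.apply ℝ V ℂ v).comp
        (ContinuousAlternatingMap.alternatizeUncurryFinCLM ℝ V ℂ)
    have h6 : ∀ p, extDeriv (fun y => g y p) x v = T (fderiv ℝ (fun y => g y p) x) :=
      fun p => rfl
    refine ⟨?_, ?_, ?_⟩
    · exact T.continuous.comp h2
    · intro p hp
      rw [h6, h3 p hp, map_zero]
    · have h7 : extDeriv (fun y => ∫ p in S, g y p ∂μ) x v =
          T (∫ p in S, fderiv ℝ (fun y => g y p) x ∂μ) := by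
        rw [← h1.fderiv]
        rfl
      rw [h7, ← T.integral_comp_comm h4.restrict]
      rfl

end param

/-! ### Cartan's formula -/

section cartan

variable {V' : Type*} [NormedAddCommGroup V'] [NormedSpace ℝ V'] {q : ℕ}

/-- `(u, 0)`. -/
def upV (u : Fin q → V') : Fin q → V' × ℝ := fun k => (u k, 0)

/-- `((0, 1), (u_1, 0), …, (u_q, 0))`. -/
def dtV (u : Fin q → V') : Fin (q + 1) → V' × ℝ := Matrix.vecCons ((0 : V'), (1 : ℝ)) (upV u)

omit [NormedSpace ℝ V'] in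
theorem removeNth_zero_dtV (u : Fin q → V') : (0 : Fin (q + 1)).removeNth (dtV u) = upV u := by
  funext i
  simp [Fin.removeNth, dtV]

omit [NormedSpace ℝ V'] in
theorem removeNth_succ_dtV (u : Fin (q + 1) → V') (k : Fin (q + 1)) :
    k.succ.removeNth (dtV u) = dtV (k.removeNth u) := by
  funext i
  refine Fin.cases ?_ (fun j => ?_) i
  · simp [Fin.removeNth, dtV]
  · simp [Fin.removeNth, dtV, upV]

/-- Contraction with `∂_t`, restricted to the slice. -/
noncomputable def iotaT (w : (V' × ℝ) [⋀^Fin (q + 1)]→L[ℝ] ℂ) : V' [⋀^Fin q]→L[ℝ] ℂ :=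
  (ContinuousAlternatingMap.curryLeft w ((0 : V'), (1 : ℝ))).compContinuousLinearMap
    (ContinuousLinearMap.inl ℝ V' ℝ)

theorem iotaT_apply (w : (V' × ℝ) [⋀^Fin (q + 1)]→L[ℝ] ℂ) (v : Fin q → V') :
    iotaT w v = w (dtV v) := rfl

theorem contDiffAt_slice [FiniteDimensional ℝ V'] {W : V' × ℝ → (V' × ℝ) [⋀^Fin (q + 1)]→L[ℝ] ℂ}
    {y : V'} {t : ℝ} {m : WithTop ℕ∞} (hW : ContDiffAt ℝ m W (y, t)) :
    ContDiffAt ℝ m (fun y' : V' => iotaT (W (y', t))) y := by
  apply contDiffAt_alt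
  intro v
  have h1 : ContDiffAt ℝ m (fun p => W p (dtV v)) (y, t) := contDiffAt_alt_apply hW _
  have h2 : ContDiffAt ℝ m (fun y' : V' => ((y', t) : V' × ℝ)) y :=
    contDiffAt_id.prodMk contDiffAt_const
  exact h1.comp y h2

/-- Cartan's formula on `V' × ℝ`. -/
theorem cartan_vec [FiniteDimensional ℝ V'] {W : V' × ℝ → (V' × ℝ) [⋀^Fin (q + 1)]→L[ℝ] ℂ}
    {y : V'} {t : ℝ} (hW : ContDiffAt ℝ ∞ W (y, t)) (u : Fin (q + 1) → V') :
    HasDerivAt (fun t' : ℝ => W (y, t') (upV u))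
      (extDeriv W (y, t) (dtV u) + extDeriv (fun y' : V' => iotaT (W (y', t))) y u) t := by
  have hd : DifferentiableAt ℝ W (y, t) := hW.differentiableAt (by simp)
  have hap : ∀ X : Fin (q + 1) → V' × ℝ, DifferentiableAt ℝ (fun p => W p X) (y, t) :=
    fun X => (contDiffAt_alt_apply hW X).differentiableAt (by simp)
  have hd2 : DifferentiableAt ℝ (fun y' : V' => iotaT (W (y', t))) y :=
    (contDiffAt_slice hW).differentiableAt (by simp)
  have h1 : HasDerivAt (fun t' : ℝ => W (y, t') (upV u))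
      (fderiv ℝ (fun p => W p (upV u)) (y, t) ((0 : V'), (1 : ℝ))) t := by
    have h2 : HasDerivAt (fun t' : ℝ => ((y, t') : V' × ℝ)) ((0 : V'), (1 : ℝ)) t :=
      (hasDerivAt_const t y).prodMk (hasDerivAt_id t)
    exact (hap (upV u)).hasFDerivAt.comp_hasDerivAt t h2
  have h3 : ∀ k : Fin (q + 1), fderiv ℝ (fun y' : V' => iotaT (W (y', t)) (k.removeNth u)) y
      (u k) = fderiv ℝ (fun p => W p (dtV (k.removeNth u))) (y, t) ((u k, 0) : V' × ℝ) := by
    intro k
    have h4 : HasFDerivAt (fun y' : V' => ((y', t) : V' × ℝ))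
        (ContinuousLinearMap.inl ℝ V' ℝ) y := (hasFDerivAt_id y).prodMk (hasFDerivAt_const t y)
    have h5 := HasFDerivAt.comp y (hap (dtV (k.removeNth u))).hasFDerivAt h4
    have h6 : (fun y' : V' => iotaT (W (y', t)) (k.removeNth u)) =
      (fun p => W p (dtV (k.removeNth u))) ∘ (fun y' : V' => ((y', t) : V' × ℝ)) := rfl
    rw [h6, h5.fderiv]
    rfl
  have h7 : extDeriv W (y, t) (dtV u) + extDeriv (fun y' : V' => iotaT (W (y', t))) y u =
      fderiv ℝ (fun p => W p (upV u)) (y, t) ((0 : V'), (1 : ℝ)) := by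
    rw [extDeriv_apply hd, extDeriv_apply hd2, Fin.sum_univ_succ, removeNth_zero_dtV]
    have h8 : ∀ k : Fin (q + 1), (-1 : ℤ) ^ (k.succ : Fin (q + 2)).val •
        fderiv ℝ (fun p => W p (k.succ.removeNth (dtV u))) (y, t) (dtV u k.succ) +
        (-1 : ℤ) ^ k.val • fderiv ℝ (fun y' : V' => iotaT (W (y', t)) (k.removeNth u)) y
          (u k) = 0 := by
      intro k
      rw [h3 k, removeNth_succ_dtV, Fin.val_succ, pow_succ]
      have h9 : dtV u k.succ = ((u k, 0) : V' × ℝ) := rfl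
      rw [h9, mul_neg_one, neg_smul, neg_add_cancel]
    rw [add_assoc, ← Finset.sum_add_distrib, Finset.sum_congr rfl fun k _ => h8 k,
      Finset.sum_const_zero, add_zero, Fin.val_zero, pow_zero, one_smul]
    rfl
  rw [h7]
  exact h1

end cartan

variable {n k : ℕ}

/-- The homotopy `(x, t) ↦ x + t ε(x) u`. -/
noncomputable def Hm (ε : (Fin n → ℂ) → ℝ) (u : Fin n → ℂ) (q : (Fin n → ℂ) × ℝ) : Fin n → ℂ :=
  q.1 + (q.2 * ε q.1) • u

theorem contDiff_Hm {ε : (Fin n → ℂ) → ℝ} (hε : ContDiff ℝ ∞ ε) (u : Fin n → ℂ) :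
    ContDiff ℝ ∞ (Hm ε u) := by
  unfold Hm
  exact contDiff_fst.add ((contDiff_snd.mul (hε.comp contDiff_fst)).smul contDiff_const)

theorem fderiv_Hm {ε : (Fin n → ℂ) → ℝ} (hε : ContDiff ℝ ∞ ε) (u x v : Fin n → ℂ) (t τ : ℝ) :
    fderiv ℝ (Hm ε u) (x, t) (v, τ) = dPhi ε t u x v + (τ * ε x) • u := by
  have h1 : HasFDerivAt (fun q : (Fin n → ℂ) × ℝ => ε q.1)
      ((fderiv ℝ ε x).comp (ContinuousLinearMap.fst ℝ (Fin n → ℂ) ℝ)) (x, t) := by
    have h2 : HasFDerivAt ε (fderiv ℝ ε x) x :=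
      (hε.differentiable (by simp)).differentiableAt.hasFDerivAt
    exact HasFDerivAt.comp (x, t) h2 hasFDerivAt_fst
  have h3 : HasFDerivAt (fun q : (Fin n → ℂ) × ℝ => q.2 * ε q.1) _ (x, t) :=
    hasFDerivAt_snd.mul h1
  have h4 : HasFDerivAt (Hm ε u) _ (x, t) := hasFDerivAt_fst.add (h3.smul_const u)
  rw [h4.fderiv, bnd_dPhi_apply]
  simp only [add_apply, ContinuousLinearMap.smulRight_apply, smul_apply,
    ContinuousLinearMap.coe_fst', ContinuousLinearMap.coe_snd', ContinuousLinearMap.comp_apply,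
    smul_eq_mul]
  rw [add_smul, add_assoc, mul_comm (ε x) τ]

/-- The closed form on `Ω × ℝ`. -/
noncomputable def Wm (ε : (Fin n → ℂ) → ℝ) (u : Fin n → ℂ) (θ : Form n (k + 1))
    (q : (Fin n → ℂ) × ℝ) : ((Fin n → ℂ) × ℝ) [⋀^Fin (k + 1)]→L[ℝ] ℂ :=
  (θ (Hm ε u q)).compContinuousLinearMap (fderiv ℝ (Hm ε u) q)

theorem Wm_upV {ε : (Fin n → ℂ) → ℝ} (hε : ContDiff ℝ ∞ ε) (u x : Fin n → ℂ)
    (θ : Form n (k + 1)) (t : ℝ) (v : Fin (k + 1) → Fin n → ℂ) :
    Wm ε u θ (x, t) (upV v) = θ (x + (t * ε x) • u) (fun i => dPhi ε t u x (v i)) := by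
  rw [Wm, ContinuousAlternatingMap.compContinuousLinearMap_apply]
  congr 1
  funext i
  show fderiv ℝ (Hm ε u) (x, t) (v i, 0) = _
  rw [fderiv_Hm hε, zero_mul, zero_smul, add_zero]

theorem iotaT_Wm {ε : (Fin n → ℂ) → ℝ} (hε : ContDiff ℝ ∞ ε) (u x : Fin n → ℂ)
    (θ : Form n (k + 1)) (t : ℝ) :
    iotaT (Wm ε u θ (x, t)) =
      ε x • ContinuousAlternatingMap.curryLeft (θ (x + (t * ε x) • u)) u := by
  ext v
  rw [iotaT_apply, Wm, ContinuousAlternatingMap.compContinuousLinearMap_apply]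
  have h1 : (fderiv ℝ (Hm ε u) (x, t)) ∘ dtV v = Matrix.vecCons (ε x • u)
      (fun i => v i + (t * fderiv ℝ ε x (v i)) • u) := by
    funext i
    refine Fin.cases ?_ (fun j => ?_) i
    · show fderiv ℝ (Hm ε u) (x, t) (0, 1) = ε x • u
      rw [fderiv_Hm hε, map_zero, zero_add, one_mul]
    · show fderiv ℝ (Hm ε u) (x, t) (v j, 0) = v j + (t * fderiv ℝ ε x (v j)) • u
      rw [fderiv_Hm hε, zero_mul, zero_smul, add_zero, bnd_dPhi_apply]
  rw [h1]
  show θ (x + (t * ε x) • u) (Matrix.vecCons (ε x • u)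
    (fun i => v i + (t * fderiv ℝ ε x (v i)) • u)) =
    ε x • θ (x + (t * ε x) • u) (Matrix.vecCons u v)
  have h2 : Matrix.vecCons (ε x • u) (fun i => v i + (t * fderiv ℝ ε x (v i)) • u) =
      Function.update (Matrix.vecCons u fun i => v i + (t * fderiv ℝ ε x (v i)) • u) 0
        (ε x • u) := by
    funext i
    refine Fin.cases ?_ (fun j => ?_) i
    · simp
    · simp
  rw [h2, ContinuousAlternatingMap.map_update_smul]
  congr 1
  have h3 : Function.update (Matrix.vecCons u fun i => v i + (t * fderiv ℝ ε x (v i)) • u) 0 u =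
      Matrix.vecCons u fun i => v i + (t * fderiv ℝ ε x (v i)) • u := by
    funext i
    refine Fin.cases ?_ (fun j => ?_) i
    · simp
    · simp
  rw [h3]
  exact bnd_alt _ u v _

/-- The derivative of the pull back along the homotopy. -/
theorem hasDerivAt_pull {Ω : Set (Fin n → ℂ)} {ε : (Fin n → ℂ) → ℝ} {θ : Form n (k + 1)}
    (hΩ : IsOpen Ω) (hε : IsRad Ω ε) (hθ : ContDiffOn ℝ ∞ θ Ω)
    (hd : ∀ x ∈ Ω, extDeriv θ x = 0) {x u : Fin n → ℂ} (hx : x ∈ Ω) (hu : ‖u‖ ≤ 1) {t : ℝ}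
    (ht0 : 0 ≤ t) (ht1 : t ≤ 1) (v : Fin (k + 1) → Fin n → ℂ) :
    HasDerivAt (fun t' : ℝ => θ (x + (t' * ε x) • u) (fun i => dPhi ε t' u x (v i)))
      (extDeriv (fun y => ε y • ContinuousAlternatingMap.curryLeft
        (θ (y + (t * ε y) • u)) u) x v) t := by
  have hmem : Hm ε u (x, t) ∈ Ω := bnd_mapsTo hε ht0 ht1 hu hx
  have hθ' : ContDiffAt ℝ ∞ θ (Hm ε u (x, t)) := hθ.contDiffAt (hΩ.mem_nhds hmem)
  have hH : ContDiffAt ℝ ∞ (Hm ε u) (x, t) := (contDiff_Hm hε.smooth u).contDiffAt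
  have hW : ContDiffAt ℝ ∞ (Wm ε u θ) (x, t) := by
    have h1 : ContDiff ℝ ∞ (fderiv ℝ (Hm ε u)) :=
      (contDiff_Hm hε.smooth u).fderiv_right (by simp)
    exact contDiffAt_altComp (hθ'.comp (x, t) hH) h1.contDiffAt
  have h2 : extDeriv (Wm ε u θ) (x, t) = 0 := by
    have hθd : DifferentiableAt ℝ θ (Hm ε u (x, t)) := hθ'.differentiableAt (by simp)
    have hms : minSmoothness ℝ 2 ≤ (∞ : WithTop ℕ∞) := by
      rw [minSmoothness_of_isRCLikeNormedField]
      exact WithTop.coe_le_coe.2 (le_top : (2 : ℕ∞) ≤ ⊤)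
    have h3 := extDeriv_pullback hθd hH hms
    have h4 : extDeriv (Wm ε u θ) (x, t) =
      (extDeriv θ (Hm ε u (x, t))).compContinuousLinearMap (fderiv ℝ (Hm ε u) (x, t)) := h3
    rw [h4, hd _ hmem]
    rfl
  have h5 := cartan_vec hW v
  have h5z : (0 : ((Fin n → ℂ) × ℝ) [⋀^Fin (k + 1 + 1)]→L[ℝ] ℂ) (dtV v) = 0 := rfl
  rw [h2, h5z, zero_add] at h5
  have h6 : (fun y' : Fin n → ℂ => iotaT (Wm ε u θ (y', t))) =
      fun y => ε y • ContinuousAlternatingMap.curryLeft (θ (y + (t * ε y) • u)) u :=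
    funext fun y => iotaT_Wm hε.smooth u y θ t
  rw [h6] at h5
  have h7 : (fun t' : ℝ => Wm ε u θ (x, t') (upV v)) =
      fun t' : ℝ => θ (x + (t' * ε x) • u) (fun i => dPhi ε t' u x (v i)) :=
    funext fun t' => Wm_upV hε.smooth u x θ t' v
  rwa [h7] at h5

/-! ### The homotopy formula -/

/-- A cut-off in the time variable. -/
noncomputable def cutS : ContDiffBump (1 / 2 : ℝ) := ⟨1 / 2, 1, by norm_num, by norm_num⟩

theorem cutS_one {t : ℝ} (ht : t ∈ Icc (0 : ℝ) 1) : cutS t = 1 := by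
  apply cutS.one_of_mem_closedBall
  rw [Metric.mem_closedBall, Real.dist_eq, abs_le]
  show -(1 / 2 : ℝ) ≤ t - 1 / 2 ∧ t - 1 / 2 ≤ 1 / 2
  constructor <;> linarith [ht.1, ht.2]

theorem cutS_zero {t : ℝ} (ht : t ∉ Icc (-1 : ℝ) (3 / 2)) : cutS t = 0 := by
  apply cutS.zero_of_le_dist
  show (1 : ℝ) ≤ dist t (1 / 2)
  rw [Real.dist_eq]
  by_contra hcon
  rw [not_le, abs_lt] at hcon
  exact ht ⟨by linarith [hcon.1], by linarith [hcon.2]⟩

/-- The integrand of `A`, cut off. -/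
noncomputable def gA (m ε : (Fin n → ℂ) → ℝ) (θ : Form n (k + 1)) (x : Fin n → ℂ)
    (p : (Fin n → ℂ) × ℝ) : (Fin n → ℂ) [⋀^Fin k]→L[ℝ] ℂ :=
  (m p.1 * cutS p.2 * ε x) • ContinuousAlternatingMap.curryLeft (θ (x + (p.2 * ε x) • p.1)) p.1

theorem gA_zero {m : (Fin n → ℂ) → ℝ} (hm : IsMol m) (ε : (Fin n → ℂ) → ℝ)
    (θ : Form n (k + 1)) (x : Fin n → ℂ) {p : (Fin n → ℂ) × ℝ}
    (hp : p ∉ Metric.closedBall (0 : Fin n → ℂ) 1 ×ˢ Icc (-1 : ℝ) (3 / 2)) :
    gA m ε θ x p = 0 := by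
  by_cases h1 : ‖p.1‖ ≤ 1
  · have h2 : p.2 ∉ Icc (-1 : ℝ) (3 / 2) := fun h => hp ⟨by simpa using h1, h⟩
    rw [gA, cutS_zero h2, mul_zero, zero_mul, zero_smul]
  · rw [gA, hm.supp p.1 (not_le.1 h1).le, zero_mul, zero_mul, zero_smul]

theorem contDiffOn_gA {Ω : Set (Fin n → ℂ)} {m ε : (Fin n → ℂ) → ℝ} {θ : Form n (k + 1)}
    (hΩ : IsOpen Ω) (hm : IsMol m) (hε : IsRad Ω ε) (hθ : ContDiffOn ℝ ∞ θ Ω) :
    ContDiffOn ℝ ∞ (Function.uncurry (gA m ε θ)) (Ω ×ˢ univ) := by
  rintro ⟨x, u, t⟩ ⟨hx, -⟩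
  apply ContDiffAt.contDiffWithinAt
  by_cases hp : (u, t) ∈ Metric.closedBall (0 : Fin n → ℂ) 1 ×ˢ Icc (-1 : ℝ) (3 / 2)
  · have hu : ‖u‖ ≤ 1 := by simpa using hp.1
    have ht : |t| ≤ 3 / 2 := abs_le.2 ⟨by linarith [hp.2.1], hp.2.2⟩
    have hmem : x + (t * ε x) • u ∈ Ω := by
      apply hε.ball x hx
      have h0 := hε.pos x hx
      rw [Metric.mem_ball, dist_eq_norm, add_sub_cancel_left, norm_smul, Real.norm_eq_abs,
        abs_mul, abs_of_pos h0]
      calc |t| * ε x * ‖u‖ ≤ 3 / 2 * ε x * 1 := by gcongr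
        _ < 2 * ε x := by linarith
    have e1 : ContDiffAt ℝ ∞ (fun q : (Fin n → ℂ) × ((Fin n → ℂ) × ℝ) => q.1) (x, u, t) :=
      contDiffAt_fst
    have e2 : ContDiffAt ℝ ∞ (fun q : (Fin n → ℂ) × ((Fin n → ℂ) × ℝ) => q.2.1) (x, u, t) :=
      contDiffAt_fst.comp _ contDiffAt_snd
    have e3 : ContDiffAt ℝ ∞ (fun q : (Fin n → ℂ) × ((Fin n → ℂ) × ℝ) => q.2.2) (x, u, t) :=
      contDiffAt_snd.comp _ contDiffAt_snd
    have e4 : ContDiffAt ℝ ∞ (fun q : (Fin n → ℂ) × ((Fin n → ℂ) × ℝ) => ε q.1) (x, u, t) :=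
      hε.smooth.contDiffAt.comp _ e1
    have e5 : ContDiffAt ℝ ∞ (fun q : (Fin n → ℂ) × ((Fin n → ℂ) × ℝ) => m q.2.1) (x, u, t) :=
      hm.smooth.contDiffAt.comp _ e2
    have e6 : ContDiffAt ℝ ∞ (fun q : (Fin n → ℂ) × ((Fin n → ℂ) × ℝ) => cutS q.2.2)
        (x, u, t) := cutS.contDiff.contDiffAt.comp _ e3
    have e7 : ContDiffAt ℝ ∞ (fun q : (Fin n → ℂ) × ((Fin n → ℂ) × ℝ) =>
        q.1 + (q.2.2 * ε q.1) • q.2.1) (x, u, t) := e1.add ((e3.mul e4).smul e2)
    have hθ' : ContDiffAt ℝ ∞ θ (x + (t * ε x) • u) := hθ.contDiffAt (hΩ.mem_nhds hmem)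
    have e8 : ContDiffAt ℝ ∞ (fun q : (Fin n → ℂ) × ((Fin n → ℂ) × ℝ) =>
        θ (q.1 + (q.2.2 * ε q.1) • q.2.1)) (x, u, t) := hθ'.comp (x, u, t) e7
    apply contDiffAt_alt
    intro v
    have e9 : ContDiffAt ℝ ∞ (fun q : (Fin n → ℂ) × ((Fin n → ℂ) × ℝ) =>
        θ (q.1 + (q.2.2 * ε q.1) • q.2.1) (Matrix.vecCons q.2.1 v)) (x, u, t) := by
      refine contDiffAt_alt_apply' e8 fun i => ?_
      refine Fin.cases ?_ (fun j => ?_) i
      · simpa using e2
      · simpa using contDiffAt_const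
    exact ((e5.mul e6).mul e4).smul e9
  · have h1 : IsClosed (Metric.closedBall (0 : Fin n → ℂ) 1 ×ˢ Icc (-1 : ℝ) (3 / 2)) :=
      Metric.isClosed_closedBall.prod isClosed_Icc
    have h2' : (Metric.closedBall (0 : Fin n → ℂ) 1 ×ˢ Icc (-1 : ℝ) (3 / 2))ᶜ ∈ 𝓝 (u, t) :=
      h1.isOpen_compl.mem_nhds hp
    have h2c : ContinuousAt (Prod.snd : (Fin n → ℂ) × ((Fin n → ℂ) × ℝ) → (Fin n → ℂ) × ℝ)
        (x, u, t) := continuousAt_snd
    have h2 : ∀ᶠ q : (Fin n → ℂ) × ((Fin n → ℂ) × ℝ) in 𝓝 (x, u, t),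
        q.2 ∉ Metric.closedBall (0 : Fin n → ℂ) 1 ×ˢ Icc (-1 : ℝ) (3 / 2) :=
      h2c.preimage_mem_nhds h2'
    have h3 : (Function.uncurry (gA m ε θ)) =ᶠ[𝓝 (x, u, t)] fun _ => 0 := by
      filter_upwards [h2] with q hq
      exact gA_zero hm ε θ q.1 hq
    exact contDiffAt_const.congr_of_eventuallyEq h3

theorem Ag_eq {m ε : (Fin n → ℂ) → ℝ} (θ : Form n (k + 1)) :
    Ag m ε θ = fun x => ∫ p in univ ×ˢ Icc (0 : ℝ) 1, gA m ε θ x p := by
  funext x
  unfold Ag
  refine setIntegral_congr_fun (MeasurableSet.univ.prod measurableSet_Icc) fun p hp => ?_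
  show (m p.1 * ε x) • _ = (m p.1 * cutS p.2 * ε x) • _
  rw [cutS_one hp.2, mul_one]

/-- HOM. -/
theorem homo : S_HOMO := by
  intro n k Ω m ε θ hΩ hm hε hθ hd
  have hS : MeasurableSet ((univ : Set (Fin n → ℂ)) ×ˢ Icc (0 : ℝ) 1) :=
    MeasurableSet.univ.prod measurableSet_Icc
  have hK : IsCompact (Metric.closedBall (0 : Fin n → ℂ) 1 ×ˢ Icc (-1 : ℝ) (3 / 2)) :=
    (isCompact_closedBall _ _).prod isCompact_Icc
  obtain ⟨h1, h2⟩ := extDeriv_par (μ := (volume : Measure ((Fin n → ℂ) × ℝ))) hS hΩ hK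
    (fun x _ p hp => gA_zero hm ε θ x hp) (contDiffOn_gA hΩ hm hε hθ)
  rw [Ag_eq]
  refine ⟨h1, fun x hx => ?_⟩
  obtain ⟨h3, h4⟩ := h2 x hx
  ext v
  obtain ⟨h5, h6, h7⟩ := h4 v
  rw [h7]
  have hint : Integrable (fun p => extDeriv (fun y => gA m ε θ y p) x v)
      (volume : Measure ((Fin n → ℂ) × ℝ)) :=
    h5.integrable_of_hasCompactSupport (HasCompactSupport.intro hK h6)
  have hvol : (volume : Measure ((Fin n → ℂ) × ℝ)) =
      (volume : Measure (Fin n → ℂ)).prod (volume : Measure ℝ) := rfl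
  have h8 : ∫ p in (univ : Set (Fin n → ℂ)) ×ˢ Icc (0 : ℝ) 1,
      extDeriv (fun y => gA m ε θ y p) x v =
      ∫ u : Fin n → ℂ, ∫ t in Icc (0 : ℝ) 1, extDeriv (fun y => gA m ε θ y (u, t)) x v := by
    rw [hvol, setIntegral_prod _ (by rw [← hvol]; exact hint.integrableOn), Measure.restrict_univ]
  rw [h8]
  -- the inner integral
  have h9 : ∀ u : Fin n → ℂ, ∫ t in Icc (0 : ℝ) 1, extDeriv (fun y => gA m ε θ y (u, t)) x v =
      m u • (θ (x + ε x • u) (fun i => dPhi ε 1 u x (v i)) - θ x v) := by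
    intro u
    by_cases hu : ‖u‖ ≤ 1
    · have h10 : ∀ t ∈ uIcc (0 : ℝ) 1, HasDerivAt (fun t' : ℝ => m u •
          θ (x + (t' * ε x) • u) (fun i => dPhi ε t' u x (v i)))
          (extDeriv (fun y => gA m ε θ y (u, t)) x v) t := by
        intro t ht
        rw [uIcc_of_le zero_le_one] at ht
        have h11 := (hasDerivAt_pull hΩ hε hθ hd hx hu ht.1 ht.2 v).const_smul (m u)
        have h12 : (fun y => gA m ε θ y (u, t)) = (m u • (fun y => ε y •
            ContinuousAlternatingMap.curryLeft (θ (y + (t * ε y) • u)) u : Form n k) :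
              Form n k) := by
          funext y
          show gA m ε θ y (u, t) = m u • (ε y •
            ContinuousAlternatingMap.curryLeft (θ (y + (t * ε y) • u)) u)
          rw [gA, smul_smul]
          show (m u * cutS t * ε y) • ContinuousAlternatingMap.curryLeft
            (θ (y + (t * ε y) • u)) u = _
          rw [cutS_one ht, mul_one]
        rw [h12, extDeriv_smul]
        exact h11
      have h13 : Continuous fun t : ℝ => extDeriv (fun y => gA m ε θ y (u, t)) x v :=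
        h5.comp (continuous_const.prodMk continuous_id)
      rw [integral_Icc_eq_integral_Ioc, ← intervalIntegral.integral_of_le zero_le_one,
        intervalIntegral.integral_eq_sub_of_hasDerivAt h10 (h13.intervalIntegrable 0 1),
        ← smul_sub]
      congr 2
      · rw [one_mul]
      · have h14 : ∀ i, dPhi ε 0 u x (v i) = v i := by
          intro i
          rw [bnd_dPhi_apply, zero_mul, zero_smul, add_zero]
        simp only [h14, zero_mul, zero_smul, add_zero]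
    · have h10 : m u = 0 := hm.supp u (not_le.1 hu).le
      rw [h10, zero_smul]
      have h11 : ∀ t : ℝ, extDeriv (fun y => gA m ε θ y (u, t)) x v = 0 := by
        intro t
        apply h6
        intro h
        exact hu (by simpa using h.1)
      simp [h11]
  simp only [h9]
  -- the outer integral
  have hcont : Continuous fun u : Fin n → ℂ =>
      m u • (θ (x + ε x • u)).compContinuousLinearMap (dPhi ε 1 u x) := by
    rw [continuous_iff_continuousAt]
    intro u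
    by_cases hu : ‖u‖ ≤ 1
    · have hmem : x + ε x • u ∈ Ω := by
        have := bnd_mapsTo hε zero_le_one le_rfl hu hx
        rwa [one_mul] at this
      have h10 : ContDiffAt ℝ ∞ (fun u : Fin n → ℂ => θ (x + ε x • u)) u :=
        ContDiffAt.comp u (hθ.contDiffAt (hΩ.mem_nhds hmem))
          (contDiffAt_const.add (contDiffAt_id.const_smul (ε x)))
      have h11 : ContDiffAt ℝ ∞ (fun u : Fin n → ℂ => dPhi ε 1 u x) u :=
        contDiff_dPhi hε.smooth 1 contDiffAt_id contDiffAt_const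
      exact (hm.smooth.contDiffAt.smul (contDiffAt_altComp h10 h11)).continuousAt
    · have h10 : ∀ᶠ u' : Fin n → ℂ in 𝓝 u, 1 < ‖u'‖ :=
        continuous_norm.continuousAt.eventually (lt_mem_nhds (not_le.1 hu))
      have h11 : (fun u : Fin n → ℂ => m u • (θ (x + ε x • u)).compContinuousLinearMap
          (dPhi ε 1 u x)) =ᶠ[𝓝 u] fun _ => 0 := by
        filter_upwards [h10] with u' hu'
        rw [hm.supp u' hu'.le]
        exact ContinuousAlternatingMap.ext fun v => zero_smul ℝ _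
      exact continuousAt_const.congr h11.symm
  have hI1 : Integrable fun u : Fin n → ℂ =>
      m u • (θ (x + ε x • u)).compContinuousLinearMap (dPhi ε 1 u x) := by
    refine hcont.integrable_of_hasCompactSupport
      (HasCompactSupport.intro (isCompact_closedBall (0 : Fin n → ℂ) 1) fun u hu => ?_)
    rw [hm.supp u (by rw [mem_closedBall_zero_iff, not_le] at hu; exact hu.le)]
    exact ContinuousAlternatingMap.ext fun v => zero_smul ℝ _
  have hI2 : Integrable m := hm.smooth.continuous.integrable_of_hasCompactSupport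
    (HasCompactSupport.intro (isCompact_closedBall (0 : Fin n → ℂ) 1) fun u hu =>
      hm.supp u (by rw [mem_closedBall_zero_iff, not_le] at hu; exact hu.le))
  have h10 : Rg m ε θ x v =
      ∫ u, m u • θ (x + ε x • u) (fun i => dPhi ε 1 u x (v i)) := by
    have h11 := (ContinuousAlternatingMap.apply ℝ (Fin n → ℂ) ℂ v).integral_comp_comm hI1
    exact h11.symm
  have hI3 : Integrable fun u : Fin n → ℂ =>
      m u • θ (x + ε x • u) (fun i => dPhi ε 1 u x (v i)) :=
    (ContinuousAlternatingMap.apply ℝ (Fin n → ℂ) ℂ v).integrable_comp hI1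
  show _ = Rg m ε θ x v - θ x v
  rw [h10]
  simp only [smul_sub]
  rw [integral_sub hI3 (hI2.smul_const (θ x v)), integral_smul_const, hm.int, one_smul]

end L2P
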