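import Pool.Agent.Work.MP_ead3fc_ag.S.Tasks

/-!
# MP_ead3fc_ag, smooth stage: the classical exterior derivative is a weak exterior derivative
-/

set_option autoImplicit false

open MeasureTheory Set Filter Topology Function
open scoped ENNReal ContDiff

namespace L2P

/-- The integral of the derivative of a `C¹` function with compact support vanishes. -/
theorem swa_integral_fderiv {E F : Type*} [NormedAddCommGroup E] [NormedSpace ℝ E]
    [FiniteDimensional ℝ E] [MeasurableSpace E] [BorelSpace E] (μ : Measure E)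
    [μ.IsAddHaarMeasure] [NormedAddCommGroup F] [NormedSpace ℝ F] [CompleteSpace F] {g : E → F}
    (hg : ContDiff ℝ 1 g) (hc : HasCompactSupport g) : ∫ x, fderiv ℝ g x ∂μ = 0 := by
  have hcont : Continuous (fderiv ℝ g) := hg.continuous_fderiv one_ne_zero
  have hint : Integrable (fderiv ℝ g) μ :=
    hcont.integrable_of_hasCompactSupport (hc.fderiv ℝ)
  have hint' : Integrable g μ := hg.continuous.integrable_of_hasCompactSupport hc
  ext v
  rw [ContinuousLinearMap.integral_apply hint, ContinuousLinearMap.zero_apply]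
  have h := integral_smul_fderiv_eq_neg_fderiv_smul_of_integrable (μ := μ) (𝕜 := ℝ)
    (f := fun _ : E => (1 : ℝ)) (g := g) (v := v) (by simp)
    (by simpa using hint.apply_continuousLinearMap v) (by simpa using hint')
    (fun x _ => differentiableAt_const _) (fun x _ => (hg.differentiable one_ne_zero) x)
  simpa using h

/-- Integration by parts, for a general first order operator `η ↦ A (D η)` with constant
coefficients. -/
theorem swa_general {E F G : Type*} [NormedAddCommGroup E] [NormedSpace ℝ E]
    [FiniteDimensional ℝ E] [MeasurableSpace E] [BorelSpace E] (μ : Measure E)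
    [μ.IsAddHaarMeasure] [NormedAddCommGroup F] [NormedSpace ℝ F] [CompleteSpace F]
    [NormedAddCommGroup G] [NormedSpace ℝ G] [CompleteSpace G]
    (A : (E →L[ℝ] F) →L[ℝ] G) {Ω : Set E} (hΩ : IsOpen Ω) (η : E → F) (θ : E → G)
    (hη : ContDiffOn ℝ ∞ η Ω) (hd : ∀ x ∈ Ω, A (fderiv ℝ η x) = θ x) (φ : E → ℝ)
    (hφ : IsTest Ω φ) :
    ∫ x, (φ x • θ x + A ((fderiv ℝ φ x).smulRight (η x))) ∂μ = 0 := by
  have hψc : HasCompactSupport fun x => φ x • η x := hφ.cpt.smul_right
  have hψ : ContDiff ℝ ∞ fun x => φ x • η x := by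
    rw [contDiff_iff_contDiffAt]
    intro x
    by_cases hx : x ∈ tsupport φ
    · exact hφ.smooth.contDiffAt.smul (hη.contDiffAt (hΩ.mem_nhds (hφ.sub hx)))
    · have h1 : (fun x => φ x • η x) =ᶠ[𝓝 x] fun _ => 0 := by
        filter_upwards [(isClosed_tsupport φ).isOpen_compl.mem_nhds hx] with y hy
        simp [image_eq_zero_of_notMem_tsupport hy]
      exact contDiffAt_const.congr_of_eventuallyEq h1
  have hkey : ∀ x, φ x • θ x + A ((fderiv ℝ φ x).smulRight (η x)) =
      A (fderiv ℝ (fun y => φ y • η y) x) := by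
    intro x
    by_cases hx : x ∈ tsupport φ
    · have hxΩ := hφ.sub hx
      have h1 : DifferentiableAt ℝ η x :=
        (hη.contDiffAt (hΩ.mem_nhds hxΩ)).differentiableAt (by simp)
      have h0 : DifferentiableAt ℝ φ x := hφ.smooth.differentiable (by simp) x
      have h2 : fderiv ℝ (fun y => φ y • η y) x =
          φ x • fderiv ℝ η x + (fderiv ℝ φ x).smulRight (η x) := fderiv_fun_smul h0 h1
      rw [← hd x hxΩ, h2, map_add, map_smul]
    · have h1 : φ x = 0 := image_eq_zero_of_notMem_tsupport hx
      have h2 : fderiv ℝ φ x = 0 := fderiv_of_notMem_tsupport (𝕜 := ℝ) hx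
      have h3 : fderiv ℝ (fun y => φ y • η y) x = 0 :=
        fderiv_of_notMem_tsupport (𝕜 := ℝ)
          (fun h => hx (closure_mono (support_smul_subset_left _ _) h))
      have h4 : (0 : E →L[ℝ] ℝ).smulRight (η x) = 0 := by
        ext v
        simp
      rw [h1, h2, h3, zero_smul, zero_add, h4]
  have hint : Integrable (fderiv ℝ fun x => φ x • η x) μ :=
    (hψ.continuous_fderiv (by simp)).integrable_of_hasCompactSupport (hψc.fderiv ℝ)
  have h5 := integral_congr_ae (μ := μ) (Eventually.of_forall hkey)
  rw [h5, ContinuousLinearMap.integral_comp_comm _ hint,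
    swa_integral_fderiv μ (hψ.of_le (mod_cast le_top)) hψc, map_zero]

/-- SW (a). -/
theorem swa : S_SWa := by
  intro n k Ω η θ hΩ hη hd φ hφ
  exact swa_general volume (ContinuousAlternatingMap.alternatizeUncurryFinCLM ℝ (Fin n → ℂ) ℂ)
    hΩ η θ hη hd φ hφ

end L2P
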