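import Pool.Agent.Work.MP_ead3fc_ag.S.Tasks

/-!
# MP_ead3fc_ag, smooth stage: weak derivatives of smooth forms are classical derivatives
-/

set_option autoImplicit false

open MeasureTheory Set Filter Topology
open scoped ENNReal ContDiff

namespace L2P

section

variable {V W : Type*} [NormedAddCommGroup V] [NormedSpace ℝ V] [FiniteDimensional ℝ V]
  [MeasurableSpace V] [BorelSpace V] [NormedAddCommGroup W] [NormedSpace ℝ W]
  {μ : Measure V} [μ.IsAddHaarMeasure]

/-! ### The module SWb -/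

/-- The integral of a directional derivative of a `C^1` function with compact support. -/
lemma swb_integral_fderiv_apply {G : V → W} (hG : ContDiff ℝ 1 G) (hc : HasCompactSupport G)
    (v : V) : ∫ y, fderiv ℝ G y v ∂μ = 0 := by
  have hd : Continuous fun y => fderiv ℝ G y v := (hG.continuous_fderiv (by norm_num)).clm_apply
    continuous_const
  have hdc : HasCompactSupport fun y => fderiv ℝ G y v := hc.fderiv_apply ℝ v
  have h := integral_bilinear_hasFDerivAt_right_eq_neg_left_of_integrable (μ := μ) (f := G)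
    (f' := fderiv ℝ G) (g := fun _ : V => (1 : ℝ)) (g' := fun _ => 0) (v := v)
    (B := (ContinuousLinearMap.lsmul ℝ ℝ (E := W)).flip)
    (by simpa using hd.integrable_of_hasCompactSupport hdc) (by simp)
    (by simpa using hG.continuous.integrable_of_hasCompactSupport hc)
    (fun x _ => (hG.differentiable (by norm_num) x).hasFDerivAt)
    (fun x _ => hasFDerivAt_const _ _)
  have h2 : (0 : W) = -∫ y, fderiv ℝ G y v ∂μ := by simpa using h
  rw [← neg_neg (∫ y, fderiv ℝ G y v ∂μ), ← h2, neg_zero]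

lemma swb_integral_fderiv {G : V → W} (hG : ContDiff ℝ 1 G) (hc : HasCompactSupport G) :
    ∫ y, fderiv ℝ G y ∂μ = 0 := by
  ext v
  have hint : Integrable (fderiv ℝ G) μ :=
    (hG.continuous_fderiv (by norm_num)).integrable_of_hasCompactSupport (hc.fderiv ℝ)
  rw [ContinuousLinearMap.integral_apply hint v, swb_integral_fderiv_apply hG hc v]
  rfl

/-- A function continuous on an open set, times a function with support inside. -/
lemma swb_continuous {Ω : Set V} (hΩ : IsOpen Ω) {φ : V → ℝ} (hφ : Continuous φ)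
    (hs : tsupport φ ⊆ Ω) {g : V → W} (hg : ContinuousOn g Ω) : Continuous fun x => φ x • g x := by
  refine continuous_iff_continuousAt.2 fun x => ?_
  by_cases hx : x ∈ Ω
  · exact hφ.continuousAt.smul (hg.continuousAt (hΩ.mem_nhds hx))
  · have h1 : (fun x => φ x • g x) =ᶠ[𝓝 x] fun _ => 0 := by
      have h2 : ∀ᶠ y in 𝓝 x, y ∉ tsupport φ :=
        (isClosed_tsupport φ).isOpen_compl.mem_nhds fun h => hx (hs h)
      filter_upwards [h2] with y hy
      rw [image_eq_zero_of_notMem_tsupport hy, zero_smul]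
    exact (continuousAt_const.congr h1.symm)

lemma swb_contDiff {Ω : Set V} (hΩ : IsOpen Ω) {φ : V → ℝ}
    {r : ℕ∞} (hφ : ContDiff ℝ r φ)
    (hs : tsupport φ ⊆ Ω) {g : V → W} (hg : ContDiffOn ℝ r g Ω) :
    ContDiff ℝ r fun x => φ x • g x := by
  refine contDiff_iff_contDiffAt.2 fun x => ?_
  by_cases hx : x ∈ Ω
  · exact hφ.contDiffAt.smul (hg.contDiffAt (hΩ.mem_nhds hx))
  · have h1 : (fun x => φ x • g x) =ᶠ[𝓝 x] fun _ => 0 := by
      have h2 : ∀ᶠ y in 𝓝 x, y ∉ tsupport φ :=
        (isClosed_tsupport φ).isOpen_compl.mem_nhds fun h => hx (hs h)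
      filter_upwards [h2] with y hy
      rw [image_eq_zero_of_notMem_tsupport hy, zero_smul]
    exact contDiffAt_const.congr_of_eventuallyEq h1

lemma swb_cpt {φ : V → ℝ} (hc : HasCompactSupport φ) (g : V → W) :
    HasCompactSupport fun x => φ x • g x := hc.smul_right

lemma swb_fderiv {Ω : Set V} (hΩ : IsOpen Ω) {φ : V → ℝ} (hφ : ContDiff ℝ 1 φ)
    (hs : tsupport φ ⊆ Ω) {g : V → W} (hg : ContDiffOn ℝ 1 g Ω) (x : V) :
    fderiv ℝ (fun y => φ y • g y) x = φ x • fderiv ℝ g x + (fderiv ℝ φ x).smulRight (g x) := by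
  by_cases hx : x ∈ Ω
  · have h2 : DifferentiableAt ℝ φ x := hφ.differentiable (by simp) x
    have h3 : DifferentiableAt ℝ g x := (hg.contDiffAt (hΩ.mem_nhds hx)).differentiableAt (by simp)
    exact (h2.hasFDerivAt.smul h3.hasFDerivAt).fderiv
  · have hx' : x ∉ tsupport φ := fun h => hx (hs h)
    have h2 : ∀ᶠ y in 𝓝 x, y ∉ tsupport φ := (isClosed_tsupport φ).isOpen_compl.mem_nhds hx'
    have h1 : (fun x => φ x • g x) =ᶠ[𝓝 x] fun _ => 0 := by
      filter_upwards [h2] with y hy
      rw [image_eq_zero_of_notMem_tsupport hy, zero_smul]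
    have h3 : φ =ᶠ[𝓝 x] fun _ => 0 := by
      filter_upwards [h2] with y hy
      rw [image_eq_zero_of_notMem_tsupport hy]
    rw [h1.fderiv_eq, h3.fderiv_eq, image_eq_zero_of_notMem_tsupport hx', zero_smul, zero_add,
      fderiv_fun_const, fderiv_fun_const]
    ext v
    simp

/-- Classical derivatives are weak derivatives. -/
lemma swa_main {U : Type*} [NormedAddCommGroup U] [NormedSpace ℝ U] [CompleteSpace U]
    [CompleteSpace W] (A : (V →L[ℝ] W) →L[ℝ] U) {Ω : Set V} (hΩ : IsOpen Ω) {η : V → W} {θ : V → U}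
    (hη : ContDiffOn ℝ 1 η Ω) (hθ : ∀ x ∈ Ω, A (fderiv ℝ η x) = θ x) (φ : V → ℝ)
    (hφ : IsTest Ω φ) : ∫ x, (φ x • θ x + A ((fderiv ℝ φ x).smulRight (η x))) ∂μ = 0 := by
  have hφ1 : ContDiff ℝ 1 φ := hφ.smooth.of_le (by exact_mod_cast le_top)
  have hs : ContDiff ℝ 1 fun y => φ y • η y := swb_contDiff (r := 1) hΩ hφ1 hφ.sub hη
  have hc := swb_cpt hφ.cpt η
  have hint : Integrable (fderiv ℝ fun y => φ y • η y) μ :=
    (hs.continuous_fderiv (by norm_num)).integrable_of_hasCompactSupport (hc.fderiv ℝ)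
  have h1 : ∫ x, A (fderiv ℝ (fun y => φ y • η y) x) ∂μ = 0 := by
    rw [A.integral_comp_comm hint, swb_integral_fderiv hs hc, map_zero]
  rw [← h1]
  congr 1
  funext x
  rw [swb_fderiv hΩ hφ1 hφ.sub hη x, map_add, map_smul]
  by_cases hx : x ∈ Ω
  · rw [hθ x hx]
  · rw [image_eq_zero_of_notMem_tsupport fun h => hx (hφ.sub h), zero_smul, zero_smul]

/-- The fundamental lemma, in the form needed. `A` is a continuous linear map of the derivative. -/
lemma swb_main {U : Type*} [NormedAddCommGroup U] [NormedSpace ℝ U] [CompleteSpace U]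
    [CompleteSpace W] (A : (V →L[ℝ] W) →L[ℝ] U) {Ω : Set V} (hΩ : IsOpen Ω) {η : V → W} {θ : V → U}
    (hη : ContDiffOn ℝ 1 η Ω) (hθ : ContinuousOn θ Ω)
    (hW : ∀ φ : V → ℝ, IsTest Ω φ → ∫ x, (φ x • θ x + A ((fderiv ℝ φ x).smulRight (η x))) ∂μ = 0) :
    ∀ x ∈ Ω, A (fderiv ℝ η x) = θ x := by
  have hdη : ContinuousOn (fun x => A (fderiv ℝ η x)) Ω :=
    A.continuous.comp_continuousOn (hη.continuousOn_fderiv_of_isOpen hΩ le_rfl)
  have hg : ContinuousOn (fun x => θ x - A (fderiv ℝ η x)) Ω := hθ.sub hdη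
  have key : ∀ φ : V → ℝ, IsTest Ω φ → ∫ x, φ x • (θ x - A (fderiv ℝ η x)) ∂μ = 0 := by
    intro φ hφ
    have hφ1 : ContDiff ℝ 1 φ := hφ.smooth.of_le (by exact_mod_cast le_top)
    have hs : ContDiff ℝ 1 fun y => φ y • η y := swb_contDiff (r := 1) hΩ hφ1 hφ.sub hη
    have hc := swb_cpt hφ.cpt η
    have hint : Integrable (fderiv ℝ fun y => φ y • η y) μ :=
      (hs.continuous_fderiv (by norm_num)).integrable_of_hasCompactSupport (hc.fderiv ℝ)
    have h1 : ∫ x, A (fderiv ℝ (fun y => φ y • η y) x) ∂μ = 0 := by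
      rw [A.integral_comp_comm hint, swb_integral_fderiv hs hc, map_zero]
    have h2 : Integrable (fun x => A (fderiv ℝ (fun y => φ y • η y) x)) μ := A.integrable_comp hint
    have h3 : Integrable (fun x => φ x • (θ x - A (fderiv ℝ η x))) μ :=
      (swb_continuous hΩ hφ.smooth.continuous hφ.sub hg).integrable_of_hasCompactSupport
        (swb_cpt hφ.cpt _)
    have h4 := hW φ hφ
    have h5 : (fun x => φ x • θ x + A ((fderiv ℝ φ x).smulRight (η x))) =
        fun x => φ x • (θ x - A (fderiv ℝ η x)) + A (fderiv ℝ (fun y => φ y • η y) x) := by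
      funext x
      rw [swb_fderiv hΩ hφ1 hφ.sub hη x, smul_sub, map_add, map_smul]
      abel
    rw [h5, integral_add h3 h2, h1, add_zero] at h4
    exact h4
  have hloc : LocallyIntegrableOn (fun x => θ x - A (fderiv ℝ η x)) Ω μ :=
    hg.locallyIntegrableOn hΩ.measurableSet
  have hae := hΩ.ae_eq_zero_of_integral_contDiff_smul_eq_zero hloc
    fun g h1 h2 h3 => key g ⟨h1, h2, h3⟩
  have h6 : (fun x => θ x - A (fderiv ℝ η x)) =ᵐ[μ.restrict Ω] fun _ => 0 :=
    (ae_restrict_iff' hΩ.measurableSet).2 hae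
  have h7 := Measure.eqOn_open_of_ae_eq h6 hΩ hg continuousOn_const
  intro x hx
  exact (sub_eq_zero.1 (h7 hx)).symm

end

/-- SW (b): weak derivatives of smooth forms are classical derivatives. -/
theorem swb : S_SWb := by
  intro n k Ω η θ hΩ hη hθ hW
  have hη1 : ContDiffOn ℝ 1 η Ω := hη.of_le (by exact_mod_cast le_top)
  exact swb_main (μ := volume)
    (ContinuousAlternatingMap.alternatizeUncurryFinCLM ℝ (Fin n → ℂ) ℂ (n := k)) hΩ hη1 hθ hW

end L2P
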