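import Pool.Agent.Work.MP_ead3fc_ag.S.Ker
import Pool.Agent.Work.MP_ead3fc_ag.S.SWb
import Pool.Agent.Work.MP_ead3fc_ag.S.Homo
import Pool.Agent.Work.MP_ead3fc_ag.S.CommA
import Pool.Agent.Work.MP_ead3fc_ag.S.SWa

/-!
# MP_ead3fc_ag, smooth stage: the regularisation commutes with the exterior derivative

Proof of `S_COMM`.
-/

set_option autoImplicit false

open MeasureTheory Set Filter Topology
open scoped ENNReal ContDiff

namespace L2P

/-! ### Differentiation of integrals with an operator valued kernel -/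

/-- Uniform bound of the derivatives. -/
theorem exists_bound_par {X P W : Type*} [NormedAddCommGroup X] [NormedSpace ℝ X]
    [FiniteDimensional ℝ X] [NormedAddCommGroup P] [NormedSpace ℝ P]
    [NormedAddCommGroup W] [NormedSpace ℝ W]
    {g : X → P → W} {s : Set X} {K : Set P} (hs : IsOpen s) (hK : IsCompact K)
    (hg : ContDiffOn ℝ ∞ (Function.uncurry g) (s ×ˢ univ)) {x : X} (hx : x ∈ s) :
    ∃ r > 0, Metric.closedBall x r ⊆ s ∧
      (∃ M, ∀ y ∈ Metric.closedBall x r, ∀ p ∈ K, ‖fderiv ℝ (fun z => g z p) y‖ ≤ M) ∧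
      (∃ M, ∀ p ∈ K, ‖g x p‖ ≤ M) ∧
      ∀ y ∈ s, Continuous (g y) ∧ ∀ p, HasFDerivAt (fun z => g z p)
        (fderiv ℝ (fun z => g z p) y) y := by
  have hso : IsOpen (s ×ˢ (univ : Set P)) := hs.prod isOpen_univ
  have h1 : ContinuousOn (fderiv ℝ (Function.uncurry g)) (s ×ˢ univ) :=
    hg.continuousOn_fderiv_of_isOpen hso (by simp)
  have h2 : ∀ y ∈ s, ∀ p, HasFDerivAt (fun z => g z p)
      ((fderiv ℝ (Function.uncurry g) (y, p)).comp (ContinuousLinearMap.inl ℝ X P)) y := by
    intro y hy p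
    have h3 : HasFDerivAt (Function.uncurry g) (fderiv ℝ (Function.uncurry g) (y, p)) (y, p) :=
      ((hg.contDiffAt (hso.mem_nhds (mk_mem_prod hy (mem_univ p)))).differentiableAt
        (by simp)).hasFDerivAt
    have h4 : HasFDerivAt (fun z : X => ((z, p) : X × P)) (ContinuousLinearMap.inl ℝ X P) y :=
      (hasFDerivAt_id y).prodMk (hasFDerivAt_const p y)
    exact HasFDerivAt.comp y h3 h4
  have h2' : ∀ y ∈ s, ∀ p, fderiv ℝ (fun z => g z p) y =
      (fderiv ℝ (Function.uncurry g) (y, p)).comp (ContinuousLinearMap.inl ℝ X P) :=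
    fun y hy p => (h2 y hy p).fderiv
  have hcont0 : ∀ y ∈ s, Continuous (g y) := by
    intro y hy
    rw [← continuousOn_univ]
    exact hg.continuousOn.comp (continuous_const.prodMk continuous_id).continuousOn
      fun p _ => mk_mem_prod hy (mem_univ p)
  obtain ⟨r, hr, hball⟩ := Metric.nhds_basis_closedBall.mem_iff.1 (hs.mem_nhds hx)
  have hC : IsCompact (Metric.closedBall x r ×ˢ K) := by
    have := FiniteDimensional.proper_real X
    exact (isCompact_closedBall x r).prod hK
  have h6 : ContinuousOn (fun q : X × P => fderiv ℝ (Function.uncurry g) q)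
      (Metric.closedBall x r ×ˢ K) := h1.mono (prod_mono hball (subset_univ _))
  have h7 : ContinuousOn (fun q : X × P => (fderiv ℝ (Function.uncurry g) q).comp
      (ContinuousLinearMap.inl ℝ X P)) (Metric.closedBall x r ×ˢ K) :=
    h6.clm_comp continuousOn_const
  obtain ⟨M, hM⟩ := hC.exists_bound_of_continuousOn h7
  refine ⟨r, hr, hball, ⟨M, fun y hy p hp => ?_⟩,
    hK.exists_bound_of_continuousOn (hcont0 x hx).continuousOn,
    fun y hy => ⟨hcont0 y hy, fun p => (h2 y hy p).differentiableAt.hasFDerivAt⟩⟩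
  rw [h2' y (hball hy) p]
  exact hM (y, p) (mk_mem_prod hy hp)

theorem hasFDerivAt_kernel {X P V V' W : Type*} [NormedAddCommGroup X] [NormedSpace ℝ X]
    [FiniteDimensional ℝ X]
    [NormedAddCommGroup P] [NormedSpace ℝ P] [SecondCountableTopology P]
    [MeasurableSpace P] [BorelSpace P]
    [NormedAddCommGroup V] [NormedSpace ℝ V] [NormedAddCommGroup V'] [NormedSpace ℝ V']
    [NormedAddCommGroup W] [NormedSpace ℝ W] (L : V →L[ℝ] W →L[ℝ] V')
    {μ : Measure P} [IsLocallyFiniteMeasure μ]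
    {w : P → V} {κ : X → P → W} {B : Set X} {K : Set P}
    (hB : IsOpen B) (hK : IsCompact K) (hw : IntegrableOn w K μ)
    (h0 : ∀ x ∈ B, ∀ y, y ∉ K → κ x y = 0)
    (hκ : ContDiffOn ℝ ∞ (Function.uncurry κ) (B ×ˢ univ)) {x : X} (hx : x ∈ B) :
    HasFDerivAt (fun x => ∫ y, L (w y) (κ x y) ∂μ)
      (∫ y, (L (w y)).comp (fderiv ℝ (fun x => κ x y) x) ∂μ) x ∧
    Integrable (fun y => (L (w y)).comp (fderiv ℝ (fun x => κ x y) x)) μ := by
  obtain ⟨r, hr, hball, ⟨M, hM⟩, ⟨C, hC⟩, hd⟩ := exists_bound_par hB hK hκ hx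
  have hpar := fun y (hy : y ∈ B) => hasFDerivAt_par (μ := μ) univ hB hK h0 hκ hy
  -- replace `w` by its restriction to `K`
  set w' : P → V := K.indicator w with hw'
  have hint : Integrable w' μ := hw.integrable_indicator hK.measurableSet
  have he1 : ∀ y ∈ B, ∀ p, L (w p) (κ y p) = L (w' p) (κ y p) := by
    intro y hy p
    by_cases hp : p ∈ K
    · rw [hw', indicator_of_mem hp]
    · rw [h0 y hy p hp, map_zero, map_zero]
  have he2 : ∀ y ∈ B, ∀ p, (L (w p)).comp (fderiv ℝ (fun x => κ x p) y) =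
      (L (w' p)).comp (fderiv ℝ (fun x => κ x p) y) := by
    intro y hy p
    by_cases hp : p ∈ K
    · rw [hw', indicator_of_mem hp]
    · rw [(hpar y hy).2.2.1 p hp]
      simp
  have hbd : ∀ y ∈ Metric.closedBall x r, ∀ p,
      ‖(L (w' p)).comp (fderiv ℝ (fun x => κ x p) y)‖ ≤ ‖L‖ * |M| * ‖w' p‖ := by
    intro y hy p
    by_cases hp : p ∈ K
    · refine (ContinuousLinearMap.opNorm_comp_le _ _).trans ?_
      calc ‖L (w' p)‖ * ‖fderiv ℝ (fun x => κ x p) y‖ ≤ (‖L‖ * ‖w' p‖) * |M| := by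
            gcongr
            · exact L.le_opNorm _
            · exact (hM y hy p hp).trans (le_abs_self M)
        _ = ‖L‖ * |M| * ‖w' p‖ := by ring
    · rw [hw', indicator_of_notMem hp]
      simp
  have hmeas0 : ∀ y ∈ B, AEStronglyMeasurable (fun p => L (w' p) (κ y p)) μ := by
    intro y hy
    have h1 : Continuous fun q : V × W => L q.1 q.2 :=
      (L.continuous.comp continuous_fst).clm_apply continuous_snd
    exact h1.comp_aestronglyMeasurable
      (hint.aestronglyMeasurable.prodMk (hd y hy).1.aestronglyMeasurable)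
  have hmeas : AEStronglyMeasurable (fun p => (L (w' p)).comp
      (fderiv ℝ (fun x => κ x p) x)) μ := by
    have h1 : Continuous fun q : V × (X →L[ℝ] W) => (L q.1).comp q.2 :=
      (L.continuous.comp continuous_fst).clm_comp continuous_snd
    exact h1.comp_aestronglyMeasurable
      (hint.aestronglyMeasurable.prodMk (hpar x hx).2.2.2.1.aestronglyMeasurable)
  have hI : Integrable (fun p => (L (w' p)).comp (fderiv ℝ (fun x => κ x p) x)) μ := by
    refine (hint.norm.const_mul (‖L‖ * |M|)).mono' hmeas (Filter.Eventually.of_forall fun p => ?_)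
    exact hbd x (Metric.mem_closedBall_self hr.le) p
  constructor
  · have h9 := hasFDerivAt_integral_of_dominated_of_fderiv_le (𝕜 := ℝ)
      (F := fun x p => L (w' p) (κ x p))
      (F' := fun y p => (L (w' p)).comp (fderiv ℝ (fun z => κ z p) y)) (μ := μ) (x₀ := x)
      (bound := fun p => ‖L‖ * |M| * ‖w' p‖) (s := Metric.closedBall x r)
      (Metric.closedBall_mem_nhds x hr) ?_ ?_ hmeas ?_ ?_ ?_
    · have h10 : (∫ y, (L (w y)).comp (fderiv ℝ (fun x => κ x y) x) ∂μ) =
          ∫ y, (L (w' y)).comp (fderiv ℝ (fun x => κ x y) x) ∂μ :=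
        integral_congr_ae (Filter.Eventually.of_forall fun p => he2 x hx p)
      rw [h10]
      refine h9.congr_of_eventuallyEq ?_
      filter_upwards [hB.mem_nhds hx] with y hy
      exact integral_congr_ae (Filter.Eventually.of_forall fun p => he1 y hy p)
    · filter_upwards [hB.mem_nhds hx] with y hy
      exact hmeas0 y hy
    · refine (hint.norm.const_mul (‖L‖ * |C|)).mono' (hmeas0 x hx)
        (Filter.Eventually.of_forall fun p => ?_)
      refine (ContinuousLinearMap.le_opNorm _ _).trans ?_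
      by_cases hp : p ∈ K
      · calc ‖L (w' p)‖ * ‖κ x p‖ ≤ (‖L‖ * ‖w' p‖) * |C| := by
              gcongr
              · exact L.le_opNorm _
              · exact (hC p hp).trans (le_abs_self C)
          _ = ‖L‖ * |C| * ‖w' p‖ := by ring
      · rw [h0 x hx p hp, norm_zero, mul_zero]
        positivity
    · exact Filter.Eventually.of_forall fun p y hy => hbd y hy p
    · exact hint.norm.const_mul (‖L‖ * |M|)
    · refine Filter.Eventually.of_forall fun p y hy => ?_
      exact (L (w' p)).hasFDerivAt.comp y ((hd y (hball hy)).2 p)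
  · refine hI.congr (Filter.Eventually.of_forall fun p => (he2 x hx p).symm)

/-- Integrability of pairings with continuous functions of compact support. -/
theorem integrable_pair {P V V' W : Type*}
    [NormedAddCommGroup P] [NormedSpace ℝ P] [SecondCountableTopology P]
    [MeasurableSpace P] [BorelSpace P]
    [NormedAddCommGroup V] [NormedSpace ℝ V] [NormedAddCommGroup V'] [NormedSpace ℝ V']
    [NormedAddCommGroup W] [NormedSpace ℝ W] (L : V →L[ℝ] W →L[ℝ] V')
    {μ : Measure P} {w : P → V} {a : P → W} {K : Set P}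
    (hK : IsCompact K) (hw : IntegrableOn w K μ) (ha : Continuous a) (h0 : ∀ y, y ∉ K → a y = 0) :
    Integrable (fun y => L (w y) (a y)) μ := by
  set w' : P → V := K.indicator w with hw'
  have hint : Integrable w' μ := hw.integrable_indicator hK.measurableSet
  have he1 : ∀ p, L (w p) (a p) = L (w' p) (a p) := by
    intro p
    by_cases hp : p ∈ K
    · rw [hw', indicator_of_mem hp]
    · rw [h0 p hp, map_zero, map_zero]
  have hmeas : AEStronglyMeasurable (fun p => L (w' p) (a p)) μ := by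
    have h1 : Continuous fun q : V × W => L q.1 q.2 :=
      (L.continuous.comp continuous_fst).clm_apply continuous_snd
    exact h1.comp_aestronglyMeasurable
      (hint.aestronglyMeasurable.prodMk ha.aestronglyMeasurable)
  obtain ⟨C, hC⟩ := hK.exists_bound_of_continuousOn ha.continuousOn
  have h2 : Integrable (fun p => L (w' p) (a p)) μ := by
    refine (hint.norm.const_mul (‖L‖ * |C|)).mono' hmeas (Filter.Eventually.of_forall fun p => ?_)
    refine (ContinuousLinearMap.le_opNorm _ _).trans ?_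
    by_cases hp : p ∈ K
    · calc ‖L (w' p)‖ * ‖a p‖ ≤ (‖L‖ * ‖w' p‖) * |C| := by
            gcongr
            · exact L.le_opNorm _
            · exact (hC p hp).trans (le_abs_self C)
        _ = ‖L‖ * |C| * ‖w' p‖ := by ring
    · rw [h0 p hp, norm_zero, mul_zero]
      positivity
  exact h2.congr (Filter.Eventually.of_forall fun p => (he1 p).symm)

/-! ### Weak pairs and operator valued test functions -/

section pair

variable {E V₁ V₂ W U : Type*} [NormedAddCommGroup E] [NormedSpace ℝ E] [FiniteDimensional ℝ E]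
  [MeasurableSpace E] [BorelSpace E]
  [NormedAddCommGroup V₁] [NormedSpace ℝ V₁] [NormedAddCommGroup V₂] [NormedSpace ℝ V₂]
  [NormedAddCommGroup W] [NormedSpace ℝ W] [FiniteDimensional ℝ W]
  [NormedAddCommGroup U] [NormedSpace ℝ U]

/-- The transposed derivative of an operator valued test function. -/
noncomputable def tder (T : (E →L[ℝ] V₁) →L[ℝ] V₂) (L : V₂ →L[ℝ] W →L[ℝ] U)
    (a : E → W) (y : E) (v : V₁) : U :=
  ∑ i, L (T ((fderiv ℝ (fun z => (Module.finBasis ℝ W).repr (a z) i) y).smulRight v))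
      (Module.finBasis ℝ W i)

omit [FiniteDimensional ℝ E] [MeasurableSpace E] [BorelSpace E] in
theorem tder_smul (T : (E →L[ℝ] V₁) →L[ℝ] V₂) (L : V₂ →L[ℝ] W →L[ℝ] U)
    (a : E → W) (y : E) (c : ℝ) (v : V₁) :
    tder T L a y (c • v) = c • tder T L a y v := by
  unfold tder
  rw [Finset.smul_sum]
  refine Finset.sum_congr rfl fun i _ => ?_
  have h1 : (fderiv ℝ (fun z => (Module.finBasis ℝ W).repr (a z) i) y).smulRight (c • v) =
      c • (fderiv ℝ (fun z => (Module.finBasis ℝ W).repr (a z) i) y).smulRight v := by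
    ext u
    simp only [ContinuousLinearMap.smulRight_apply, smul_apply]
    rw [smul_comm]
  rw [h1, map_smul, map_smul]
  rfl

omit [FiniteDimensional ℝ E] [MeasurableSpace E] [BorelSpace E] in
theorem continuous_tder (T : (E →L[ℝ] V₁) →L[ℝ] V₂) (L : V₂ →L[ℝ] W →L[ℝ] U)
    {a : E → W} (ha : ContDiff ℝ ∞ a) (v : V₁) : Continuous fun y => tder T L a y v := by
  refine continuous_finsetSum _ fun i _ => ?_
  have hφs : ContDiff ℝ ∞ (fun z => (Module.finBasis ℝ W).repr (a z) i) :=
    (LinearMap.toContinuousLinearMap ((Module.finBasis ℝ W).coord i)).contDiff.comp ha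
  have hdc : Continuous (fderiv ℝ (fun z => (Module.finBasis ℝ W).repr (a z) i)) :=
    hφs.continuous_fderiv (by simp)
  have h1 : Continuous fun y =>
      ContinuousLinearMap.smulRightL ℝ E V₁ (fderiv ℝ
        (fun z => (Module.finBasis ℝ W).repr (a z) i) y) v :=
    ((ContinuousLinearMap.smulRightL ℝ E V₁).continuous.comp hdc).clm_apply continuous_const
  exact (L.continuous.comp (T.continuous.comp h1)).clm_apply continuous_const

theorem pair_tder [CompleteSpace U] [CompleteSpace V₁] [CompleteSpace V₂]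
    (T : (E →L[ℝ] V₁) →L[ℝ] V₂) (L : V₂ →L[ℝ] W →L[ℝ] U)
    {μ : Measure E} [μ.IsAddHaarMeasure]
    {Ω K : Set E} {a : E → W} (hK : IsCompact K) (hKΩ : K ⊆ Ω)
    (ha : ContDiff ℝ ∞ a) (h0 : ∀ y, y ∉ K → a y = 0)
    {η : E → V₁} {θ : E → V₂} (hη : IntegrableOn η K μ) (hθ : IntegrableOn θ K μ)
    (hw : ∀ φ : E → ℝ, IsTest Ω φ →
      ∫ x, (φ x • θ x + T ((fderiv ℝ φ x).smulRight (η x))) ∂μ = 0) :
    ∫ y, L (θ y) (a y) ∂μ = - ∫ y, tder T L a y (η y) ∂μ ∧
      Integrable (fun y => tder T L a y (η y)) μ := by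
  have : SecondCountableTopology E := by
    have := FiniteDimensional.proper_real E
    infer_instance
  set b := Module.finBasis ℝ W with hb
  set φ : Fin (Module.finrank ℝ W) → E → ℝ := fun i z => b.repr (a z) i with hφ
  have hφs : ∀ i, ContDiff ℝ ∞ (φ i) := by
    intro i
    exact (LinearMap.toContinuousLinearMap (b.coord i)).contDiff.comp ha
  have hφ0 : ∀ i, ∀ y, y ∉ K → φ i y = 0 := by
    intro i y hy
    simp [hφ, h0 y hy]
  have hts : ∀ i, tsupport (φ i) ⊆ K := fun i =>
    closure_minimal (fun y hy => by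
      by_contra h
      exact hy (hφ0 i y h)) hK.isClosed
  have hcs : ∀ i, HasCompactSupport (φ i) := fun i => HasCompactSupport.intro hK (hφ0 i)
  have hdc : ∀ i, Continuous (fderiv ℝ (φ i)) := fun i => (hφs i).continuous_fderiv (by simp)
  have hd0 : ∀ i, ∀ y, y ∉ K → fderiv ℝ (φ i) y = 0 := by
    intro i y hy
    have h1 : y ∉ tsupport (fderiv ℝ (φ i)) := fun h =>
      hy (hts i (tsupport_fderiv_subset ℝ h))
    exact image_eq_zero_of_notMem_tsupport h1
  have hexp : ∀ y, a y = ∑ i, φ i y • b i := fun y => (b.sum_repr (a y)).symm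
  have hI1 : ∀ i, Integrable (fun y => φ i y • θ y) μ := fun i =>
    integrable_pair (μ := μ) (ContinuousLinearMap.lsmul ℝ ℝ (E := V₂)).flip hK hθ
        (hφs i).continuous (hφ0 i)
  have hI2 : ∀ i, Integrable (fun y => (fderiv ℝ (φ i) y).smulRight (η y)) μ := fun i =>
    integrable_pair (μ := μ) (ContinuousLinearMap.smulRightL ℝ E V₁).flip hK hη
        (hdc i) (hd0 i)
  have hI3 : ∀ i, Integrable (fun y => T ((fderiv ℝ (φ i) y).smulRight (η y))) μ := fun i =>
    T.integrable_comp (hI2 i)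
  have key : ∀ i, ∫ y, φ i y • L (θ y) (b i) ∂μ =
      - ∫ y, L (T ((fderiv ℝ (φ i) y).smulRight (η y))) (b i) ∂μ := by
    intro i
    have h1 := hw (φ i) ⟨hφs i, hcs i, (hts i).trans hKΩ⟩
    have h2 : ∫ y, φ i y • θ y ∂μ = - ∫ y, T ((fderiv ℝ (φ i) y).smulRight (η y)) ∂μ := by
      rw [integral_add (hI1 i) (hI3 i)] at h1
      exact eq_neg_of_add_eq_zero_left h1
    have h3 := congrArg (L.flip (b i)) h2
    rw [map_neg, ← (L.flip (b i)).integral_comp_comm (hI1 i),
      ← (L.flip (b i)).integral_comp_comm (hI3 i)] at h3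
    simpa only [ContinuousLinearMap.flip_apply, map_smul, smul_apply] using h3
  have hJ1 : ∀ i, Integrable (fun y => φ i y • L (θ y) (b i)) μ := by
    intro i
    have := (L.flip (b i)).integrable_comp (hI1 i)
    simpa only [ContinuousLinearMap.flip_apply, map_smul, smul_apply] using this
  have hJ2 : ∀ i, Integrable (fun y => L (T ((fderiv ℝ (φ i) y).smulRight (η y))) (b i)) μ :=
    fun i => (L.flip (b i)).integrable_comp (hI3 i)
  have h1 : ∀ y, L (θ y) (a y) = ∑ i, φ i y • L (θ y) (b i) := by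
    intro y
    conv_lhs => rw [hexp y]
    rw [map_sum]
    exact Finset.sum_congr rfl fun i _ => map_smul _ _ _
  constructor
  · simp only [h1, tder]
    rw [integral_finsetSum _ fun i _ => hJ1 i, integral_finsetSum _ fun i _ => hJ2 i,
      ← Finset.sum_neg_distrib]
    exact Finset.sum_congr rfl fun i _ => key i
  · exact integrable_finsetSum _ fun i _ => hJ2 i

end pair

/-! ### The abstract commutation theorem -/

theorem comm_abstract {E V₁ V₂ W₁ W₂ : Type*} [NormedAddCommGroup E] [NormedSpace ℝ E]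
    [FiniteDimensional ℝ E] [MeasurableSpace E] [BorelSpace E]
    [NormedAddCommGroup V₁] [NormedSpace ℝ V₁] [CompleteSpace V₁]
    [NormedAddCommGroup V₂] [NormedSpace ℝ V₂] [CompleteSpace V₂]
    [NormedAddCommGroup W₁] [NormedSpace ℝ W₁]
    [NormedAddCommGroup W₂] [NormedSpace ℝ W₂] [FiniteDimensional ℝ W₂]
    {μ : Measure E} [μ.IsAddHaarMeasure]
    (T : (E →L[ℝ] V₁) →L[ℝ] V₂) (L₁ : V₁ →L[ℝ] W₁ →L[ℝ] V₁) (L₂ : V₂ →L[ℝ] W₂ →L[ℝ] V₂)
    {κ : E → E → W₁} {a : E → W₂} {B K Ω : Set E} {x₀ : E} (hB : IsOpen B) (hx₀ : x₀ ∈ B)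
    (hK : IsCompact K) (hKΩ : K ⊆ Ω) (h01 : ∀ x ∈ B, ∀ y, y ∉ K → κ x y = 0)
    (hκ : ContDiffOn ℝ ∞ (Function.uncurry κ) (B ×ˢ univ))
    (h02 : ∀ y, y ∉ K → a y = 0) (ha : ContDiff ℝ ∞ a)
    (hsm : ∀ ψ : E → ℝ, ContDiff ℝ ∞ ψ → HasCompactSupport ψ → ∀ v : V₁,
      T (fderiv ℝ (fun x => ∫ y, L₁ (ψ y • v) (κ x y) ∂μ) x₀) =
        ∫ y, L₂ (T ((fderiv ℝ ψ y).smulRight v)) (a y) ∂μ)
    {η : E → V₁} {θ : E → V₂} (hη : IntegrableOn η K μ) (hθ : IntegrableOn θ K μ)
    (hw : ∀ φ : E → ℝ, IsTest Ω φ →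
      ∫ x, (φ x • θ x + T ((fderiv ℝ φ x).smulRight (η x))) ∂μ = 0) :
    T (fderiv ℝ (fun x => ∫ y, L₁ (η y) (κ x y) ∂μ) x₀) = ∫ y, L₂ (θ y) (a y) ∂μ := by
  have : SecondCountableTopology E := by
    have := FiniteDimensional.proper_real E
    infer_instance
  -- the left hand side as an integral
  have hleft : ∀ w : E → V₁, IntegrableOn w K μ →
      T (fderiv ℝ (fun x => ∫ y, L₁ (w y) (κ x y) ∂μ) x₀) =
        ∫ y, T ((L₁ (w y)).comp (fderiv ℝ (fun x => κ x y) x₀)) ∂μ ∧
      Integrable (fun y => T ((L₁ (w y)).comp (fderiv ℝ (fun x => κ x y) x₀))) μ := by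
    intro w hw'
    obtain ⟨h1, h2⟩ := hasFDerivAt_kernel (μ := μ) L₁ hB hK hw' h01 hκ hx₀
    rw [h1.fderiv, ← T.integral_comp_comm h2]
    exact ⟨rfl, T.integrable_comp h2⟩
  have hcont : ∀ v : V₁, Continuous fun y =>
      T ((L₁ v).comp (fderiv ℝ (fun x => κ x y) x₀)) := by
    intro v
    have h1 := (hasFDerivAt_par (μ := μ) univ hB hK h01 hκ hx₀).2.1
    exact T.continuous.comp (continuous_const.clm_comp h1)
  -- the identity of the kernels
  have hzero : ∀ v y, T ((L₁ v).comp (fderiv ℝ (fun x => κ x y) x₀)) + tder T L₂ a y v = 0 := by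
    intro v
    have hc : Continuous fun y => T ((L₁ v).comp (fderiv ℝ (fun x => κ x y) x₀)) +
        tder T L₂ a y v := (hcont v).add (continuous_tder T L₂ ha v)
    have h1 : ∀ ψ : E → ℝ, ContDiff ℝ ∞ ψ → HasCompactSupport ψ →
        ∫ y, ψ y • (T ((L₁ v).comp (fderiv ℝ (fun x => κ x y) x₀)) + tder T L₂ a y v) ∂μ = 0 := by
      intro ψ hψ hψc
      have hη' : IntegrableOn (fun y => ψ y • v) K μ :=
        (hψ.continuous.smul continuous_const).continuousOn.integrableOn_compact hK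
      have hdψ : Continuous (fderiv ℝ ψ) := hψ.continuous_fderiv (by simp)
      have hθc : Continuous fun y => T ((fderiv ℝ ψ y).smulRight v) := by
        have h1 : Continuous fun y =>
            ContinuousLinearMap.smulRightL ℝ E V₁ (fderiv ℝ ψ y) v :=
          ((ContinuousLinearMap.smulRightL ℝ E V₁).continuous.comp hdψ).clm_apply continuous_const
        exact T.continuous.comp h1
      have hθ' : IntegrableOn (fun y => T ((fderiv ℝ ψ y).smulRight v)) K μ :=
        hθc.continuousOn.integrableOn_compact hK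
      have hw' : ∀ φ : E → ℝ, IsTest (univ : Set E) φ →
          ∫ x, (φ x • T ((fderiv ℝ ψ x).smulRight v) +
            T ((fderiv ℝ φ x).smulRight (ψ x • v))) ∂μ = 0 := by
        intro φ hφ
        refine swa_main (μ := μ) T isOpen_univ (η := fun y => ψ y • v) ?_ ?_ φ hφ
        · exact ((hψ.of_le (by exact_mod_cast le_top)).smul contDiff_const).contDiffOn
        · intro x _
          have h2 : HasFDerivAt (fun y => ψ y • v) ((fderiv ℝ ψ x).smulRight v) x :=
            ((hψ.differentiable (by simp)) x).hasFDerivAt.smul_const v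
          rw [h2.fderiv]
      obtain ⟨h3, h4⟩ := pair_tder T L₂ (μ := μ) hK (subset_univ K) ha h02 hη' hθ' hw'
      obtain ⟨h5, h6⟩ := hleft _ hη'
      have h7 := hsm ψ hψ hψc v
      rw [h5, h3] at h7
      have h8 := add_eq_zero_iff_eq_neg.2 h7
      rw [← integral_add h6 h4] at h8
      rw [← h8]
      refine integral_congr_ae (Filter.Eventually.of_forall fun y => ?_)
      simp only
      rw [tder_smul, smul_add, map_smul]
      congr 1
      have h9 : (ψ y • L₁ v).comp (fderiv ℝ (fun x => κ x y) x₀) =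
          ψ y • (L₁ v).comp (fderiv ℝ (fun x => κ x y) x₀) := by
        ext u
        simp
      rw [h9, map_smul]
    have h2 := ae_eq_zero_of_integral_contDiff_smul_eq_zero (hc.locallyIntegrable (μ := μ)) h1
    have h3 := (Continuous.ae_eq_iff_eq (μ := μ) hc continuous_const).1 h2
    intro y
    exact congrFun h3 y
  obtain ⟨h3, h4⟩ := pair_tder T L₂ (μ := μ) hK hKΩ ha h02 hη hθ hw
  rw [(hleft η hη).1, h3, ← integral_neg]
  refine integral_congr_ae (Filter.Eventually.of_forall fun y => ?_)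
  exact eq_neg_of_add_eq_zero_left (hzero (η y) y)

/-- Pointwise form of COMM. -/
theorem comm_pointwise {n k : ℕ} {Ω : Set (Fin n → ℂ)} {m ε : (Fin n → ℂ) → ℝ} {η : Form n k}
    {θ : Form n (k + 1)} (hm : IsMol m) (hε : IsRad Ω ε)
    (hη : LocallyIntegrableOn η Ω) (hθ : LocallyIntegrableOn θ Ω) (hw : WeakD Ω η θ)
    {x₀ : Fin n → ℂ} (hx₀ : x₀ ∈ Ω) : extDeriv (Rg m ε η) x₀ = Rg m ε θ x₀ := by
  obtain ⟨hKΩ, hnear⟩ := hε.near hx₀
  set K : Set (Fin n → ℂ) := Metric.closedBall x₀ (7 / 4 * ε x₀) with hKdef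
  have hKc : IsCompact K := isCompact_closedBall _ _
  set B : Set (Fin n → ℂ) := Metric.ball x₀ (ε x₀ / 2) with hB
  have hpos := hε.pos x₀ hx₀
  have hx₀B : x₀ ∈ B := Metric.mem_ball_self (by linarith)
  have hκ0 : ∀ j, ∀ x ∈ B, ∀ y, y ∉ K → kerR j m ε x y = 0 := fun j x hx y hy =>
    kerR_eq_zero hm (hnear x hx).1 fun h => hy ((hnear x hx).2 h)
  have heq : ∀ {j : ℕ} (w : Form n j), (fun x => ∫ y, kerR j m ε x y (w y)) =ᶠ[𝓝 x₀]
      Rg m ε w := by
    intro j w
    filter_upwards [Metric.isOpen_ball.mem_nhds hx₀B] with x hx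
    exact (Rg_eq_ker m ε w (hnear x hx).1).symm
  have hmain := comm_abstract (μ := (volume : Measure (Fin n → ℂ)))
    (E := Fin n → ℂ) (V₁ := (Fin n → ℂ) [⋀^Fin k]→L[ℝ] ℂ)
    (V₂ := (Fin n → ℂ) [⋀^Fin (k + 1)]→L[ℝ] ℂ)
    (ContinuousAlternatingMap.alternatizeUncurryFinCLM ℝ (Fin n → ℂ) ℂ (n := k))
    (ContinuousLinearMap.apply ℝ ((Fin n → ℂ) [⋀^Fin k]→L[ℝ] ℂ))
    (ContinuousLinearMap.apply ℝ ((Fin n → ℂ) [⋀^Fin (k + 1)]→L[ℝ] ℂ))
    (κ := kerR k m ε) (a := kerR (k + 1) m ε x₀) (B := B) (K := K) (Ω := Ω) (x₀ := x₀)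
    Metric.isOpen_ball hx₀B hKc hKΩ (hκ0 k) ?_ (hκ0 (k + 1) x₀ hx₀B) ?_ ?_ (η := η) (θ := θ)
    (hη.integrableOn_compact_subset hKΩ hKc) (hθ.integrableOn_compact_subset hKΩ hKc) hw
  · have h1 : extDeriv (Rg m ε η) x₀ = ContinuousAlternatingMap.alternatizeUncurryFinCLM ℝ
        (Fin n → ℂ) ℂ (n := k) (fderiv ℝ (Rg m ε η) x₀) := rfl
    rw [h1, ← (heq η).fderiv_eq, Rg_eq_ker m ε θ hpos]
    exact hmain
  · exact fun q hq => (contDiffAt_kerR hm.smooth hε.smooth
      (hnear q.1 hq.1).1).contDiffWithinAt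
  · refine contDiff_iff_contDiffAt.2 fun y => ?_
    have h1 : ContDiffAt ℝ ∞ (fun y : Fin n → ℂ => (x₀, y)) y :=
      contDiffAt_const.prodMk contDiffAt_id
    exact (contDiffAt_kerR hm.smooth hε.smooth (q := (x₀, y)) hpos).comp y h1
  · intro ψ hψ hψc v
    have hη' : ContDiff ℝ ∞ (fun y => ψ y • v : Form n k) := hψ.smul contDiff_const
    have h1 := (comm_smooth hm hε.smooth hη').2 x₀
    have h2 : ∀ y, extDeriv (fun y => ψ y • v : Form n k) y =
        ContinuousAlternatingMap.alternatizeUncurryFinCLM ℝ (Fin n → ℂ) ℂ (n := k)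
          ((fderiv ℝ ψ y).smulRight v) := by
      intro y
      have h3 : HasFDerivAt (fun y => ψ y • v) ((fderiv ℝ ψ y).smulRight v) y :=
        ((hψ.differentiable (by simp)) y).hasFDerivAt.smul_const v
      rw [extDeriv, h3.fderiv]
      rfl
    have h4 : extDeriv (Rg m ε fun y => ψ y • v) x₀ =
        ContinuousAlternatingMap.alternatizeUncurryFinCLM ℝ
        (Fin n → ℂ) ℂ (n := k) (fderiv ℝ (Rg m ε fun y => ψ y • v) x₀) := rfl
    rw [h4, ← (heq (fun y => ψ y • v)).fderiv_eq, Rg_eq_ker m ε _ hpos] at h1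
    refine h1.trans (integral_congr_ae (Filter.Eventually.of_forall fun y => ?_))
    simp only
    rw [h2]
    rfl

/-- COMM. -/
theorem comm : S_COMM := by
  intro n k Ω m ε η θ hΩ hm hε hη hθ hw
  exact swa n k Ω (Rg m ε η) (Rg m ε θ) hΩ (ker n k Ω m ε η hΩ hm hε hη)
    fun x hx => comm_pointwise hm hε hη hθ hw hx

end L2P
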