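import Pool.Agent.Work.MP_ead3fc_ag.S.Tasks
import Pool.Agent.Work.MP_0e9e72_an.SCVA

/-!
# MP_ead3fc_ag, smooth stage: existence of the radius
-/

set_option autoImplicit false

open MeasureTheory Set Filter Topology Function
open scoped ENNReal ContDiff NNReal

namespace L2P

/-- A smooth positive function on `Ω` which is small together with its derivative. -/
theorem exists_radius {E : Type*} [NormedAddCommGroup E] [NormedSpace ℝ E]
    [FiniteDimensional ℝ E] {Ω : Set E} (hΩ : IsOpen Ω) (P : E → ℝ → Prop)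
    (hloc : ∀ x₀ ∈ Ω, ∃ r : ℝ, 0 < r ∧ ∀ x, dist x x₀ < r → P x r) :
    ∃ ε : E → ℝ, ContDiff ℝ ∞ ε ∧ (∀ x ∈ Ω, 0 < ε x) ∧ (∀ x, ε x ≤ 1) ∧
      (∀ x, ‖fderiv ℝ ε x‖ ≤ 1 / 2) ∧
      ∀ x ∈ Ω, ∃ r, P x r ∧ ε x ≤ r ∧ ‖fderiv ℝ ε x‖ ≤ r := by
  rcases eq_empty_or_nonempty Ω with (rfl | h's)
  · refine ⟨fun _ => 0, contDiff_const, by simp, fun _ => zero_le_one, fun x => ?_, by simp⟩
    simp
  let ι := { q : (E → ℝ) × ℝ // tsupport q.1 ⊆ Ω ∧ HasCompactSupport q.1 ∧ ContDiff ℝ ∞ q.1 ∧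
    range q.1 ⊆ Icc 0 1 ∧ 0 < q.2 ∧ ∀ x ∈ tsupport q.1, P x q.2 }
  obtain ⟨T, T_count, hT⟩ : ∃ T : Set ι, T.Countable ∧ ⋃ q ∈ T, support (q : (E → ℝ) × ℝ).1 = Ω := by
    have : ⋃ q : ι, support (q : (E → ℝ) × ℝ).1 = Ω := by
      refine Subset.antisymm (iUnion_subset fun q => (subset_tsupport _).trans q.2.1) ?_
      intro x hx
      obtain ⟨r, hr, hP⟩ := hloc x hx
      rcases exists_contDiff_tsupport_subset (n := ⊤) (s := Ω ∩ Metric.ball x r)
        (inter_mem (hΩ.mem_nhds hx) (Metric.ball_mem_nhds x hr)) with ⟨f, hf⟩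
      let g : ι := ⟨(f, r), hf.1.trans inter_subset_left, hf.2.1, hf.2.2.1, hf.2.2.2.1, hr,
        fun y hy => hP y (hf.1 hy).2⟩
      have : x ∈ support (g : (E → ℝ) × ℝ).1 := by
        simp only [g, hf.2.2.2.2, mem_support, Ne, one_ne_zero, not_false_iff]
      exact mem_iUnion_of_mem _ this
    simp_rw [← this]
    apply TopologicalSpace.isOpen_iUnion_countable
    rintro ⟨f, hf⟩
    exact hf.2.2.1.continuous.isOpen_support
  obtain ⟨g0, hg⟩ : ∃ g0 : ℕ → ι, T = range g0 := by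
    apply Countable.exists_eq_range T_count
    rcases eq_empty_or_nonempty T with (rfl | hT)
    · simp only [← hT, mem_empty_iff_false, iUnion_of_empty, iUnion_empty,
        Set.not_nonempty_empty] at h's
    · exact hT
  let g : ℕ → E → ℝ := fun n => (g0 n).1.1
  let ρ : ℕ → ℝ := fun n => min 1 (g0 n).1.2
  have s_g : ∀ x ∈ Ω, ∃ n, x ∈ support (g n) := fun x hx ↦ by
    rw [← hT, hg] at hx
    obtain ⟨_, ⟨_, rfl⟩, hx⟩ := hx
    simp only [mem_iUnion, exists_prop] at hx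
    obtain ⟨⟨n, hn⟩, hx⟩ := hx
    exact ⟨n, by simpa only [g, hn] using hx⟩
  have g_smooth : ∀ n, ContDiff ℝ ∞ (g n) := fun n => (g0 n).2.2.2.1
  have g_comp_supp : ∀ n, HasCompactSupport (g n) := fun n => (g0 n).2.2.1
  have g_nonneg : ∀ n x, 0 ≤ g n x := fun n x => ((g0 n).2.2.2.2.1 (mem_range_self x)).1
  have hρ : ∀ n, 0 < ρ n := fun n => lt_min one_pos (g0 n).2.2.2.2.2.1
  have hρ1 : ∀ n, ρ n ≤ 1 := fun n => min_le_left _ _
  obtain ⟨δ, δpos, c, δc, c_lt⟩ :
      ∃ δ : ℕ → ℝ≥0, (∀ i : ℕ, 0 < δ i) ∧ ∃ c : NNReal, HasSum δ c ∧ c < (1 / 2 : ℝ≥0) :=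
    NNReal.exists_pos_sum_of_countable (by norm_num) ℕ
  have : ∀ n : ℕ, ∃ r : ℝ, 0 < r ∧ ∀ i ≤ n + 1, ∀ x,
      ‖iteratedFDeriv ℝ i (r • g n) x‖ ≤ δ n * ρ n := by
    intro n
    have : ∀ i, ∃ R, ∀ x, ‖iteratedFDeriv ℝ i (fun x => g n x) x‖ ≤ R := by
      intro i
      have : BddAbove (range fun x => ‖iteratedFDeriv ℝ i (fun x : E => g n x) x‖) := by
        apply ((g_smooth n).continuous_iteratedFDeriv
          (mod_cast le_top)).norm.bddAbove_range_of_hasCompactSupport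
        apply HasCompactSupport.comp_left _ norm_zero
        apply (g_comp_supp n).iteratedFDeriv
      rcases this with ⟨R, hR⟩
      exact ⟨R, fun x => hR (mem_range_self _)⟩
    choose R hR using this
    let M := max (((Finset.range (n + 2)).image R).max' (by simp)) 1
    have δnpos : 0 < δ n := δpos n
    have ρn := hρ n
    have IR : ∀ i ≤ n + 1, R i ≤ M := by
      intro i hi
      refine le_trans ?_ (le_max_left _ _)
      apply Finset.le_max'
      apply Finset.mem_image_of_mem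
      simp only [Finset.mem_range]
      lia
    refine ⟨M⁻¹ * (δ n * ρ n), by positivity, fun i hi x => ?_⟩
    calc
      ‖iteratedFDeriv ℝ i ((M⁻¹ * (δ n * ρ n)) • g n) x‖
          = ‖(M⁻¹ * (δ n * ρ n)) • iteratedFDeriv ℝ i (g n) x‖ := by
        rw [iteratedFDeriv_const_smul_apply]
        exact (g_smooth n).contDiffAt.of_le (mod_cast le_top)
      _ = M⁻¹ * (δ n * ρ n) * ‖iteratedFDeriv ℝ i (g n) x‖ := by
        rw [norm_smul _ (iteratedFDeriv ℝ i (g n) x), Real.norm_of_nonneg]; positivity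
      _ ≤ M⁻¹ * (δ n * ρ n) * M := by gcongr; exact (hR i x).trans (IR i hi)
      _ = δ n * ρ n := by simp [field]
  choose r rpos hr using this
  have hle : ∀ n, (δ n : ℝ) * ρ n ≤ δ n := fun n =>
    mul_le_of_le_one_right (δ n).2 (hρ1 n)
  have hval : ∀ n x, ‖(r n • g n) x‖ ≤ δ n * ρ n := fun n x => by
    simpa only [norm_iteratedFDeriv_zero] using! hr n 0 (Nat.zero_le _) x
  have hder : ∀ n x, ‖fderiv ℝ (r n • g n) x‖ ≤ δ n * ρ n := fun n x => by
    rw [← norm_iteratedFDeriv_one]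
    exact hr n 1 (by omega) x
  have hδs : Summable fun n => (δ n : ℝ) := (NNReal.hasSum_coe.2 δc).summable
  have S : ∀ x, Summable fun n => (r n • g n) x := fun x ↦
    Summable.of_norm_bounded hδs fun n => (hval n x).trans (hle n)
  have hdiff : ∀ n, Differentiable ℝ (r n • g n) := fun n =>
    ((g_smooth n).const_smul (r n)).differentiable (by simp)
  obtain ⟨x₁, -⟩ := h's
  have hfd : ∀ x, fderiv ℝ (fun y => ∑' n, (r n • g n) y) x = ∑' n, fderiv ℝ (r n • g n) x :=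
    fun x => congrFun (fderiv_tsum hδs (fun n => hdiff n)
      (fun n x => (hder n x).trans (hle n)) (S x₁)) x
  have hsumδ : ∑' n, (δ n : ℝ) ≤ 1 / 2 := by
    rw [(NNReal.hasSum_coe.2 δc).tsum_eq]
    have := NNReal.coe_lt_coe.2 c_lt
    push_cast at this
    exact this.le
  have hS' : ∀ x, Summable fun n => ‖(r n • g n) x‖ := fun x =>
    Summable.of_nonneg_of_le (fun _ => norm_nonneg _) (fun n => (hval n x).trans (hle n)) hδs
  have hD' : ∀ x, Summable fun n => ‖fderiv ℝ (r n • g n) x‖ := fun x =>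
    Summable.of_nonneg_of_le (fun _ => norm_nonneg _) (fun n => (hder n x).trans (hle n)) hδs
  have hpos : ∀ x ∈ Ω, 0 < ∑' n, (r n • g n) x := by
    intro x hx
    obtain ⟨n, hn⟩ : ∃ n, x ∈ support (g n) := s_g x hx
    have I : 0 < r n * g n x := mul_pos (rpos n) (lt_of_le_of_ne (g_nonneg n x) (Ne.symm hn))
    exact (S x).tsum_pos (fun i => mul_nonneg (rpos i).le (g_nonneg i x)) n I
  refine ⟨fun x => ∑' n, (r n • g n) x, ?_, hpos, fun x => ?_, fun x => ?_, fun x hx => ?_⟩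
  · refine contDiff_tsum_of_eventually (fun k => (g_smooth k).const_smul (r k))
        (fun k _ => hδs) ?_
    intro i _
    simp only [Nat.cofinite_eq_atTop, Filter.eventually_atTop]
    exact ⟨i, fun n hn x => (hr _ _ (by omega) _).trans (hle n)⟩
  · have h1 : ∑' n, (r n • g n) x ≤ ∑' n, (δ n : ℝ) :=
      (S x).tsum_le_tsum (fun n => ((le_abs_self _).trans (hval n x)).trans (hle n)) hδs
    linarith
  · rw [hfd]
    refine (norm_tsum_le_tsum_norm (hD' x)).trans (((hD' x).tsum_le_tsum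
      (fun n => (hder n x).trans (hle n)) hδs).trans hsumδ)
  · -- one of the radii is at least the value and the slope
    set M := max (∑' n, (r n • g n) x) ‖fderiv ℝ (fun y => ∑' n, (r n • g n) y) x‖ with hM
    have hMpos : 0 < M := lt_of_lt_of_le (hpos x hx) (le_max_left _ _)
    suffices h : ∃ n, x ∈ tsupport (g n) ∧ M ≤ ρ n by
      obtain ⟨n, hn, hMn⟩ := h
      have h2 : ρ n ≤ (g0 n).1.2 := min_le_right _ _
      exact ⟨(g0 n).1.2, (g0 n).2.2.2.2.2.2 x hn, ((le_max_left _ _).trans hMn).trans h2,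
        ((le_max_right _ _).trans hMn).trans h2⟩
    by_contra hcon
    push Not at hcon
    have hoff : ∀ n, x ∉ tsupport (g n) → (r n • g n) x = 0 ∧ fderiv ℝ (r n • g n) x = 0 := by
      intro n hn
      have h1 : x ∉ tsupport (r n • g n) := fun h => hn (closure_mono (support_const_smul_subset _ _) h)
      exact ⟨image_eq_zero_of_notMem_tsupport h1, fderiv_of_notMem_tsupport (𝕜 := ℝ) h1⟩
    have h1 : ∀ n, ‖(r n • g n) x‖ ≤ δ n * M ∧ ‖fderiv ℝ (r n • g n) x‖ ≤ δ n * M := by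
      intro n
      by_cases hn : x ∈ tsupport (g n)
      · have h2 : (δ n : ℝ) * ρ n ≤ δ n * M :=
          mul_le_mul_of_nonneg_left (hcon n hn).le (δ n).2
        exact ⟨(hval n x).trans h2, (hder n x).trans h2⟩
      · obtain ⟨h2, h3⟩ := hoff n hn
        have h4 : 0 ≤ (δ n : ℝ) * M := mul_nonneg (δ n).2 hMpos.le
        rw [h2, h3, norm_zero, norm_zero]
        exact ⟨h4, h4⟩
    have hsM : Summable fun n => (δ n : ℝ) * M := hδs.mul_right M
    have h5 : ∑' n, (δ n : ℝ) * M ≤ M / 2 := by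
      rw [tsum_mul_right]
      nlinarith
    have h6 : ∑' n, (r n • g n) x ≤ M / 2 :=
      ((S x).tsum_le_tsum (fun n => (le_abs_self _).trans (h1 n).1) hsM).trans h5
    have h7 : ‖fderiv ℝ (fun y => ∑' n, (r n • g n) y) x‖ ≤ M / 2 := by
      rw [hfd]
      exact (norm_tsum_le_tsum_norm (hD' x)).trans
        (((hD' x).tsum_le_tsum (fun n => (h1 n).2) hsM).trans h5)
    have h8 : M ≤ M / 2 := max_le h6 h7
    linarith

/-- The Gram determinant is a continuous function of the differential. -/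
theorem continuous_gram_det {n N : ℕ} :
    Continuous fun A : (Fin n → ℂ) →L[ℂ] EuclideanSpace ℂ (Fin N) =>
      (Matrix.of fun i j : Fin n => inner ℂ (A (Pi.single i 1)) (A (Pi.single j 1))).det := by
  refine Continuous.matrix_det (continuous_pi fun i => continuous_pi fun j => ?_)
  exact Continuous.inner (ContinuousLinearMap.apply ℂ _ _).continuous
    (ContinuousLinearMap.apply ℂ _ _).continuous

theorem gram_det_ne_zero {n N : ℕ} (A : (Fin n → ℂ) →L[ℂ] EuclideanSpace ℂ (Fin N))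
    (hA : Function.Injective A) :
    (Matrix.of fun i j : Fin n => inner ℂ (A (Pi.single i 1)) (A (Pi.single j 1))).det ≠ 0 := by
  have h1 : LinearIndependent ℂ fun i : Fin n => A (Pi.single i 1) := by
    have h2 := (Pi.basisFun ℂ (Fin n)).linearIndependent.map' A.toLinearMap
      (LinearMap.ker_eq_bot.2 hA)
    have h3 : (fun i : Fin n => A (Pi.single i 1)) = A.toLinearMap ∘ Pi.basisFun ℂ (Fin n) := by
      funext i
      simp
    rw [h3]
    exact h2
  exact (Matrix.det_gram_ne_zero_iff_linearIndependent (𝕜 := ℂ)).2 h1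

/-- EPS. -/
theorem eps : S_EPS := by
  intro n N Ω F C hΩ hF hC hinj
  have hcont : ContinuousOn (fderiv ℂ F) Ω :=
    (SCV.contDiffOn_of_differentiableOn hΩ hF (n := 1)).continuousOn_fderiv_of_isOpen hΩ le_rfl
  have hg : ContinuousOn (gramDet F) Ω := continuous_gram_det.comp_continuousOn hcont
  have hg0 : ∀ x ∈ Ω, gramDet F x ≠ 0 := fun x hx => gram_det_ne_zero _ (hinj x hx)
  let P : (Fin n → ℂ) → ℝ → Prop := fun x r => ∃ l : ℝ, 0 < l ∧
    (∀ v, l * ‖v‖ ≤ ‖fderiv ℂ F x v‖) ∧ r * |C| ≤ l ∧ Metric.ball x (2 * r) ⊆ Ω ∧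
    ∀ y, ‖y - x‖ ≤ r → ‖fderiv ℂ F y - fderiv ℂ F x‖ ≤ l ∧ ‖gramDet F x‖ ≤ 2 * ‖gramDet F y‖
  have hloc : ∀ x₀ ∈ Ω, ∃ r : ℝ, 0 < r ∧ ∀ x, dist x x₀ < r → P x r := by
    intro x₀ hx₀
    obtain ⟨K, hK, hKa⟩ := LinearMap.exists_antilipschitzWith (fderiv ℂ F x₀).toLinearMap
      (LinearMap.ker_eq_bot.2 (hinj x₀ hx₀))
    have hK' : (0 : ℝ) < K := NNReal.coe_pos.2 hK
    set l₀ : ℝ := (K : ℝ)⁻¹ with hl₀
    have hl₀pos : 0 < l₀ := inv_pos.2 hK'
    have hlow : ∀ v, l₀ * ‖v‖ ≤ ‖fderiv ℂ F x₀ v‖ := by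
      intro v
      have h1 := hKa.le_mul_dist v 0
      rw [map_zero, dist_zero_right, dist_zero_right] at h1
      rw [hl₀, inv_mul_le_iff₀ hK']
      exact h1
    have hc1 : ∀ᶠ y in 𝓝 x₀, ‖fderiv ℂ F y - fderiv ℂ F x₀‖ < l₀ / 4 := by
      have h1 := (hcont.continuousAt (hΩ.mem_nhds hx₀)).eventually
        (Metric.ball_mem_nhds _ (by positivity : 0 < l₀ / 4))
      filter_upwards [h1] with y hy
      rw [← dist_eq_norm]
      exact hy
    have hgpos : 0 < ‖gramDet F x₀‖ := norm_pos_iff.2 (hg0 x₀ hx₀)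
    have hc2 : ∀ᶠ y in 𝓝 x₀, ‖gramDet F y - gramDet F x₀‖ < ‖gramDet F x₀‖ / 4 := by
      have h1 := (hg.continuousAt (hΩ.mem_nhds hx₀)).eventually
        (Metric.ball_mem_nhds _ (by positivity : 0 < ‖gramDet F x₀‖ / 4))
      filter_upwards [h1] with y hy
      rw [← dist_eq_norm]
      exact hy
    obtain ⟨ρ, hρ, hρs⟩ := Metric.eventually_nhds_iff.1
      ((hΩ.eventually_mem hx₀).and (hc1.and hc2))
    refine ⟨min (ρ / 4) (l₀ / 2 / (|C| + 1)), by positivity, fun x hx => ?_⟩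
    set r := min (ρ / 4) (l₀ / 2 / (|C| + 1)) with hr
    have hr1 : r ≤ ρ / 4 := min_le_left _ _
    have hr2 : r ≤ l₀ / 2 / (|C| + 1) := min_le_right _ _
    have hrpos : 0 < r := by positivity
    have hxρ : dist x x₀ < ρ := by linarith
    obtain ⟨hxΩ, hx1, hx2⟩ := hρs hxρ
    refine ⟨l₀ / 2, by positivity, fun v => ?_, ?_, ?_, ?_⟩
    · have h1 : ‖fderiv ℂ F x₀ v‖ ≤ ‖fderiv ℂ F x v‖ + ‖(fderiv ℂ F x - fderiv ℂ F x₀) v‖ := by
        have : fderiv ℂ F x₀ v = fderiv ℂ F x v - (fderiv ℂ F x - fderiv ℂ F x₀) v := by simp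
        rw [this]
        exact norm_sub_le _ _
      have h2 : ‖(fderiv ℂ F x - fderiv ℂ F x₀) v‖ ≤ l₀ / 4 * ‖v‖ :=
        (ContinuousLinearMap.le_opNorm _ _).trans
          (mul_le_mul_of_nonneg_right hx1.le (norm_nonneg _))
      nlinarith [hlow v, mul_nonneg hl₀pos.le (norm_nonneg v)]
    · have h1 : r * (|C| + 1) ≤ l₀ / 2 := by
        rw [le_div_iff₀ (by positivity)] at hr2
        exact hr2
      nlinarith
    · intro y hy
      have h1 : dist y x < 2 * r := hy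
      have h2 : dist y x₀ < ρ := by
        have := dist_triangle y x x₀
        linarith
      exact (hρs h2).1
    · intro y hy
      rw [← dist_eq_norm] at hy
      have h2 : dist y x₀ < ρ := by
        have := dist_triangle y x x₀
        linarith
      obtain ⟨-, hy1, hy2⟩ := hρs h2
      constructor
      · have h3 : fderiv ℂ F y - fderiv ℂ F x =
            (fderiv ℂ F y - fderiv ℂ F x₀) - (fderiv ℂ F x - fderiv ℂ F x₀) := by abel
        rw [h3]
        have := norm_sub_le (fderiv ℂ F y - fderiv ℂ F x₀) (fderiv ℂ F x - fderiv ℂ F x₀)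
        linarith
      · have h3 : ‖gramDet F x‖ ≤ ‖gramDet F x - gramDet F x₀‖ + ‖gramDet F x₀‖ := by
          have := norm_add_le (gramDet F x - gramDet F x₀) (gramDet F x₀)
          rwa [sub_add_cancel] at this
        have h4 : ‖gramDet F x₀‖ ≤ ‖gramDet F y‖ + ‖gramDet F y - gramDet F x₀‖ := by
          have := norm_sub_le (gramDet F y) (gramDet F y - gramDet F x₀)
          rwa [sub_sub_cancel] at this
        linarith
  obtain ⟨ε, hsm, hpos, hle, hslope, hε⟩ := exists_radius hΩ P hloc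
  refine ⟨ε, |C| + 3, ⟨hsm, hpos, hle, hslope, fun x hx => ?_⟩, ⟨fun x hx v hv => ?_, hcont,
    fun x hx u hu => ?_, fun x hx u hu t ht0 ht1 v => ?_, fun x hx u hu t ht0 ht1 => ?_⟩⟩
  · obtain ⟨r, ⟨l, -, -, -, hb, -⟩, hr, -⟩ := hε x hx
    exact (Metric.ball_subset_ball (by linarith)).trans hb
  · exact hinj x hx (by rw [hv, map_zero])
  · have h1 := (fderiv ℂ F x).le_opNorm u
    have h2 := hC x hx
    have h3 := norm_nonneg (fderiv ℂ F x)
    have h4 := le_abs_self C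
    nlinarith [norm_nonneg u]
  · obtain ⟨r, ⟨l, hl, hlow, hrC, hb, hy⟩, hr, hr'⟩ := hε x hx
    have hεx := hpos x hx
    set y := x + (t * ε x) • u with hydef
    have hyx : ‖y - x‖ ≤ r := by
      rw [hydef, add_sub_cancel_left, norm_smul, Real.norm_of_nonneg (by positivity)]
      have h1 : t * ε x * ‖u‖ ≤ 1 * ε x * 1 := by gcongr
      linarith
    obtain ⟨h1, -⟩ := hy y hyx
    have hyΩ : y ∈ Ω := hb (by
      rw [Metric.mem_ball, dist_eq_norm]
      linarith)
    have h2 : dPhi ε t u x v = v + t • (fderiv ℝ ε x v) • u := by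
      simp [dPhi]
    rw [h2, map_add]
    have h3 : ‖fderiv ℂ F y v‖ ≤ ‖fderiv ℂ F x v‖ + l * ‖v‖ := by
      have h4 : fderiv ℂ F y v = fderiv ℂ F x v + (fderiv ℂ F y - fderiv ℂ F x) v := by simp
      rw [h4]
      exact (norm_add_le _ _).trans (add_le_add le_rfl ((ContinuousLinearMap.le_opNorm _ _).trans
        (mul_le_mul_of_nonneg_right h1 (norm_nonneg _))))
    have h5 : ‖fderiv ℂ F y (t • (fderiv ℝ ε x v) • u)‖ ≤ l * ‖v‖ := by
      have h6 := (fderiv ℂ F y).le_opNorm (t • (fderiv ℝ ε x v) • u)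
      have h7 : ‖t • (fderiv ℝ ε x v) • u‖ ≤ r * ‖v‖ := by
        rw [norm_smul, norm_smul, Real.norm_of_nonneg ht0]
        have h8 : ‖fderiv ℝ ε x v‖ ≤ r * ‖v‖ := (ContinuousLinearMap.le_opNorm _ _).trans
          (mul_le_mul_of_nonneg_right hr' (norm_nonneg _))
        have h9 : t * (‖fderiv ℝ ε x v‖ * ‖u‖) ≤ 1 * (‖fderiv ℝ ε x v‖ * 1) := by gcongr
        linarith
      have h8 : ‖fderiv ℂ F y‖ ≤ |C| := (hC y hyΩ).trans (le_abs_self C)
      calc ‖fderiv ℂ F y (t • (fderiv ℝ ε x v) • u)‖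
          ≤ |C| * (r * ‖v‖) := h6.trans (by gcongr)
        _ = (r * |C|) * ‖v‖ := by ring
        _ ≤ l * ‖v‖ := by gcongr
    have h10 := hlow v
    have h11 := norm_add_le (fderiv ℂ F y v) (fderiv ℂ F y (t • (fderiv ℝ ε x v) • u))
    nlinarith [abs_nonneg C, norm_nonneg (fderiv ℂ F x v)]
  · obtain ⟨r, ⟨l, hl, hlow, hrC, hb, hy⟩, hr, hr'⟩ := hε x hx
    have hεx := hpos x hx
    set y := x + (t * ε x) • u with hydef
    have hyx : ‖y - x‖ ≤ r := by
      rw [hydef, add_sub_cancel_left, norm_smul, Real.norm_of_nonneg (by positivity)]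
      have h1 : t * ε x * ‖u‖ ≤ 1 * ε x * 1 := by gcongr
      linarith
    obtain ⟨-, h1⟩ := hy y hyx
    nlinarith [abs_nonneg C, norm_nonneg (gramDet F y)]

end L2P
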