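import Pool.Agent.Work.MP_ead3fc_ag.S.Tasks

/-!
# MP_ead3fc_ag, smooth stage: square integrable forms are locally integrable
-/

set_option autoImplicit false

open MeasureTheory Set Filter Topology
open scoped ENNReal

namespace L2P

/-- The Euclidean norm of a form is bounded by its norm in the induced metric. -/
lemma loc_enorm {n N k : ℕ} (F : (Fin n → ℂ) → EuclideanSpace ℂ (Fin N)) (x : Fin n → ℂ) (C : ℝ)
    (hC : 0 < C) (h : ‖fderiv ℂ F x‖ ≤ C) (w : (Fin n → ℂ) [⋀^Fin k]→L[ℝ] ℂ) :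
    ‖w‖ₑ ≤ ENNReal.ofReal (C ^ k) * normAt F x w := by
  by_cases htop : normAt F x w = ⊤
  · rw [htop, ENNReal.mul_top (by simpa using pow_pos hC k)]
    exact le_top
  have hM : ENNReal.ofReal (normAt F x w).toReal = normAt F x w := ENNReal.ofReal_toReal htop
  have key : ‖w‖ ≤ C ^ k * (normAt F x w).toReal := by
    refine w.opNorm_le_bound (by positivity) fun v => ?_
    by_cases hv : ∃ i, v i = 0
    · obtain ⟨i, hi⟩ := hv
      rw [w.map_coord_zero i hi, norm_zero]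
      positivity
    · have hv' : ∀ i, v i ≠ 0 := fun i hi => hv ⟨i, hi⟩
      have hpos : ∀ i, 0 < ‖v i‖ := fun i => norm_pos_iff.2 (hv' i)
      have hu : ∀ i, ‖fderiv ℂ F x ((1 / (C * ‖v i‖)) • v i)‖ ≤ 1 := by
        intro i
        calc ‖fderiv ℂ F x ((1 / (C * ‖v i‖)) • v i)‖
            ≤ ‖fderiv ℂ F x‖ * ‖(1 / (C * ‖v i‖)) • v i‖ := (fderiv ℂ F x).le_opNorm _
          _ ≤ C * ‖(1 / (C * ‖v i‖)) • v i‖ := by gcongr
          _ = 1 := by
            rw [norm_smul, Real.norm_eq_abs,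
              abs_of_pos (by have := hpos i; positivity)]
            have := (hpos i).ne'
            field_simp
      have h1 : ‖w fun i => (1 / (C * ‖v i‖)) • v i‖ₑ ≤ normAt F x w :=
        le_iSup (fun v : {v : Fin k → Fin n → ℂ // ∀ i, ‖fderiv ℂ F x (v i)‖ ≤ 1} => ‖w v.1‖ₑ)
          ⟨fun i => (1 / (C * ‖v i‖)) • v i, hu⟩
      have h2 : ‖w fun i => (1 / (C * ‖v i‖)) • v i‖ ≤ (normAt F x w).toReal := by
        rw [← hM, ← ofReal_norm] at h1
        exact (ENNReal.ofReal_le_ofReal_iff ENNReal.toReal_nonneg).1 h1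
      have h3 : (w fun i => (1 / (C * ‖v i‖)) • v i) = (∏ i, 1 / (C * ‖v i‖)) • w v :=
        w.map_smul_univ _ _
      rw [h3, norm_smul, Real.norm_eq_abs] at h2
      have h4 : |∏ i, 1 / (C * ‖v i‖)| = (C ^ k * ∏ i, ‖v i‖)⁻¹ := by
        rw [abs_of_pos (Finset.prod_pos fun i _ => by have := hpos i; positivity)]
        simp_rw [one_div]
        rw [Finset.prod_inv_distrib, Finset.prod_mul_distrib]
        simp
      have h5 : 0 < C ^ k * ∏ i, ‖v i‖ :=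
        mul_pos (pow_pos hC k) (Finset.prod_pos fun i _ => hpos i)
      rw [h4, inv_mul_le_iff₀ h5] at h2
      linarith
  calc ‖w‖ₑ = ENNReal.ofReal ‖w‖ := (ofReal_norm w).symm
    _ ≤ ENNReal.ofReal (C ^ k * (normAt F x w).toReal) := ENNReal.ofReal_le_ofReal key
    _ = ENNReal.ofReal (C ^ k) * normAt F x w := by
      rw [ENNReal.ofReal_mul (by positivity), hM]

open scoped ComplexOrder in
/-- The Gram determinant of an immersion does not vanish. -/
lemma loc_gram_ne {n N : ℕ} (F : (Fin n → ℂ) → EuclideanSpace ℂ (Fin N)) (x : Fin n → ℂ)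
    (h : ∀ v, fderiv ℂ F x v = 0 → v = 0) : gramDet F x ≠ 0 := by
  have hli : LinearIndependent ℂ fun i : Fin n =>
      fderiv ℂ F x (Pi.single i (1 : ℂ) : Fin n → ℂ) := by
    have h1 := (Pi.basisFun ℂ (Fin n)).linearIndependent.map'
      ((fderiv ℂ F x : (Fin n → ℂ) →L[ℂ] EuclideanSpace ℂ (Fin N)) :
        (Fin n → ℂ) →ₗ[ℂ] EuclideanSpace ℂ (Fin N))
      (by rw [LinearMap.ker_eq_bot']; exact h)
    have h2 : (((fderiv ℂ F x : (Fin n → ℂ) →L[ℂ] EuclideanSpace ℂ (Fin N)) :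
        (Fin n → ℂ) →ₗ[ℂ] EuclideanSpace ℂ (Fin N)) ∘ (Pi.basisFun ℂ (Fin n))) =
        fun i : Fin n => fderiv ℂ F x (Pi.single i (1 : ℂ) : Fin n → ℂ) := by
      funext i
      simp [Pi.basisFun_apply]
    rwa [h2] at h1
  have h2 := (Matrix.posDef_gram_of_linearIndependent (𝕜 := ℂ) hli).det_pos
  exact h2.ne'

lemma loc_gram_cont {n N : ℕ} (F : (Fin n → ℂ) → EuclideanSpace ℂ (Fin N))
    {Ω : Set (Fin n → ℂ)} (h : ContinuousOn (fderiv ℂ F) Ω) :
    ContinuousOn (fun x => ‖gramDet F x‖) Ω := by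
  have hG : Continuous fun T : (Fin n → ℂ) →L[ℂ] EuclideanSpace ℂ (Fin N) =>
      ‖(Matrix.of fun i j : Fin n => inner ℂ (T (Pi.single i 1)) (T (Pi.single j 1))).det‖ := by
    refine Continuous.norm (Continuous.matrix_det (continuous_matrix fun i j => ?_))
    have h1 : ∀ v : Fin n → ℂ, Continuous fun T : (Fin n → ℂ) →L[ℂ] EuclideanSpace ℂ (Fin N) =>
      T v := fun v => continuous_id.clm_apply continuous_const
    exact (h1 _).inner (h1 _)
  exact hG.comp_continuousOn h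

theorem loc : S_LOC := by
  intro n N k Ω F w hΩ hinj hcont hw
  rw [locallyIntegrableOn_iff hΩ.isLocallyClosed]
  intro K hK hKc
  obtain ⟨C₀, hC₀⟩ := hKc.exists_bound_of_continuousOn (hcont.mono hK)
  obtain ⟨c, hc, hcK⟩ := hKc.exists_forall_le' (a := 0) ((loc_gram_cont F hcont).mono hK)
    fun x hx => norm_pos_iff.2 (loc_gram_ne F x (hinj x (hK hx)))
  set C : ℝ := max C₀ 1 with hC
  have hCpos : 0 < C := lt_of_lt_of_le one_pos (le_max_right _ _)
  refine ⟨hw.meas.mono_set hK, ?_⟩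
  set D : ℝ≥0∞ := ENNReal.ofReal (C ^ k) ^ 2 * ENNReal.ofReal c⁻¹ with hD
  have hDtop : D ≠ ⊤ := ENNReal.mul_ne_top (ENNReal.pow_ne_top ENNReal.ofReal_ne_top)
    ENNReal.ofReal_ne_top
  have hpt : ∀ x ∈ K, ‖w x‖ₑ ≤ 1 + D * (normAt F x (w x) ^ 2 * ‖gramDet F x‖ₑ) := by
    intro x hx
    have h1 : ‖w x‖ₑ ≤ 1 + ‖w x‖ₑ ^ 2 := by
      rcases le_total ‖w x‖ₑ 1 with h | h
      · exact h.trans le_self_add
      · calc ‖w x‖ₑ = ‖w x‖ₑ * 1 := (mul_one _).symm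
          _ ≤ ‖w x‖ₑ * ‖w x‖ₑ := by gcongr
          _ = ‖w x‖ₑ ^ 2 := (sq _).symm
          _ ≤ _ := le_add_self
    have h2 := loc_enorm F x C hCpos ((hC₀ x hx).trans (le_max_left _ _)) (w x)
    have h3 : 1 ≤ ENNReal.ofReal c⁻¹ * ‖gramDet F x‖ₑ := by
      rw [← ofReal_norm, ← ENNReal.ofReal_mul (by positivity)]
      rw [← ENNReal.ofReal_one]
      refine ENNReal.ofReal_le_ofReal ?_
      rw [inv_mul_eq_div, le_div_iff₀ hc, one_mul]
      exact hcK x hx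
    calc ‖w x‖ₑ ≤ 1 + ‖w x‖ₑ ^ 2 := h1
      _ ≤ 1 + (ENNReal.ofReal (C ^ k) * normAt F x (w x)) ^ 2 * 1 := by
        rw [mul_one]; gcongr
      _ ≤ 1 + (ENNReal.ofReal (C ^ k) * normAt F x (w x)) ^ 2 *
          (ENNReal.ofReal c⁻¹ * ‖gramDet F x‖ₑ) := by gcongr
      _ = 1 + D * (normAt F x (w x) ^ 2 * ‖gramDet F x‖ₑ) := by rw [hD]; ring
  show ∫⁻ x in K, ‖w x‖ₑ < ∞
  calc ∫⁻ x in K, ‖w x‖ₑ
      ≤ ∫⁻ x in K, (1 + D * (normAt F x (w x) ^ 2 * ‖gramDet F x‖ₑ)) :=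
        setLIntegral_mono' hKc.measurableSet hpt
    _ = volume K + D * ∫⁻ x in K, normAt F x (w x) ^ 2 * ‖gramDet F x‖ₑ := by
        rw [lintegral_add_left measurable_const, lintegral_const_mul' _ _ hDtop]
        simp
    _ ≤ volume K + D * ∫⁻ x in Ω, normAt F x (w x) ^ 2 * ‖gramDet F x‖ₑ := by
        gcongr
    _ < ∞ := ENNReal.add_lt_top.2 ⟨hKc.measure_lt_top, ENNReal.mul_lt_top hDtop.lt_top hw.fin⟩

end L2P
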