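import Pool.Agent.Work.MP_ead3fc_ag.S.Par

/-!
# MP_ead3fc_ag, smooth stage: measurability of the norm

Proof of `S_MEAS`.
-/

set_option autoImplicit false

open MeasureTheory Set Filter Topology
open scoped ENNReal ContDiff

namespace L2P

/-- The norm is lower semicontinuous in the point and the form. -/
theorem isOpen_normAt {n N k : ℕ} {Ω : Set (Fin n → ℂ)}
    {F : (Fin n → ℂ) → EuclideanSpace ℂ (Fin N)} (hΩ : IsOpen Ω)
    (hF : ContinuousOn (fderiv ℂ F) Ω) (c : ℝ≥0∞) :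
    IsOpen {p : (Fin n → ℂ) × ((Fin n → ℂ) [⋀^Fin k]→L[ℝ] ℂ) |
      p.1 ∈ Ω ∧ c < normAt F p.1 p.2} := by
  rw [isOpen_iff_mem_nhds]
  rintro ⟨x, w⟩ ⟨hx, hc⟩
  obtain ⟨v, hv⟩ := lt_iSup_iff.1 hc
  -- shrink the vectors
  have h1 : Tendsto (fun s : ℝ => ‖w (fun i => s • v.1 i)‖ₑ) (𝓝[<] 1) (𝓝 ‖w v.1‖ₑ) := by
    have h2 : Continuous fun s : ℝ => ‖w (fun i => s • v.1 i)‖ₑ :=
      (w.cont.comp (continuous_pi fun i => continuous_id.smul continuous_const)).enorm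
    have h3 := h2.continuousAt (x := 1)
    have h4 : (fun i => (1 : ℝ) • v.1 i) = v.1 := by funext i; simp
    have h5 : Tendsto (fun s : ℝ => ‖w (fun i => s • v.1 i)‖ₑ) (𝓝 1)
        (𝓝 ‖w (fun i => (1 : ℝ) • v.1 i)‖ₑ) := h3
    rw [h4] at h5
    exact h5.mono_left nhdsWithin_le_nhds
  have h6 : ∀ᶠ s : ℝ in 𝓝[<] 1, c < ‖w (fun i => s • v.1 i)‖ₑ := h1.eventually (lt_mem_nhds hv)
  have h7 : ∀ᶠ s : ℝ in 𝓝[<] 1, (0 : ℝ) < s :=
    nhdsWithin_le_nhds (lt_mem_nhds (by norm_num : (0 : ℝ) < 1))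
  obtain ⟨s, ⟨hs, hs0⟩, hs1⟩ := ((h6.and h7).and self_mem_nhdsWithin).exists
  have hs1' : s < 1 := hs1
  have h8 : ∀ᶠ p : (Fin n → ℂ) × ((Fin n → ℂ) [⋀^Fin k]→L[ℝ] ℂ) in 𝓝 (x, w),
      c < ‖p.2 (fun i => s • v.1 i)‖ₑ := by
    have h9 : Continuous fun p : (Fin n → ℂ) × ((Fin n → ℂ) [⋀^Fin k]→L[ℝ] ℂ) =>
        ‖p.2 (fun i => s • v.1 i)‖ₑ :=
      ((ContinuousAlternatingMap.apply ℝ (Fin n → ℂ) ℂ
        (fun i => s • v.1 i)).continuous.comp continuous_snd).enorm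
    exact h9.continuousAt.eventually (lt_mem_nhds hs)
  have h10 : ∀ᶠ y in 𝓝 x, ∀ i, ‖fderiv ℂ F y (s • v.1 i)‖ < 1 := by
    refine Filter.eventually_all.2 fun i => ?_
    have h11 : ContinuousAt (fun y => ‖fderiv ℂ F y (s • v.1 i)‖) x :=
      ((hF.continuousAt (hΩ.mem_nhds hx)).clm_apply continuousAt_const).norm
    have h12 : ‖fderiv ℂ F x (s • v.1 i)‖ < 1 := by
      have h13 : fderiv ℂ F x (s • v.1 i) = s • fderiv ℂ F x (v.1 i) := by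
        rw [← algebraMap_smul ℂ s (v.1 i), map_smul, algebraMap_smul]
      rw [h13, norm_smul, Real.norm_of_nonneg hs0.le]
      have := v.2 i
      nlinarith
    exact h11.eventually (gt_mem_nhds h12)
  have h14 : ∀ᶠ p : (Fin n → ℂ) × ((Fin n → ℂ) [⋀^Fin k]→L[ℝ] ℂ) in 𝓝 (x, w),
      p.1 ∈ Ω ∧ ∀ i, ‖fderiv ℂ F p.1 (s • v.1 i)‖ < 1 :=
    continuousAt_fst.eventually (Filter.Eventually.and (hΩ.mem_nhds hx) h10)
  filter_upwards [h8, h14] with p hp1 hp2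
  refine ⟨hp2.1, hp1.trans_le ?_⟩
  exact le_iSup (fun v : {v : Fin k → Fin n → ℂ // ∀ i, ‖fderiv ℂ F p.1 (v i)‖ ≤ 1} =>
    ‖p.2 v.1‖ₑ) ⟨fun i => s • v.1 i, fun i => (hp2.2 i).le⟩

/-- MEAS. -/
theorem meas : S_MEAS := by
  intro n N k Ω F w hΩ _ hF hw
  obtain ⟨w', hw', hww⟩ := hw
  classical
  refine ⟨fun x => if x ∈ Ω then normAt F x (w' x) else 0, ?_, ?_⟩
  · let _ : MeasurableSpace ((Fin n → ℂ) × ((Fin n → ℂ) [⋀^Fin k]→L[ℝ] ℂ)) := borel _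
    have _ : BorelSpace ((Fin n → ℂ) × ((Fin n → ℂ) [⋀^Fin k]→L[ℝ] ℂ)) := ⟨rfl⟩
    have h1 : StronglyMeasurable fun x : Fin n → ℂ => (x, w' x) :=
      stronglyMeasurable_id.prodMk hw'
    refine measurable_of_Ioi fun c => ?_
    have h2 : (fun x => if x ∈ Ω then normAt F x (w' x) else 0) ⁻¹' Ioi c =
        (fun x : Fin n → ℂ => (x, w' x)) ⁻¹'
          {p : (Fin n → ℂ) × ((Fin n → ℂ) [⋀^Fin k]→L[ℝ] ℂ) |
            p.1 ∈ Ω ∧ c < normAt F p.1 p.2} := by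
      ext x
      by_cases hx : x ∈ Ω
      · simp [hx]
      · simp [hx]
    rw [h2]
    exact h1.measurable (isOpen_normAt hΩ hF c).measurableSet
  · have h3 : ∀ᵐ x ∂(volume.restrict Ω), x ∈ Ω := ae_restrict_mem hΩ.measurableSet
    filter_upwards [h3, hww] with x hx hx2
    rw [if_pos hx, hx2]

end L2P
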