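import Pool.Agent.Work.MP_ead3fc_ag.S.Tasks

/-!
# MP_ead3fc_ag, smooth stage: assembly
-/

set_option autoImplicit false

open MeasureTheory Set Filter Topology
open scoped ENNReal ContDiff

namespace L2P

theorem normAt_sub_le {n N k : ℕ} (F : (Fin n → ℂ) → EuclideanSpace ℂ (Fin N))
    (x : Fin n → ℂ) (w w' : (Fin n → ℂ) [⋀^Fin k]→L[ℝ] ℂ) :
    normAt F x (w - w') ≤ normAt F x w + normAt F x w' := by
  refine iSup_le fun v => ?_
  calc ‖(w - w') v.1‖ₑ = ‖w v.1 - w' v.1‖ₑ := rfl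
    _ ≤ ‖w v.1‖ₑ + ‖w' v.1‖ₑ := enorm_sub_le
    _ ≤ normAt F x w + normAt F x w' :=
      add_le_add (le_iSup (fun v : {v : Fin k → Fin n → ℂ // ∀ i, ‖fderiv ℂ F x (v i)‖ ≤ 1} =>
        ‖w v.1‖ₑ) v) (le_iSup (fun v : {v : Fin k → Fin n → ℂ //
        ∀ i, ‖fderiv ℂ F x (v i)‖ ≤ 1} => ‖w' v.1‖ₑ) v)

theorem sq_add_le (a b : ℝ≥0∞) : (a + b) ^ 2 ≤ 2 * (a ^ 2 + b ^ 2) := by
  have h := ENNReal.rpow_add_le_mul_rpow_add_rpow a b (p := 2) (by norm_num)
  have h2 : (2 : ℝ≥0∞) ^ ((2 : ℝ) - 1) = 2 := by norm_num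
  rw [h2] at h
  simpa using h

/-- Existence of mollifiers. -/
theorem exists_isMol (n : ℕ) : ∃ m : (Fin n → ℂ) → ℝ, IsMol m := by
  let φ : ContDiffBump (0 : Fin n → ℂ) := ⟨1 / 2, 1, by norm_num, by norm_num⟩
  refine ⟨φ.normed volume, φ.contDiff_normed, φ.nonneg_normed, fun u hu => ?_,
    φ.integral_normed⟩
  have h1 : u ∉ Function.support (φ.normed volume) := by
    rw [φ.support_normed_eq, Metric.mem_ball, dist_zero_right]
    exact not_lt.2 hu
  simpa [Function.mem_support] using h1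

/-- Assembly of REG. -/
theorem reg_of (h1 : S_SWb) (h2 : S_KER) (h3 : S_COMM) (h4 : S_HOMO) (h5 : S_BND)
    (h6 : S_LOC) (h0 : S_EPS) (h10 : S_MEAS) : S_REG2 := by
  intro n N k Ω F C₀ η θ hΩ hF₀ hFb hFi hθ hcl hθL hηL hw
  obtain ⟨ε, C, hε, hF⟩ := h0 n N Ω F C₀ hΩ hF₀ hFb hFi
  obtain ⟨m, hm⟩ := exists_isMol n
  have hηloc := h6 n N k Ω F η hΩ hF.inj hF.cont hηL
  have hθloc := h6 n N (k + 1) Ω F θ hΩ hF.inj hF.cont hθL
  have hRη := h2 n k Ω m ε η hΩ hm hε hηloc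
  have hRθ := h2 n (k + 1) Ω m ε θ hΩ hm hε hθloc
  obtain ⟨hA, hdA⟩ := h4 n k Ω m ε θ hΩ hm hε hθ hcl
  obtain ⟨hb1, hb2⟩ := h5 n N k Ω F m ε C hΩ hm hε hF
  have hd := h1 n k Ω (Rg m ε η) (Rg m ε θ) hΩ hRη hRθ.continuousOn
    (h3 n k Ω m ε η θ hΩ hm hε hηloc hθloc hw)
  refine ⟨fun x => Rg m ε η x - Ag m ε θ x, hRη.sub hA, ?_, fun x hx => ?_⟩
  · have h7 := hb1 η hηL hRη.continuousOn
    have h8 := hb2 θ hθL hA.continuousOn
    refine ⟨h7.meas.sub h8.meas, ?_⟩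
    have hm1 : AEMeasurable (fun x => normAt F x (Rg m ε η x)) (volume.restrict Ω) :=
      h10 n N k Ω F _ hΩ hF.inj hF.cont h7.meas
    have hg : AEMeasurable (fun x => ‖gramDet F x‖ₑ) (volume.restrict Ω) := by
      refine AEMeasurable.enorm (ContinuousOn.aemeasurable ?_ hΩ.measurableSet)
      have h12 : ContinuousOn (fun x => (Matrix.of fun i j : Fin n =>
          inner ℂ (fderiv ℂ F x (Pi.single i 1)) (fderiv ℂ F x (Pi.single j 1)))) Ω := by
        refine continuousOn_pi.2 fun i => continuousOn_pi.2 fun j => ?_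
        exact (hF.cont.clm_apply continuousOn_const).inner (𝕜 := ℂ)
          (hF.cont.clm_apply continuousOn_const)
      exact (Continuous.matrix_det continuous_id).comp_continuousOn h12
    have hle : ∀ x, normAt F x (Rg m ε η x - Ag m ε θ x) ^ 2 * ‖gramDet F x‖ₑ ≤
        2 * (normAt F x (Rg m ε η x) ^ 2 * ‖gramDet F x‖ₑ) +
          2 * (normAt F x (Ag m ε θ x) ^ 2 * ‖gramDet F x‖ₑ) := by
      intro x
      have h11 := normAt_sub_le F x (Rg m ε η x) (Ag m ε θ x)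
      calc normAt F x (Rg m ε η x - Ag m ε θ x) ^ 2 * ‖gramDet F x‖ₑ
          ≤ (normAt F x (Rg m ε η x) + normAt F x (Ag m ε θ x)) ^ 2 * ‖gramDet F x‖ₑ := by
            gcongr
        _ ≤ (2 * (normAt F x (Rg m ε η x) ^ 2 + normAt F x (Ag m ε θ x) ^ 2)) *
            ‖gramDet F x‖ₑ := by
            gcongr
            exact sq_add_le _ _
        _ = _ := by ring
    refine (lintegral_mono fun x => hle x).trans_lt ?_
    have hm2 : AEMeasurable (fun x => 2 * (normAt F x (Rg m ε η x) ^ 2 * ‖gramDet F x‖ₑ))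
        (volume.restrict Ω) := ((hm1.pow_const 2).mul hg).const_mul 2
    rw [lintegral_add_left' hm2, lintegral_const_mul' _ _ (by simp),
      lintegral_const_mul' _ _ (by simp)]
    exact ENNReal.add_lt_top.2 ⟨ENNReal.mul_lt_top (by simp) h7.fin,
      ENNReal.mul_lt_top (by simp) h8.fin⟩
  · have e1 : DifferentiableAt ℝ (Rg m ε η) x :=
      (hRη.contDiffAt (hΩ.mem_nhds hx)).differentiableAt (by simp)
    have e2 : DifferentiableAt ℝ (Ag m ε θ) x :=
      (hA.contDiffAt (hΩ.mem_nhds hx)).differentiableAt (by simp)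
    have e3 : extDeriv (fun x => Rg m ε η x - Ag m ε θ x) x =
        extDeriv (Rg m ε η) x - extDeriv (Ag m ε θ) x := by
      unfold extDeriv
      rw [fderiv_fun_sub e1 e2]
      exact map_sub (ContinuousAlternatingMap.alternatizeUncurryFinCLM ℝ (Fin n → ℂ) ℂ) _ _
    rw [e3, hd x hx, hdA x hx]
    simp

end L2P
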