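import Pool.Agent.Work.MP_ead3fc_ag.Main
import Pool.Agent.Work.MP_ead3fc_ag.S.Homo
import Pool.Agent.Work.MP_ead3fc_ag.S.Reg
import Pool.Agent.Work.MP_ead3fc_ag.S.Loc
import Pool.Agent.Work.MP_ead3fc_ag.S.SWa
import Pool.Agent.Work.MP_ead3fc_ag.S.Comm
import Pool.Agent.Work.MP_ead3fc_ag.S.SWb
import Pool.Agent.Work.MP_ead3fc_ag.S.Eps
import Pool.Agent.Work.MP_ead3fc_ag.S.Meas

/-!
# MP_ead3fc_ag, smooth stage: the L² Poincaré lemma for smooth forms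
-/

set_option autoImplicit false
set_option linter.unusedSectionVars false

open MeasureTheory Set Filter Topology
open scoped ENNReal ContDiff

namespace L2P

/-- REG. -/
theorem reg2 : S_REG2 := reg_of swb ker comm homo (bnd meas) loc eps meas

namespace Chart

variable {m N k : ℕ} (X : Chart m N)

lemma fderiv_bound : ∃ C : ℝ, ∀ z ∈ X.Ω, ‖fderiv ℂ X.F z‖ ≤ C := by
  have h1 : ContDiffOn ℂ ((⊤ : ℕ∞) : WithTop ℕ∞) X.F X.W := fun z hz =>
    ((SCV.contDiffAt_of_differentiableOn X.hW X.hF hz (n := ⊤))).contDiffWithinAt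
  have h2 : ContinuousOn (fderiv ℂ X.F) X.W := h1.continuousOn_fderiv_of_isOpen X.hW (by simp)
  obtain ⟨C, hC⟩ := X.compact.exists_bound_of_continuousOn (h2.mono X.hUW)
  exact ⟨C, fun z hz => hC z (subset_closure (X.Ω_sub hz))⟩

/-- The L² Poincaré lemma for smooth forms in positive degrees. -/
theorem smooth_pos {w : Form (m + 1) (k + 1)} (hs : ContDiffOn ℝ ∞ w X.Ω)
    (hw : IsL2 X.F X.Ω w) (hcl : ∀ x ∈ X.Ω, extDeriv w x = 0) :
    ∃ η : Form (m + 1) k, ContDiffOn ℝ ∞ η X.Ω ∧ IsL2 X.F X.Ω η ∧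
      ∀ x ∈ X.Ω, extDeriv η x = w x := by
  have h1 : WeakD X.Ω w 0 := swa _ _ _ _ _ X.Ω_open hs hcl
  obtain ⟨η, h2, h3⟩ := X.main_pos hw h1
  obtain ⟨C, hCb⟩ := X.fderiv_bound
  exact reg2 _ _ _ X.Ω X.F C η w X.Ω_open (X.hF.mono fun z hz =>
    X.hUW (subset_closure (X.Ω_sub hz))) hCb
    (fun z hz => X.himm z (subset_closure (X.Ω_sub hz)) hz.2) hs hcl hw h2 h3

/-- The L² Poincaré lemma for smooth forms in degree zero. -/
theorem smooth_zero {w : Form (m + 1) 0} (hs : ContDiffOn ℝ ∞ w X.Ω)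
    (hw : IsL2 X.F X.Ω w) (hcl : ∀ x ∈ X.Ω, extDeriv w x = 0) :
    ∃ c : ℂ, ∀ x ∈ X.Ω,
      w x = ContinuousAlternatingMap.constOfIsEmpty ℝ (Fin (m + 1) → ℂ) (Fin 0) c := by
  have h1 : WeakD X.Ω w 0 := swa _ _ _ _ _ X.Ω_open hs hcl
  obtain ⟨c, hc⟩ := X.main_zero hw h1
  exact ⟨c, Measure.eqOn_open_of_ae_eq hc X.Ω_open hs.continuousOn continuousOn_const⟩

/-- Constants are smooth closed square integrable 0-forms. -/
theorem smooth_const {w : Form (m + 1) 0} {c : ℂ} (h : ∀ x ∈ X.Ω,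
      w x = ContinuousAlternatingMap.constOfIsEmpty ℝ (Fin (m + 1) → ℂ) (Fin 0) c) :
    ContDiffOn ℝ ∞ w X.Ω ∧ IsL2 X.F X.Ω w ∧ ∀ x ∈ X.Ω, extDeriv w x = 0 := by
  have hae : ∀ᵐ x ∂(volume.restrict X.Ω), ContinuousAlternatingMap.constOfIsEmpty ℝ
      (Fin (m + 1) → ℂ) (Fin 0) c = w x := by
    filter_upwards [ae_restrict_mem X.Ω_open.measurableSet] with x hx
    exact (h x hx).symm
  obtain ⟨h1, -⟩ := X.main_const c
  refine ⟨contDiffOn_const.congr h, ⟨h1.meas.congr hae, ?_⟩, fun x hx => ?_⟩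
  · have h3 : ∫⁻ x in X.Ω, normAt X.F x (w x) ^ 2 * ‖gramDet X.F x‖ₑ =
        ∫⁻ x in X.Ω, normAt X.F x (ContinuousAlternatingMap.constOfIsEmpty ℝ
          (Fin (m + 1) → ℂ) (Fin 0) c) ^ 2 * ‖gramDet X.F x‖ₑ :=
      lintegral_congr_ae (hae.mono fun x hx => by simp only [hx])
    exact lt_of_eq_of_lt h3 h1.fin
  · have h2 : w =ᶠ[𝓝 x] fun _ => ContinuousAlternatingMap.constOfIsEmpty ℝ
        (Fin (m + 1) → ℂ) (Fin 0) c := by
      filter_upwards [X.Ω_open.mem_nhds hx] with y hy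
      exact h y hy
    rw [h2.extDeriv_eq]
    show ContinuousAlternatingMap.alternatizeUncurryFin (fderiv ℝ (fun _ : Fin (m + 1) → ℂ =>
      ContinuousAlternatingMap.constOfIsEmpty ℝ (Fin (m + 1) → ℂ) (Fin 0) c) x) = 0
    have h3 : fderiv ℝ (fun _ : Fin (m + 1) → ℂ =>
      ContinuousAlternatingMap.constOfIsEmpty ℝ (Fin (m + 1) → ℂ) (Fin 0) c) x = 0 := by
      exact fderiv_const_apply _
    rw [h3]
    exact (ContinuousAlternatingMap.alternatizeUncurryFinCLM ℝ (Fin (m + 1) → ℂ) ℂ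
      (n := 0)).map_zero

end Chart

end L2P
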