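import Pool.Agent.Work.MP_ead3fc_ag.S.Par

/-!
# MP_ead3fc_ag, smooth stage: smoothness of the regularised forms

Proof of `S_KER`.
-/

set_option autoImplicit false

open MeasureTheory Set Filter Topology
open scoped ENNReal ContDiff

namespace L2P

variable {n k : ℕ}

theorem IsRad.lip {Ω : Set (Fin n → ℂ)} {ε : (Fin n → ℂ) → ℝ} (h : IsRad Ω ε)
    (x y : Fin n → ℂ) : |ε x - ε y| ≤ 1 / 2 * ‖x - y‖ := by
  have h1 := Convex.norm_image_sub_le_of_norm_fderiv_le (𝕜 := ℝ) (f := ε) (C := 1 / 2)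
    (s := univ) (x := y) (y := x) (fun z _ => (h.smooth.differentiable (by simp)) z)
    (fun z _ => h.slope z) convex_univ (mem_univ _) (mem_univ _)
  rwa [Real.norm_eq_abs] at h1

/-- Near `x₀` all the balls `B(x, ε x)` lie in one compact subset of `Ω`. -/
theorem IsRad.near {Ω : Set (Fin n → ℂ)} {ε : (Fin n → ℂ) → ℝ} (h : IsRad Ω ε)
    {x₀ : Fin n → ℂ} (hx₀ : x₀ ∈ Ω) :
    Metric.closedBall x₀ (7 / 4 * ε x₀) ⊆ Ω ∧ ∀ x ∈ Metric.ball x₀ (ε x₀ / 2), 0 < ε x ∧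
      Metric.closedBall x (ε x) ⊆ Metric.closedBall x₀ (7 / 4 * ε x₀) := by
  have hpos := h.pos x₀ hx₀
  constructor
  · refine subset_trans (fun y hy => ?_) (h.ball x₀ hx₀)
    rw [Metric.mem_closedBall] at hy
    rw [Metric.mem_ball]
    linarith
  · intro x hx
    rw [Metric.mem_ball, dist_eq_norm] at hx
    have h1 := h.lip x x₀
    have h2 := abs_le.1 h1
    refine ⟨by linarith [h2.1], fun y hy => ?_⟩
    rw [Metric.mem_closedBall] at hy ⊢
    calc dist y x₀ ≤ dist y x + dist x x₀ := dist_triangle _ _ _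
      _ ≤ ε x + ‖x - x₀‖ := by rw [dist_eq_norm x x₀]; linarith
      _ ≤ 7 / 4 * ε x₀ := by linarith [h2.2]

/-- The kernel of `R`. -/
noncomputable def kerR {n : ℕ} (k : ℕ) (m ε : (Fin n → ℂ) → ℝ) (x y : Fin n → ℂ) :
    ((Fin n → ℂ) [⋀^Fin k]→L[ℝ] ℂ) →L[ℝ] ((Fin n → ℂ) [⋀^Fin k]→L[ℝ] ℂ) :=
  (|((ε x) ^ Module.finrank ℝ (Fin n → ℂ))⁻¹| * m ((ε x)⁻¹ • (y - x))) •
    ContinuousAlternatingMap.compContinuousLinearMapCLM (dPhi ε 1 ((ε x)⁻¹ • (y - x)) x)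

theorem Rg_eq_ker (m ε : (Fin n → ℂ) → ℝ) (w : Form n k) {x : Fin n → ℂ} (hx : 0 < ε x) :
    Rg m ε w x = ∫ y, kerR k m ε x y (w y) := by
  have hd : (ε x) ^ Module.finrank ℝ (Fin n → ℂ) ≠ 0 := pow_ne_zero _ hx.ne'
  have h1 : ∫ y, kerR k m ε x y (w y) = |((ε x) ^ Module.finrank ℝ (Fin n → ℂ))⁻¹| •
      ∫ y, m ((ε x)⁻¹ • (y - x)) • (w y).compContinuousLinearMap
        (dPhi ε 1 ((ε x)⁻¹ • (y - x)) x) := by
    rw [← integral_smul]
    refine integral_congr_ae (Filter.Eventually.of_forall fun y => ?_)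
    simp only [kerR, smul_apply, smul_smul]
    rfl
  have h2 : ∫ y, m ((ε x)⁻¹ • (y - x)) • (w y).compContinuousLinearMap
        (dPhi ε 1 ((ε x)⁻¹ • (y - x)) x) =
      ∫ y, m ((ε x)⁻¹ • y) • (w (x + y)).compContinuousLinearMap
        (dPhi ε 1 ((ε x)⁻¹ • y) x) := by
    rw [← integral_add_left_eq_self _ x]
    refine integral_congr_ae (Filter.Eventually.of_forall fun y => ?_)
    simp only [add_sub_cancel_left]
  have h3 := Measure.integral_comp_smul (μ := (volume : Measure (Fin n → ℂ)))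
    (fun y => m ((ε x)⁻¹ • y) • (w (x + y)).compContinuousLinearMap
        (dPhi ε 1 ((ε x)⁻¹ • y) x)) (ε x)
  rw [h1, h2, ← h3]
  unfold Rg
  refine integral_congr_ae (Filter.Eventually.of_forall fun u => ?_)
  simp only [smul_smul, inv_mul_cancel₀ hx.ne', one_smul]

theorem kerR_eq_zero {m ε : (Fin n → ℂ) → ℝ} (hm : IsMol m) {x y : Fin n → ℂ} (hx : 0 < ε x)
    (hy : y ∉ Metric.closedBall x (ε x)) : kerR k m ε x y = 0 := by
  have h1 : m ((ε x)⁻¹ • (y - x)) = 0 := by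
    apply hm.supp
    rw [norm_smul, norm_inv, Real.norm_of_nonneg hx.le]
    rw [Metric.mem_closedBall, dist_eq_norm, not_le] at hy
    rw [inv_mul_eq_div, le_div_iff₀ hx]
    linarith
  rw [kerR, h1, mul_zero]
  ext w v
  simp

theorem contDiffAt_clm {V W U : Type*} [NormedAddCommGroup V] [NormedSpace ℝ V]
    [NormedAddCommGroup W] [NormedSpace ℝ W] [FiniteDimensional ℝ W] [NormedAddCommGroup U]
    [NormedSpace ℝ U] {F : V → W →L[ℝ] U} {y : V} (h : ∀ w, ContDiffAt ℝ ∞ (fun z => F z w) y) :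
    ContDiffAt ℝ ∞ F y := by
  let b := Module.finBasis ℝ W
  have h1 : F = fun z => ∑ i, (LinearMap.toContinuousLinearMap (b.coord i)).smulRight
      (F z (b i)) := by
    funext z
    ext w
    simp only [sum_apply, ContinuousLinearMap.smulRight_apply]
    conv_lhs => rw [← b.sum_repr w]
    rw [map_sum]
    refine Finset.sum_congr rfl fun i _ => ?_
    rw [map_smul]
    rfl
  rw [h1]
  refine ContDiffAt.sum fun i _ => ?_
  have h2 : IsBoundedLinearMap ℝ fun u : U =>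
      (LinearMap.toContinuousLinearMap (b.coord i) : W →L[ℝ] ℝ).smulRight u :=
    (ContinuousLinearMap.smulRightL ℝ W U
      (LinearMap.toContinuousLinearMap (b.coord i))).isBoundedLinearMap
  exact h2.contDiff.contDiffAt.comp y (h (b i))

theorem contDiff_dPhi {ε : (Fin n → ℂ) → ℝ} (hε : ContDiff ℝ ∞ ε) (t : ℝ)
    {V : Type*} [NormedAddCommGroup V] [NormedSpace ℝ V] {u x : V → (Fin n → ℂ)} {y : V}
    (hu : ContDiffAt ℝ ∞ u y) (hx : ContDiffAt ℝ ∞ x y) :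
    ContDiffAt ℝ ∞ (fun z => dPhi ε t (u z) (x z)) y := by
  have h1 : ContDiff ℝ ∞ (fderiv ℝ ε) := hε.fderiv_right (by simp)
  have h2 : ContDiffAt ℝ ∞ (fun z => fderiv ℝ ε (x z)) y := h1.contDiffAt.comp y hx
  have h3 : ContDiffAt ℝ ∞ (fun z => (fderiv ℝ ε (x z)).smulRight (u z)) y := by
    refine contDiffAt_clm fun v => ?_
    exact (h2.clm_apply contDiffAt_const).smul hu
  exact contDiffAt_const.add (h3.const_smul t)

theorem contDiffAt_kerR {m ε : (Fin n → ℂ) → ℝ} (hm : ContDiff ℝ ∞ m) (hε : ContDiff ℝ ∞ ε)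
    {q : (Fin n → ℂ) × (Fin n → ℂ)} (hq : 0 < ε q.1) :
    ContDiffAt ℝ ∞ (fun q : (Fin n → ℂ) × (Fin n → ℂ) => kerR k m ε q.1 q.2) q := by
  have h1 : ContDiffAt ℝ ∞ (fun q : (Fin n → ℂ) × (Fin n → ℂ) => ε q.1) q :=
    hε.contDiffAt.comp q contDiffAt_fst
  have h2 : ContDiffAt ℝ ∞ (fun q : (Fin n → ℂ) × (Fin n → ℂ) => (ε q.1)⁻¹) q :=
    h1.inv hq.ne'
  have h3 : ContDiffAt ℝ ∞ (fun q : (Fin n → ℂ) × (Fin n → ℂ) => (ε q.1)⁻¹ • (q.2 - q.1)) q :=
    h2.smul (contDiffAt_snd.sub contDiffAt_fst)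
  have h4 : ContDiffAt ℝ ∞ (fun q : (Fin n → ℂ) × (Fin n → ℂ) =>
      |((ε q.1) ^ Module.finrank ℝ (Fin n → ℂ))⁻¹|) q := by
    have h5 : ContDiffAt ℝ ∞ (fun q : (Fin n → ℂ) × (Fin n → ℂ) =>
      ((ε q.1) ^ Module.finrank ℝ (Fin n → ℂ))⁻¹) q := (h1.pow _).inv (pow_ne_zero _ hq.ne')
    refine h5.congr_of_eventuallyEq ?_
    have h6 : ∀ᶠ z : (Fin n → ℂ) × (Fin n → ℂ) in 𝓝 q, 0 < ε z.1 :=
      (hε.continuous.comp continuous_fst).continuousAt.eventually (lt_mem_nhds hq)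
    filter_upwards [h6] with z hz
    exact abs_of_pos (by positivity)
  refine contDiffAt_clm fun w => ?_
  have h7 : ContDiffAt ℝ ∞ (fun q : (Fin n → ℂ) × (Fin n → ℂ) =>
      w.compContinuousLinearMap (dPhi ε 1 ((ε q.1)⁻¹ • (q.2 - q.1)) q.1)) q :=
    contDiffAt_altComp contDiffAt_const (contDiff_dPhi hε 1 h3 contDiffAt_fst)
  exact (h4.mul (hm.contDiffAt.comp q h3)).smul h7

/-- KER. -/
theorem ker : S_KER := by
  intro n k Ω m ε w hΩ hm hε hw x₀ hx₀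
  obtain ⟨hK, hnear⟩ := hε.near hx₀
  set K : Set (Fin n → ℂ) := Metric.closedBall x₀ (7 / 4 * ε x₀) with hKdef
  have hKc : IsCompact K := isCompact_closedBall _ _
  set B : Set (Fin n → ℂ) := Metric.ball x₀ (ε x₀ / 2) with hB
  have hx₀B : x₀ ∈ B := Metric.mem_ball_self (by have := hε.pos x₀ hx₀; linarith)
  have h1 : ContDiffOn ℝ ∞ (fun x => ∫ y, kerR k m ε x y (w y)) B := by
    refine contDiffOn_kernel Metric.isOpen_ball hKc (hw.integrableOn_compact_subset hK hKc)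
      (fun x hx y hy => ?_) (fun q hq => ?_)
    · exact kerR_eq_zero hm (hnear x hx).1 fun h => hy ((hnear x hx).2 h)
    · exact (contDiffAt_kerR hm.smooth hε.smooth (hnear q.1 hq.1).1).contDiffWithinAt
  have h2 : ContDiffAt ℝ ∞ (Rg m ε w) x₀ := by
    refine (h1.contDiffAt (Metric.isOpen_ball.mem_nhds hx₀B)).congr_of_eventuallyEq ?_
    filter_upwards [Metric.isOpen_ball.mem_nhds hx₀B] with x hx
    exact Rg_eq_ker m ε w (hnear x hx).1
  exact h2.contDiffWithinAt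

end L2P
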