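import Pool.Agent.Work.MP_ead3fc_ag.Defs

/-!
# MP_ead3fc_ag, smooth stage: de Rham regularisation with variable radius

`Φ_u(x) = x + ε(x) u`, `R w = ∫ m(u) Φ_u^* w du`,
`A w (x) = ∫ m(u) ∫_0^1 ε(x) i_u w (x + s ε(x) u) ds du`.
If `θ` is smooth and closed and `d η = θ` weakly, then `η' = R η - A θ` is smooth, `d η' = θ`,
and `η'` is square integrable.
-/

set_option autoImplicit false

open MeasureTheory Set Filter Topology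
open scoped ENNReal ContDiff

namespace L2P

/-- A mollifier. -/
structure IsMol {n : ℕ} (m : (Fin n → ℂ) → ℝ) : Prop where
  smooth : ContDiff ℝ ∞ m
  nonneg : ∀ u, 0 ≤ m u
  supp : ∀ u, 1 ≤ ‖u‖ → m u = 0
  int : ∫ u, m u = 1

/-- A variable radius on `Ω`. -/
structure IsRad {n : ℕ} (Ω : Set (Fin n → ℂ)) (ε : (Fin n → ℂ) → ℝ) : Prop where
  smooth : ContDiff ℝ ∞ ε
  pos : ∀ x ∈ Ω, 0 < ε x
  le_one : ∀ x, ε x ≤ 1
  slope : ∀ x, ‖fderiv ℝ ε x‖ ≤ 1 / 2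
  ball : ∀ x ∈ Ω, Metric.ball x (2 * ε x) ⊆ Ω

/-- The differential of `x ↦ x + t ε(x) u`. -/
noncomputable def dPhi {n : ℕ} (ε : (Fin n → ℂ) → ℝ) (t : ℝ) (u x : Fin n → ℂ) :
    (Fin n → ℂ) →L[ℝ] (Fin n → ℂ) :=
  ContinuousLinearMap.id ℝ _ + t • (fderiv ℝ ε x).smulRight u

/-- The regularisation operator. -/
noncomputable def Rg {n k : ℕ} (m ε : (Fin n → ℂ) → ℝ) (w : Form n k) : Form n k := fun x =>
  ∫ u, m u • (w (x + ε x • u)).compContinuousLinearMap (dPhi ε 1 u x)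

/-- The homotopy operator. -/
noncomputable def Ag {n k : ℕ} (m ε : (Fin n → ℂ) → ℝ) (w : Form n (k + 1)) : Form n k := fun x =>
  ∫ p : (Fin n → ℂ) × ℝ in univ ×ˢ Icc (0 : ℝ) 1,
    (m p.1 * ε x) • ContinuousAlternatingMap.curryLeft (w (x + (p.2 * ε x) • p.1)) p.1

/-- The metric `F^* (Euclidean metric)` is tame with respect to the radius `ε`. -/
structure IsTame {n N : ℕ} (F : (Fin n → ℂ) → EuclideanSpace ℂ (Fin N)) (Ω : Set (Fin n → ℂ))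
    (ε : (Fin n → ℂ) → ℝ) (C : ℝ) : Prop where
  inj : ∀ x ∈ Ω, ∀ v, fderiv ℂ F x v = 0 → v = 0
  cont : ContinuousOn (fderiv ℂ F) Ω
  vec : ∀ x ∈ Ω, ∀ u, ‖u‖ ≤ 1 → ‖fderiv ℂ F x u‖ ≤ C
  push : ∀ x ∈ Ω, ∀ u, ‖u‖ ≤ 1 → ∀ t : ℝ, 0 ≤ t → t ≤ 1 → ∀ v,
    ‖fderiv ℂ F (x + (t * ε x) • u) (dPhi ε t u x v)‖ ≤ C * ‖fderiv ℂ F x v‖
  gram : ∀ x ∈ Ω, ∀ u, ‖u‖ ≤ 1 → ∀ t : ℝ, 0 ≤ t → t ≤ 1 →
    ‖gramDet F x‖ ≤ C * ‖gramDet F (x + (t * ε x) • u)‖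

/-- SW (a): smooth forms, classical derivative implies weak derivative. -/
def S_SWa : Prop :=
  ∀ (n k : ℕ) (Ω : Set (Fin n → ℂ)) (η : Form n k) (θ : Form n (k + 1)), IsOpen Ω →
    ContDiffOn ℝ ∞ η Ω → (∀ x ∈ Ω, extDeriv η x = θ x) → WeakD Ω η θ

/-- SW (b): weak derivative implies classical derivative for smooth forms. -/
def S_SWb : Prop :=
  ∀ (n k : ℕ) (Ω : Set (Fin n → ℂ)) (η : Form n k) (θ : Form n (k + 1)), IsOpen Ω →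
    ContDiffOn ℝ ∞ η Ω → ContinuousOn θ Ω → WeakD Ω η θ → ∀ x ∈ Ω, extDeriv η x = θ x

/-- KER: `R w` is smooth. -/
def S_KER : Prop :=
  ∀ (n k : ℕ) (Ω : Set (Fin n → ℂ)) (m ε : (Fin n → ℂ) → ℝ) (w : Form n k), IsOpen Ω →
    IsMol m → IsRad Ω ε → LocallyIntegrableOn w Ω → ContDiffOn ℝ ∞ (Rg m ε w) Ω

/-- COMM: `R` commutes with the weak exterior derivative. -/
def S_COMM : Prop :=
  ∀ (n k : ℕ) (Ω : Set (Fin n → ℂ)) (m ε : (Fin n → ℂ) → ℝ) (η : Form n k)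
    (θ : Form n (k + 1)), IsOpen Ω → IsMol m → IsRad Ω ε → LocallyIntegrableOn η Ω →
    LocallyIntegrableOn θ Ω → WeakD Ω η θ → WeakD Ω (Rg m ε η) (Rg m ε θ)

/-- HOM: homotopy formula for smooth closed forms. -/
def S_HOMO : Prop :=
  ∀ (n k : ℕ) (Ω : Set (Fin n → ℂ)) (m ε : (Fin n → ℂ) → ℝ) (θ : Form n (k + 1)), IsOpen Ω →
    IsMol m → IsRad Ω ε → ContDiffOn ℝ ∞ θ Ω → (∀ x ∈ Ω, extDeriv θ x = 0) →
    ContDiffOn ℝ ∞ (Ag m ε θ) Ω ∧ ∀ x ∈ Ω, extDeriv (Ag m ε θ) x = Rg m ε θ x - θ x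

/-- BND: bounds in `L²`. -/
def S_BND : Prop :=
  ∀ (n N k : ℕ) (Ω : Set (Fin n → ℂ)) (F : (Fin n → ℂ) → EuclideanSpace ℂ (Fin N))
    (m ε : (Fin n → ℂ) → ℝ) (C : ℝ), IsOpen Ω → IsMol m → IsRad Ω ε → IsTame F Ω ε C →
    (∀ w : Form n k, IsL2 F Ω w → ContinuousOn (Rg m ε w) Ω → IsL2 F Ω (Rg m ε w)) ∧
    (∀ w : Form n (k + 1), IsL2 F Ω w → ContinuousOn (Ag m ε w) Ω → IsL2 F Ω (Ag m ε w))

/-- EPS: existence of the radius, for every holomorphic immersion with bounded derivative. -/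
def S_EPS : Prop :=
  ∀ (n N : ℕ) (Ω : Set (Fin n → ℂ)) (F : (Fin n → ℂ) → EuclideanSpace ℂ (Fin N)) (C : ℝ),
    IsOpen Ω → DifferentiableOn ℂ F Ω → (∀ z ∈ Ω, ‖fderiv ℂ F z‖ ≤ C) →
    (∀ z ∈ Ω, Function.Injective (fderiv ℂ F z)) →
    ∃ (ε : (Fin n → ℂ) → ℝ) (C' : ℝ), IsRad Ω ε ∧ IsTame F Ω ε C'

/-- MEAS: the norm of a measurable form is measurable (it is jointly continuous in the point and
the alternating form). -/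
def S_MEAS : Prop :=
  ∀ (n N k : ℕ) (Ω : Set (Fin n → ℂ)) (F : (Fin n → ℂ) → EuclideanSpace ℂ (Fin N))
    (w : Form n k), IsOpen Ω → (∀ x ∈ Ω, ∀ v, fderiv ℂ F x v = 0 → v = 0) →
    ContinuousOn (fderiv ℂ F) Ω → AEStronglyMeasurable w (volume.restrict Ω) →
    AEMeasurable (fun x => normAt F x (w x)) (volume.restrict Ω)

/-- LOC: square integrable forms are locally integrable. -/
def S_LOC : Prop :=
  ∀ (n N k : ℕ) (Ω : Set (Fin n → ℂ)) (F : (Fin n → ℂ) → EuclideanSpace ℂ (Fin N))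
    (w : Form n k), IsOpen Ω → (∀ x ∈ Ω, ∀ v, fderiv ℂ F x v = 0 → v = 0) →
    ContinuousOn (fderiv ℂ F) Ω → IsL2 F Ω w → LocallyIntegrableOn w Ω

/-- REG: weak primitives of smooth closed forms can be made smooth. -/
def S_REG2 : Prop :=
  ∀ (n N k : ℕ) (Ω : Set (Fin n → ℂ)) (F : (Fin n → ℂ) → EuclideanSpace ℂ (Fin N))
    (C : ℝ) (η : Form n k) (θ : Form n (k + 1)), IsOpen Ω → DifferentiableOn ℂ F Ω →
    (∀ z ∈ Ω, ‖fderiv ℂ F z‖ ≤ C) → (∀ z ∈ Ω, Function.Injective (fderiv ℂ F z)) →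
    ContDiffOn ℝ ∞ θ Ω → (∀ x ∈ Ω, extDeriv θ x = 0) →
    IsL2 F Ω θ → IsL2 F Ω η → WeakD Ω η θ →
    ∃ η' : Form n k, ContDiffOn ℝ ∞ η' Ω ∧ IsL2 F Ω η' ∧ ∀ x ∈ Ω, extDeriv η' x = θ x

end L2P
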